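import Pool.Agent.J4.H72.PK.Sup

/-! An odd bump function whose multiples are differences of support functions of balls and
bodies. -/

set_option autoImplicit false

namespace Pool.Agent.J4.H72.PK

open MeasureTheory Set Filter Topology
open scoped Pointwise ENNReal

variable {n : ℕ}

theorem ell_comm (u v : Fin n → ℝ) : ell u v = ell v u := by
  unfold ell
  exact Finset.sum_congr rfl fun i _ => mul_comm _ _

theorem ell_add_left (u v x : Fin n → ℝ) : ell (u + v) x = ell u x + ell v x := by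
  rw [ell_comm, ell_add, ell_comm x u, ell_comm x v]

theorem ell_smul_left (a : ℝ) (u x : Fin n → ℝ) : ell (a • u) x = a * ell u x := by
  rw [ell_comm, ell_smul, ell_comm]

theorem ell_neg_left (u x : Fin n → ℝ) : ell (-u) x = -ell u x := by
  rw [ell_comm, ell_neg, ell_comm]

theorem ell_self_nonneg (v : Fin n → ℝ) : 0 ≤ ell v v :=
  Finset.sum_nonneg fun _ _ => mul_self_nonneg _

theorem ell_self_eq_zero {v : Fin n → ℝ} (h : ell v v = 0) : v = 0 := by
  funext i
  have := (Finset.sum_eq_zero_iff_of_nonneg (fun i _ => mul_self_nonneg (v i))).1 h i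
    (Finset.mem_univ _)
  exact mul_self_eq_zero.1 this

/-- the Euclidean norm -/
noncomputable def nm (v : Fin n → ℝ) : ℝ := √(ell v v)

theorem nm_nonneg (v : Fin n → ℝ) : 0 ≤ nm v := Real.sqrt_nonneg _

theorem nm_sq (v : Fin n → ℝ) : nm v * nm v = ell v v := Real.mul_self_sqrt (ell_self_nonneg v)

theorem nm_pos {v : Fin n → ℝ} (h : v ≠ 0) : 0 < nm v := by
  refine (nm_nonneg v).lt_of_ne fun h' => h (ell_self_eq_zero ?_)
  rw [← nm_sq, ← h', mul_zero]

theorem nm_neg (v : Fin n → ℝ) : nm (-v) = nm v := by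
  unfold nm
  rw [ell_neg, ell_neg_left, neg_neg]

theorem nm_smul {a : ℝ} (ha : 0 ≤ a) (v : Fin n → ℝ) : nm (a • v) = a * nm v := by
  unfold nm
  rw [ell_smul, ell_smul_left, ← mul_assoc, Real.sqrt_mul (mul_self_nonneg a),
    Real.sqrt_mul_self ha]

theorem nm_zero : nm (0 : Fin n → ℝ) = 0 := by
  have : ell (0 : Fin n → ℝ) 0 = 0 := by simp [ell]
  unfold nm
  rw [this, Real.sqrt_zero]

theorem nm_one {v : Fin n → ℝ} (h : ell v v = 1) : nm v = 1 := by
  unfold nm
  rw [h, Real.sqrt_one]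

/-- Cauchy-Schwarz -/
theorem cs (u v : Fin n → ℝ) : ell u v ≤ nm u * nm v := by
  have h := Finset.sum_mul_sq_le_sq_mul_sq Finset.univ u v
  have h1 : ell u v ^ 2 ≤ (nm u * nm v) ^ 2 := by
    have e1 : ∑ i, u i ^ 2 = ell u u := Finset.sum_congr rfl fun i _ => pow_two _
    have e2 : ∑ i, v i ^ 2 = ell v v := Finset.sum_congr rfl fun i _ => pow_two _
    rw [e1, e2] at h
    calc ell u v ^ 2 ≤ ell u u * ell v v := h
      _ = (nm u * nm v) ^ 2 := by rw [← nm_sq, ← nm_sq]; ring
  exact le_of_sq_le_sq h1 (mul_nonneg (nm_nonneg _) (nm_nonneg _))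

theorem continuous_nm : Continuous (nm : (Fin n → ℝ) → ℝ) := by
  unfold nm
  refine Real.continuous_sqrt.comp ?_
  unfold ell
  fun_prop

/-- the bump -/
noncomputable def qb (e : Fin n → ℝ) (c : ℝ) (v : Fin n → ℝ) : ℝ :=
  (max (ell v e - c * nm v) 0) ^ 2 / nm v

/-- its gradient -/
noncomputable def gq (e : Fin n → ℝ) (c : ℝ) (u : Fin n → ℝ) : Fin n → ℝ :=
  (2 * max (ell u e - c) 0) • (e - c • u) - (max (ell u e - c) 0 ^ 2) • u

theorem max_ineq {s σ N : ℝ} (hN : 0 < N) :
    0 ≤ max s 0 ^ 2 - 2 * max σ 0 * N * s + max σ 0 ^ 2 * (N * N) ∧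
      max s 0 ^ 2 - 2 * max σ 0 * N * s + max σ 0 ^ 2 * (N * N) ≤ (s - N * σ) ^ 2 := by
  rcases le_total 0 s with h1 | h1 <;> rcases le_total 0 σ with h2 | h2
  · rw [max_eq_left h1, max_eq_left h2]
    constructor
    · nlinarith [sq_nonneg (s - N * σ)]
    · nlinarith
  · rw [max_eq_left h1, max_eq_right h2]
    have : 0 ≤ N * (-σ) := mul_nonneg hN.le (by linarith)
    constructor
    · nlinarith
    · nlinarith
  · rw [max_eq_right h1, max_eq_left h2]
    have h3 : 0 ≤ σ * N * (-s) := mul_nonneg (mul_nonneg h2 hN.le) (by linarith)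
    constructor
    · nlinarith [sq_nonneg (σ * N)]
    · nlinarith [sq_nonneg s]
  · rw [max_eq_right h1, max_eq_right h2]
    constructor
    · simp
    · nlinarith [sq_nonneg (s - N * σ)]

theorem qb_ineq {e u : Fin n → ℝ} {c : ℝ} (he : ell e e = 1) (hc0 : 0 ≤ c) (hc1 : c ≤ 1)
    (hu : ell u u = 1) (v : Fin n → ℝ) :
    |qb e c v - ell v (gq e c u)| ≤ 3 * (nm v - ell u v) := by
  by_cases hv : v = 0
  · subst hv
    have h1 : ∀ x : Fin n → ℝ, ell 0 x = 0 := fun x => by simp [ell]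
    have h2 : ell u (0 : Fin n → ℝ) = 0 := by simp [ell]
    rw [qb, nm_zero, div_zero, h1, h2]
    simp
  have hN := nm_pos hv
  set N := nm v with hNd
  set p := ell u v with hp
  set s := ell v e - c * N with hs
  set σ := ell u e - c with hσ
  set w := max σ 0 with hw
  have hNN : N * N = ell v v := nm_sq v
  have hpN : p ≤ N := by
    have := cs u v
    rw [nm_one hu, one_mul] at this
    exact this
  have hue : ell u e ≤ 1 := by
    have := cs u e
    rw [nm_one hu, nm_one he, one_mul] at this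
    exact this
  have hw0 : 0 ≤ w := le_max_right _ _
  have hw1 : w ≤ 1 - c := max_le (by rw [hσ]; linarith) (by linarith)
  have hg : ell v (gq e c u) = 2 * w * (ell v e - c * p) - w ^ 2 * p := by
    unfold gq
    rw [ell_sub, ell_smul, ell_smul, ell_sub, ell_smul, ell_comm v u]
  have hq : qb e c v * N = max s 0 ^ 2 := by
    unfold qb
    rw [← hNd, ← hs]
    field_simp
  -- the square
  have hd : (s - N * σ) ^ 2 ≤ 2 * (N * (N - p)) := by
    have h1 : s - N * σ = ell (v - N • u) e := by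
      rw [ell_comm, ell_sub, ell_smul, ell_comm e v, ell_comm e u, hs, hσ]; ring
    have h2 : ell (v - N • u) (v - N • u) = 2 * (N * (N - p)) := by
      rw [ell_sub, ell_smul, ell_comm (v - N • u) v, ell_comm (v - N • u) u, ell_sub, ell_sub,
        ell_smul, ell_smul, hu, ell_comm v u, ← hNN]
      ring
    have h3 := cs (v - N • u) e
    have h4 := cs (-(v - N • u)) e
    rw [nm_neg, ell_neg_left] at h4
    rw [nm_one he, mul_one] at h3 h4
    rw [h1, ← h2, ← nm_sq]
    nlinarith [nm_nonneg (v - N • u)]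
  obtain ⟨h1, h2⟩ := max_ineq (s := s) (σ := σ) hN
  have hX : (qb e c v - ell v (gq e c u)) * N =
      (max s 0 ^ 2 - 2 * w * N * s + w ^ 2 * (N * N)) - (2 * w * c + w ^ 2) * (N * (N - p)) := by
    rw [sub_mul, hq, hg]
    have : ell v e = s + c * N := by rw [hs]; ring
    rw [this]
    ring
  have hNp : 0 ≤ N * (N - p) := mul_nonneg hN.le (by linarith)
  have h3 : 0 ≤ 2 * w * c + w ^ 2 := by positivity
  have h4 : 2 * w * c + w ^ 2 ≤ 1 := by nlinarith
  have h5 : (2 * w * c + w ^ 2) * (N * (N - p)) ≤ N * (N - p) := by nlinarith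
  have h6 : 0 ≤ (2 * w * c + w ^ 2) * (N * (N - p)) := mul_nonneg h3 hNp
  rw [abs_le]
  constructor
  · have : -(3 * (N - p)) * N ≤ (qb e c v - ell v (gq e c u)) * N := by
      rw [hX]; nlinarith
    exact le_of_mul_le_mul_right this hN
  · have : (qb e c v - ell v (gq e c u)) * N ≤ 3 * (N - p) * N := by
      rw [hX]; nlinarith
    exact le_of_mul_le_mul_right this hN

/-- the odd bump -/
noncomputable def gb (e : Fin n → ℝ) (c : ℝ) (v : Fin n → ℝ) : ℝ := qb e c v - qb e c (-v)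

theorem gb_neg (e : Fin n → ℝ) (c : ℝ) (v : Fin n → ℝ) : gb e c (-v) = -gb e c v := by
  unfold gb
  rw [neg_neg]; ring

theorem gb_ineq {e u : Fin n → ℝ} {c : ℝ} (he : ell e e = 1) (hc0 : 0 ≤ c) (hc1 : c ≤ 1)
    (hu : ell u u = 1) (v : Fin n → ℝ) :
    |gb e c v - ell v (gq e c u + gq e c (-u))| ≤ 6 * (nm v - ell u v) := by
  have h1 := qb_ineq he hc0 hc1 hu v
  have h2 := qb_ineq he hc0 hc1 (u := -u) (by rw [ell_neg, ell_neg_left, neg_neg, hu]) (-v)
  have e1 : ell (-u) (-v) = ell u v := by rw [ell_neg_left, ell_neg, neg_neg]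
  rw [nm_neg, e1, ell_neg_left v (gq e c (-u))] at h2
  rw [abs_le] at h1 h2 ⊢
  unfold gb
  rw [ell_add]
  constructor <;> linarith

theorem qb_smul {e : Fin n → ℝ} {c a : ℝ} (ha : 0 ≤ a) (v : Fin n → ℝ) :
    qb e c (a • v) = a * qb e c v := by
  unfold qb
  rw [nm_smul ha, ell_smul_left]
  have h1 : max (a * ell v e - c * (a * nm v)) 0 = a * max (ell v e - c * nm v) 0 := by
    rw [mul_max_of_nonneg _ _ ha, mul_zero]
    congr 1
    ring
  rw [h1]
  rcases ha.eq_or_lt with h | h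
  · rw [← h]; simp
  · rcases (nm_nonneg v).eq_or_lt with h2 | h2
    · rw [← h2]; simp
    · field_simp

theorem gb_smul {e : Fin n → ℝ} {c a : ℝ} (ha : 0 ≤ a) (v : Fin n → ℝ) :
    gb e c (a • v) = a * gb e c v := by
  unfold gb
  rw [← smul_neg, qb_smul ha, qb_smul ha]
  ring

theorem qb_zero_of {e : Fin n → ℝ} {c : ℝ} {v : Fin n → ℝ} (h : ell v e ≤ c * nm v) :
    qb e c v = 0 := by
  unfold qb
  rw [max_eq_right (by linarith)]
  simp

theorem gb_zero_of {e : Fin n → ℝ} {c : ℝ} {v : Fin n → ℝ} (h : |ell v e| ≤ c * nm v) :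
    gb e c v = 0 := by
  rw [abs_le] at h
  unfold gb
  rw [qb_zero_of h.2, qb_zero_of (by rw [nm_neg, ell_neg_left]; linarith), sub_self]

theorem qb_bound {e : Fin n → ℝ} {c : ℝ} (he : ell e e = 1) (hc0 : 0 ≤ c) (v : Fin n → ℝ) :
    0 ≤ qb e c v ∧ qb e c v ≤ nm v := by
  unfold qb
  refine ⟨div_nonneg (sq_nonneg _) (nm_nonneg _), ?_⟩
  rcases (nm_nonneg v).eq_or_lt with h | h
  · rw [← h]; simp
  · rw [div_le_iff₀ h]
    have h1 : ell v e ≤ nm v := by
      have := cs v e
      rwa [nm_one he, mul_one] at this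
    have h2 : max (ell v e - c * nm v) 0 ≤ nm v := max_le (by nlinarith) h.le
    have h3 : 0 ≤ max (ell v e - c * nm v) 0 := le_max_right _ _
    nlinarith

theorem gb_bound {e : Fin n → ℝ} {c : ℝ} (he : ell e e = 1) (hc0 : 0 ≤ c) (v : Fin n → ℝ) :
    |gb e c v| ≤ nm v := by
  have h1 := qb_bound he hc0 v
  have h2 := qb_bound he hc0 (-v)
  rw [nm_neg] at h2
  unfold gb
  rw [abs_le]
  constructor <;> linarith [h1.1, h1.2, h2.1, h2.2]

theorem gb_self {e : Fin n → ℝ} {c : ℝ} (he : ell e e = 1) (hc0 : 0 ≤ c) (hc1 : c < 1) :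
    0 < gb e c e := by
  have h1 : qb e c (-e) = 0 := qb_zero_of (by
    rw [nm_neg, ell_neg_left, he, nm_one he]; linarith)
  have h2 : qb e c e = (1 - c) ^ 2 := by
    unfold qb
    rw [he, nm_one he, mul_one, div_one, max_eq_left (by linarith)]
  unfold gb
  rw [h1, h2, sub_zero]
  have : 0 < 1 - c := by linarith
  positivity

/-! ### bodies with a given support function -/

/-- the body of a function -/
def wf (f : (Fin n → ℝ) → ℝ) : Set (Fin n → ℝ) := {x | ∀ v, ell v x ≤ f v}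

theorem ell_single (i : Fin n) (x : Fin n → ℝ) : ell (Pi.single i 1) x = x i := by
  unfold ell
  rw [Finset.sum_eq_single i]
  · simp
  · intro j _ hj
    simp [Pi.single_eq_of_ne hj]
  · simp

theorem wf_cc {f : (Fin n → ℝ) → ℝ} (hne : (wf f).Nonempty) : Cc (wf f) := by
  refine ⟨?_, ?_, hne⟩
  · have hcl : IsClosed (wf f) := by
      have : wf f = ⋂ v, {x | ell v x ≤ f v} := by
        ext x
        simp [wf]
      rw [this]
      exact isClosed_iInter fun v => isClosed_le (continuous_ell v) continuous_const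
    have hsub : wf f ⊆ Icc (fun i => -f (-Pi.single i 1)) (fun i => f (Pi.single i 1)) := by
      intro x hx
      refine ⟨fun i => ?_, fun i => ?_⟩
      · have := hx (-Pi.single i 1)
        rw [ell_neg_left, ell_single] at this
        linarith
      · have := hx (Pi.single i 1)
        rwa [ell_single] at this
    exact isCompact_Icc.of_isClosed_subset hcl hsub
  · intro x hx y hy a b ha hb hab v
    rw [ell_add, ell_smul, ell_smul]
    have h1 := hx v
    have h2 := hy v
    have h3 : f v = a * f v + b * f v := by rw [← add_mul, hab, one_mul]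
    rw [h3]
    exact add_le_add (mul_le_mul_of_nonneg_left h1 ha) (mul_le_mul_of_nonneg_left h2 hb)

theorem unit_smul {v : Fin n → ℝ} (h : v ≠ 0) :
    ell ((nm v)⁻¹ • v) ((nm v)⁻¹ • v) = 1 ∧ v = nm v • ((nm v)⁻¹ • v) := by
  have hN := nm_pos h
  constructor
  · rw [ell_smul, ell_smul_left, ← nm_sq]
    field_simp
  · rw [smul_smul, mul_inv_cancel₀ hN.ne', one_smul]

theorem hs_wf {f : (Fin n → ℝ) → ℝ} (hf : ∀ a v, 0 ≤ a → f (a • v) = a * f v)
    (h : ∀ u, ell u u = 1 → ∃ x ∈ wf f, ell u x = f u) (hne : (wf f).Nonempty)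
    (v : Fin n → ℝ) : hs (wf f) v = f v := by
  have hc := wf_cc hne
  by_cases hv : v = 0
  · subst hv
    rw [hs_zero hc]
    have := hf 0 0 le_rfl
    rw [zero_smul, zero_mul] at this
    exact this.symm
  apply le_antisymm
  · exact hs_le hne fun x hx => hx v
  · obtain ⟨h1, h2⟩ := unit_smul hv
    obtain ⟨x, hx, hx'⟩ := h _ h1
    have h3 := le_hs hc.cpt v hx
    refine le_trans (le_of_eq ?_) h3
    conv_rhs => rw [h2]
    rw [ell_smul_left, hx', ← hf _ _ (nm_nonneg v), ← h2]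

theorem hs_hom {K : Set (Fin n → ℝ)} (h : Cc K) {a : ℝ} (ha : 0 ≤ a) (v : Fin n → ℝ) :
    hs K (a • v) = a * hs K v := by
  have : ∀ w : Fin n → ℝ, ell (a • v) w = ell v (a • w) := fun w => by
    rw [ell_smul_left, ell_smul]
  rw [← hs_smul h ha v]
  unfold hs
  congr 1
  ext r
  constructor
  · rintro ⟨x, hx, rfl⟩
    exact ⟨a • x, smul_mem_smul_set hx, (this x).symm⟩
  · rintro ⟨_, ⟨x, hx, rfl⟩, rfl⟩
    exact ⟨x, hx, this x⟩

theorem continuous_hs {K : Set (Fin n → ℝ)} (h : IsCompact K) : Continuous (hs K) := by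
  unfold hs
  refine h.continuous_sSup ?_
  have h1 : Continuous (fun p : (Fin n → ℝ) × (Fin n → ℝ) => ell p.1 p.2) := by
    unfold ell
    fun_prop
  exact h1

end Pool.Agent.J4.H72.PK
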