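import Pool.Agent.J4.H72.PK.Fam

/-! Truncated bodies; limits of lattices. -/

set_option autoImplicit false

namespace Pool.Agent.J4.H72.PK

open MeasureTheory Set Filter Topology
open scoped Pointwise ENNReal
open Pool.Agent.TH219.DL Pool.Agent.H349R2.Tet

variable {K : Set V} {w : V}

theorem int_lt (hK : Bd K) (hw : w ≠ 0) {x : V} (hx : x ∈ interior K) : ell w x < hs K w := by
  have h1 : Tendsto (fun ε : ℝ => x + ε • w) (𝓝[>] 0) (𝓝 x) := by
    have : Tendsto (fun ε : ℝ => x + ε • w) (𝓝 0) (𝓝 (x + (0 : ℝ) • w)) :=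
      (continuous_const.add (continuous_id.smul continuous_const)).tendsto 0
    rw [zero_smul, add_zero] at this
    exact this.mono_left nhdsWithin_le_nhds
  have h2 : ∀ᶠ ε : ℝ in 𝓝[>] 0, x + ε • w ∈ K :=
    h1.eventually (mem_interior_iff_mem_nhds.1 hx)
  obtain ⟨ε, hε, hε0⟩ := (h2.and self_mem_nhdsWithin).exists
  have hε0 : 0 < ε := hε0
  have h3 := le_hs hK.cpt w hε
  rw [ell_add, ell_smul] at h3
  have h4 : 0 < ell w w := by
    rw [← nm_sq]
    exact mul_pos (nm_pos hw) (nm_pos hw)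
  have : 0 < ε * ell w w := mul_pos hε0 h4
  linarith

theorem lo_int {τ : ℝ} {x : V} (hx : x ∈ interior K) (hxt : ell w x < τ) :
    x ∈ interior (lo K w τ) := by
  have ho : IsOpen (interior K ∩ {x | ell w x < τ}) :=
    isOpen_interior.inter (isOpen_lt (continuous_ell w) continuous_const)
  refine interior_maximal ?_ ho ⟨hx, hxt⟩
  rintro y ⟨hy1, hy2⟩
  have hy2 : ell w y < τ := hy2
  exact ⟨interior_subset hy1, hy2.le⟩

theorem lo_bd (hK : Bd K) {τ : ℝ} {x : V} (hx : x ∈ interior K) (hxt : ell w x < τ) :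
    Bd (lo K w τ) := by
  refine ⟨hK.cpt.inter_right (isClosed_le (continuous_ell w) continuous_const), ?_,
    ⟨x, lo_int hx hxt⟩⟩
  refine hK.cvx.inter ?_
  intro x hx y hy a b ha hb hab
  have hx : ell w x ≤ τ := hx
  have hy : ell w y ≤ τ := hy
  show ell w (a • x + b • y) ≤ τ
  rw [ell_add, ell_smul, ell_smul]
  calc a * ell w x + b * ell w y ≤ a * τ + b * τ :=
        add_le_add (mul_le_mul_of_nonneg_left hx ha) (mul_le_mul_of_nonneg_left hy hb)
    _ = τ := by rw [← add_mul, hab, one_mul]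

theorem lo_vol (hK : Bd K) {τ : ℝ} (h : τ < hs K w) :
    volume.real (lo K w τ) < volume.real K := by
  obtain ⟨x, hx, hx'⟩ := exists_hs hK.cc w
  have h3 := hi_eq (w := w) hK τ
  have h4 : τ < ell w x := by rw [hx']; exact h
  have h5 : x ∈ closure (interior K) := by
    rw [hK.cvx.closure_interior_eq_closure_of_nonempty_interior hK.int]
    exact subset_closure hx
  have ho : IsOpen {z : V | τ < ell w z} := isOpen_lt continuous_const (continuous_ell w)
  obtain ⟨z, hz1, hz2⟩ := mem_closure_iff.1 h5 _ ho h4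
  have h6 : 0 < volume (interior K ∩ {z : V | τ < ell w z}) :=
    (isOpen_interior.inter ho).measure_pos _ ⟨z, hz2, hz1⟩
  have h7 : volume (interior K ∩ {z : V | τ < ell w z}) ≤ volume (K ∩ {z : V | τ < ell w z}) :=
    measure_mono (inter_subset_inter_left _ interior_subset)
  have h8 : volume (K ∩ {z : V | τ < ell w z}) ≠ ⊤ :=
    measure_ne_top_of_subset inter_subset_left hK.fin
  have h9 := ENNReal.toReal_pos (h6.trans_le h7).ne' h8
  rw [measureReal_def] at h3
  unfold cd at h3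
  linarith

theorem lo_dist (hK : Bd K) {x₀ : V} (hx₀ : x₀ ∈ K) (hlt : ell w x₀ < hs K w) {t M : ℝ}
    (ht0 : 0 ≤ t) (ht1 : t ≤ hs K w - ell w x₀) (hM : ∀ x ∈ K, ‖x - x₀‖ ≤ M) :
    Metric.hausdorffDist K (lo K w (hs K w - t)) ≤ t / (hs K w - ell w x₀) * M := by
  have hd : 0 < hs K w - ell w x₀ := by linarith
  have hM0 : 0 ≤ M := (norm_nonneg _).trans (hM x₀ hx₀)
  set τ := t / (hs K w - ell w x₀) with hτ
  have hτ0 : 0 ≤ τ := div_nonneg ht0 hd.le
  have hτ1 : τ ≤ 1 := (div_le_one hd).2 ht1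
  refine Metric.hausdorffDist_le_of_mem_dist (by positivity) (fun x hx => ?_) fun x hx => ?_
  · refine ⟨(1 - τ) • x + τ • x₀, ⟨hK.cvx hx hx₀ (by linarith) hτ0 (by ring), ?_⟩, ?_⟩
    · show ell w _ ≤ _
      rw [ell_add, ell_smul, ell_smul]
      have h1 := le_hs hK.cpt w hx
      have h2 : (1 - τ) * ell w x ≤ (1 - τ) * hs K w :=
        mul_le_mul_of_nonneg_left h1 (by linarith)
      have h3 : τ * (hs K w - ell w x₀) = t := by rw [hτ]; field_simp
      linarith
    · rw [dist_eq_norm]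
      have e : x - ((1 - τ) • x + τ • x₀) = τ • (x - x₀) := by
        rw [sub_smul, one_smul, smul_sub]; abel
      rw [e, norm_smul, Real.norm_eq_abs, abs_of_nonneg hτ0]
      exact mul_le_mul_of_nonneg_left (hM x hx) hτ0
  · refine ⟨x, hx.1, ?_⟩
    rw [dist_self]
    positivity

/-! ### coordinates -/

theorem continuous_dt : Continuous (dt : (Fin 3 → V) → ℝ) := by
  have : (dt : (Fin 3 → V) → ℝ) = fun b => b 0 0 * b 1 1 * b 2 2 - b 0 0 * b 1 2 * b 2 1 -
      b 0 1 * b 1 0 * b 2 2 + b 0 1 * b 1 2 * b 2 0 + b 0 2 * b 1 0 * b 2 1 -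
      b 0 2 * b 1 1 * b 2 0 := by
    funext b
    simp only [dt, Matrix.det_fin_three, Matrix.of_apply]
  rw [this]
  fun_prop

/-- the coordinates of `u` with respect to `b` -/
noncomputable def coord (b : Fin 3 → V) (u : V) : V := fun i => dt (Function.update b i u) / dt b

theorem dt_eq (b : Fin 3 → V) : dt b = b 0 0 * b 1 1 * b 2 2 - b 0 0 * b 1 2 * b 2 1 -
    b 0 1 * b 1 0 * b 2 2 + b 0 1 * b 1 2 * b 2 0 + b 0 2 * b 1 0 * b 2 1 -
    b 0 2 * b 1 1 * b 2 0 := by
  simp only [dt, Matrix.det_fin_three, Matrix.of_apply]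

theorem upd0 (b : Fin 3 → V) (u : V) : dt (Function.update b 0 u) =
    u 0 * b 1 1 * b 2 2 - u 0 * b 1 2 * b 2 1 - u 1 * b 1 0 * b 2 2 + u 1 * b 1 2 * b 2 0 +
      u 2 * b 1 0 * b 2 1 - u 2 * b 1 1 * b 2 0 := by
  rw [dt_eq]
  simp [Function.update]

theorem upd1 (b : Fin 3 → V) (u : V) : dt (Function.update b 1 u) =
    b 0 0 * u 1 * b 2 2 - b 0 0 * u 2 * b 2 1 - b 0 1 * u 0 * b 2 2 + b 0 1 * u 2 * b 2 0 +
      b 0 2 * u 0 * b 2 1 - b 0 2 * u 1 * b 2 0 := by
  rw [dt_eq]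
  simp [Function.update]

theorem upd2 (b : Fin 3 → V) (u : V) : dt (Function.update b 2 u) =
    b 0 0 * b 1 1 * u 2 - b 0 0 * b 1 2 * u 1 - b 0 1 * b 1 0 * u 2 + b 0 1 * b 1 2 * u 0 +
      b 0 2 * b 1 0 * u 1 - b 0 2 * b 1 1 * u 0 := by
  rw [dt_eq]
  simp [Function.update]

attribute [local irreducible] dt

theorem coord_sum {b : Fin 3 → V} (hb : dt b ≠ 0) (z : V) : coord b (∑ i, z i • b i) = z := by
  funext i
  unfold coord
  rw [div_eq_iff hb]
  have e : ∀ j, (∑ i, z i • b i) j = z 0 * b 0 j + z 1 * b 1 j + z 2 * b 2 j := by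
    intro j
    rw [Finset.sum_apply, Fin.sum_univ_three]
    rfl
  fin_cases i
  · show dt (Function.update b 0 _) = z 0 * dt b
    rw [upd0, e, e, e, dt_eq b]
    ring
  · show dt (Function.update b 1 _) = z 1 * dt b
    rw [upd1, e, e, e, dt_eq b]
    ring
  · show dt (Function.update b 2 _) = z 2 * dt b
    rw [upd2, e, e, e, dt_eq b]
    ring

theorem sum_coord {b : Fin 3 → V} (hb : dt b ≠ 0) (u : V) : ∑ i, coord b u i • b i = u := by
  funext j
  rw [Finset.sum_apply, Fin.sum_univ_three]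
  show dt (Function.update b 0 u) / dt b * b 0 j + dt (Function.update b 1 u) / dt b * b 1 j +
    dt (Function.update b 2 u) / dt b * b 2 j = u j
  have h : dt (Function.update b 0 u) * b 0 j + dt (Function.update b 1 u) * b 1 j +
      dt (Function.update b 2 u) * b 2 j = u j * dt b := by
    rw [upd0, upd1, upd2, dt_eq b]
    fin_cases j
    · show _ * b 0 0 + _ * b 1 0 + _ * b 2 0 = u 0 * _
      ring
    · show _ * b 0 1 + _ * b 1 1 + _ * b 2 1 = u 1 * _
      ring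
    · show _ * b 0 2 + _ * b 1 2 + _ * b 2 2 = u 2 * _
      ring
  have e : dt (Function.update b 0 u) / dt b * b 0 j + dt (Function.update b 1 u) / dt b * b 1 j +
    dt (Function.update b 2 u) / dt b * b 2 j = (dt (Function.update b 0 u) * b 0 j +
      dt (Function.update b 1 u) * b 1 j + dt (Function.update b 2 u) * b 2 j) / dt b := by ring
  rw [e, h, mul_div_cancel_right₀ _ hb]

theorem tendsto_coord {bn : ℕ → Fin 3 → V} {un : ℕ → V} {b : Fin 3 → V} {u : V}
    (hb : dt b ≠ 0) (h1 : Tendsto bn atTop (𝓝 b)) (h2 : Tendsto un atTop (𝓝 u)) (i : Fin 3) :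
    Tendsto (fun n => coord (bn n) (un n) i) atTop (𝓝 (coord b u i)) := by
  unfold coord
  refine Tendsto.div ?_ ((continuous_dt.tendsto b).comp h1) hb
  have hc : Continuous fun p : (Fin 3 → V) × V => dt (Function.update p.1 i p.2) :=
    continuous_dt.comp (continuous_fst.update i continuous_snd)
  exact (hc.tendsto (b, u)).comp (h1.prodMk_nhds h2)

/-- limits of lattice vectors -/
theorem lat_lim {bn : ℕ → Fin 3 → V} {un : ℕ → V} {b : Fin 3 → V} {u : V}
    (hb : dt b ≠ 0) (hbn : ∀ n, dt (bn n) ≠ 0) (h1 : Tendsto bn atTop (𝓝 b))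
    (h2 : Tendsto un atTop (𝓝 u)) (h3 : ∀ᶠ n in atTop, un n ∈ lat (bn n)) : u ∈ lat b := by
  have h5 : ∀ i, ∃ z : ℤ, (z : ℝ) = coord b u i := by
    intro i
    have h6 := tendsto_coord hb h1 h2 i
    have h7 : ∀ᶠ n in atTop, coord (bn n) (un n) i ∈ range ((↑) : ℤ → ℝ) := by
      filter_upwards [h3] with n hn
      obtain ⟨z, hz⟩ := hn
      have e : coord (bn n) (∑ i, (z i : ℝ) • bn n i) = fun i => (z i : ℝ) :=
        coord_sum (hbn n) (fun i => (z i : ℝ))
      rw [← hz] at e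
      exact ⟨z i, (congrFun e i).symm⟩
    exact Int.isClosedEmbedding_coe_real.isClosed_range.mem_of_tendsto h6 h7
  choose z hz using h5
  refine ⟨z, ?_⟩
  simp only [hz]
  exact (sum_coord hb u).symm

/-- reduction modulo the lattice -/
theorem mod_lat {b : Fin 3 → V} (hb : dt b ≠ 0) {C : ℝ} (hC : ∀ i, ‖b i‖ ≤ C) (v : V) :
    ∃ u ∈ lat b, ‖v - u‖ ≤ 3 * C := by
  obtain ⟨a, ha⟩ : ∃ a : V, v = ∑ i, a i • b i := ⟨_, (sum_coord hb v).symm⟩
  refine ⟨∑ i, ((⌊a i⌋ : ℤ) : ℝ) • b i, ⟨fun i => ⌊a i⌋, rfl⟩, ?_⟩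
  have e : v - ∑ i, ((⌊a i⌋ : ℤ) : ℝ) • b i = ∑ i, Int.fract (a i) • b i := by
    rw [ha, ← Finset.sum_sub_distrib]
    refine Finset.sum_congr rfl fun i _ => ?_
    rw [← sub_smul]
    rfl
  rw [e]
  refine (norm_sum_le _ _).trans ?_
  have h1 : ∀ i ∈ Finset.univ, ‖Int.fract (a i) • b i‖ ≤ C := by
    intro i _
    rw [norm_smul, Real.norm_eq_abs, abs_of_nonneg (Int.fract_nonneg _)]
    have h2 := Int.fract_lt_one (a i)
    have h3 := Int.fract_nonneg (a i)
    have h4 := hC i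
    have h5 := norm_nonneg (b i)
    nlinarith
  refine (Finset.sum_le_sum h1).trans (le_of_eq ?_)
  simp

theorem fam_congr {s : Bool} {v v' : V} {b b' : Fin 3 → V} (h1 : lat b' = lat b)
    (h2 : v - v' ∈ lat b) : fam s v' b' = fam s v b := by
  have h3 : v' - v ∈ lat b := by
    have := lat_sub (pack_zero_mem b) h2
    rwa [zero_sub, neg_sub] at this
  have key : ∀ {x : V}, x ∈ lat b → ∀ {y : V}, y ∈ lat b → x + y ∈ lat b := by
    intro x hx y hy
    have := lat_sub hx (lat_sub (pack_zero_mem b) hy)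
    rwa [zero_sub, sub_neg_eq_add] at this
  ext p
  unfold fam
  simp only [mem_ofPred_eq, h1]
  constructor
  · rintro (h | ⟨h, h', u, hu, e⟩)
    · exact Or.inl h
    · refine Or.inr ⟨h, h', (v' - v) + u, key h3 hu, ?_⟩
      rw [e]; abel
  · rintro (h | ⟨h, h', u, hu, e⟩)
    · exact Or.inl h
    · refine Or.inr ⟨h, h', (v - v') + u, key h2 hu, ?_⟩
      rw [e]; abel

end Pool.Agent.J4.H72.PK
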