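import Pool.Agent.J4.H72.PK.Vert

/-! The number of the neighbours, and of the vertices. -/

set_option autoImplicit false

namespace Pool.Agent.J4.H72.PK

open MeasureTheory Set Filter Topology
open scoped Pointwise ENNReal
open Pool.Agent.TH219.DL Pool.Agent.H349R2.Tet

attribute [local irreducible] dt

theorem overlap_zero {s : Bool} {K : Set V} {v : V} {b : Fin 3 → V} (bK : Bd K)
    (hpk : IsPack K (fam s v b)) {u : V} (hu : u ∈ lat b) {k₁ k₂ : V} (h1 : k₁ ∈ K) (h2 : k₂ ∈ K)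
    {θ : ℝ} (h0 : 0 ≤ θ) (hθ : θ < 1) (e : u = θ • (k₁ - k₂)) : u = 0 := by
  by_contra hu0
  have h3 := isPack_fam.1 hpk (false, u) (Or.inl ⟨rfl, hu⟩) (fun e => hu0 (congrArg Prod.snd e))
  rw [interior_mem, Set.disjoint_left] at h3
  obtain ⟨k, hk⟩ := bK.int
  have h4 : ∀ z ∈ K, (1 - θ) • k + θ • z ∈ interior K := fun z hz =>
    bK.cvx.combo_interior_self_mem_interior hk hz (by linarith) h0 (by ring)
  refine h3 (h4 _ h1) ?_
  rw [mem_iff_false]
  have e2 : (1 - θ) • k + θ • k₁ - u = (1 - θ) • k + θ • k₂ := by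
    rw [e]
    module
  rw [e2]
  exact h4 _ h2

/-- the members which meet `K` -/
def Nb (K : Set V) (S : Set (Bool × V)) : Set (Bool × V) :=
  {q ∈ S | q ≠ (false, 0) ∧ (K ∩ mem K q).Nonempty}

theorem exists_coef (s : Bool) (v : V) (b : Fin 3 → V) : ∃ ζ : Bool × V → Fin 3 → ℤ,
    ∀ q ∈ fam s v b, q.2 = (if q.1 = true then v else 0) + ∑ i, (ζ q i : ℝ) • b i := by
  classical
  have h : ∀ q : Bool × V, ∃ z : Fin 3 → ℤ, q ∈ fam s v b →
      q.2 = (if q.1 = true then v else 0) + ∑ i, (z i : ℝ) • b i := by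
    intro q
    by_cases hq : q ∈ fam s v b
    · rcases hq with ⟨h1, z, hz⟩ | ⟨-, h1, u, ⟨z, hz⟩, hu⟩
      · exact ⟨z, fun _ => by rw [h1, if_neg (by decide), zero_add]; exact hz⟩
      · exact ⟨z, fun _ => by rw [h1, if_pos rfl, hu, hz]⟩
    · exact ⟨0, fun h => absurd h hq⟩
  choose ζ hζ using h
  exact ⟨ζ, hζ⟩

theorem third {ι : Type*} [Fintype ι] (z z' m : ι → ℤ) (b : ι → V)
    (h : ∀ i, z i - z' i = 3 * m i) :
    ∑ i, (m i : ℝ) • b i = (1 / 3 : ℝ) • (∑ i, (z i : ℝ) • b i - ∑ i, (z' i : ℝ) • b i) := by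
  rw [← Finset.sum_sub_distrib, Finset.smul_sum]
  refine Finset.sum_congr rfl fun i _ => ?_
  rw [← sub_smul, smul_smul]
  congr 1
  have := h i
  have h2 : (z i : ℝ) - z' i = 3 * m i := by exact_mod_cast this
  rw [h2]
  ring

theorem nb_card {s : Bool} {K : Set V} {v : V} {b : Fin 3 → V} (bK : Bd K)
    (hpk : IsPack K (fam s v b)) : (Nb K (fam s v b)).Finite ∧
      (Nb K (fam s v b)).ncard ≤ (if s = true then 53 else 26) := by
  classical
  obtain ⟨ζ, hζ⟩ := exists_coef s v b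
  set g : Bool × V → Bool × (Fin 3 → ZMod 3) := fun q => (q.1, fun i => (ζ q i : ZMod 3)) with hg
  have hK2 : ∀ {x y : V}, x ∈ K → y ∈ K → (1 / 2 : ℝ) • (x + y) ∈ K := by
    intro x y hx hy
    rw [smul_add]
    exact bK.cvx hx hy (by norm_num) (by norm_num) (by norm_num)
  have hinj : InjOn g (Nb K (fam s v b)) := by
    rintro ⟨σ, c⟩ ⟨hq, -, y, hy, hy'⟩ ⟨σ', c'⟩ ⟨hq', -, y', hyK, hy''⟩ hgg
    have h1 := hζ _ hq
    have h2 := hζ _ hq'
    have h3 : σ = σ' := congrArg Prod.fst hgg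
    subst h3
    have h4 : ∀ i, ((ζ (σ, c) i : ℤ) : ZMod 3) = ((ζ (σ, c') i : ℤ) : ZMod 3) := fun i =>
      congrFun (congrArg Prod.snd hgg) i
    have h5 : ∀ i, ∃ m : ℤ, ζ (σ, c) i - ζ (σ, c') i = 3 * m := by
      intro i
      have := (ZMod.intCast_eq_intCast_iff_dvd_sub _ _ 3).1 (h4 i).symm
      exact_mod_cast this
    choose m hm using h5
    have h6 := third _ _ m b hm
    have hu : ∑ i, (m i : ℝ) • b i ∈ lat b := ⟨m, rfl⟩
    have h7 : ∑ i, (m i : ℝ) • b i = (1 / 3 : ℝ) • (c - c') := by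
      rw [h6]
      have h1 : c = _ := h1
      have h2 : c' = _ := h2
      conv_rhs => rw [h1, h2]
      congr 1
      abel
    have h8 : ∑ i, (m i : ℝ) • b i = 0 := by
      cases σ
      · rw [mem_iff_false] at hy' hy''
        refine overlap_zero bK hpk hu (hK2 hy hy'') (hK2 hy' hyK) (θ := 2 / 3) (by norm_num)
          (by norm_num) ?_
        rw [h7]
        module
      · rw [mem_iff_true] at hy' hy''
        refine overlap_zero bK hpk hu (hK2 hy hy') (hK2 hyK hy'') (θ := 2 / 3) (by norm_num)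
          (by norm_num) ?_
        rw [h7]
        module
    rw [h8] at h7
    rcases smul_eq_zero.1 h7.symm with h9 | h9
    · norm_num at h9
    · rw [sub_eq_zero.1 h9]
  have hne : ∀ q ∈ Nb K (fam s v b), g q ≠ (false, 0) := by
    rintro ⟨σ, c⟩ ⟨hq, hq0, y, hy, hy'⟩ hgq
    have h3 : σ = false := congrArg Prod.fst hgq
    subst h3
    have h1 := hζ _ hq
    have h4 : ∀ i, ((ζ (false, c) i : ℤ) : ZMod 3) = ((0 : ℤ) : ZMod 3) := fun i => by
      rw [Int.cast_zero]
      exact congrFun (congrArg Prod.snd hgq) i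
    have h5 : ∀ i, ∃ m : ℤ, ζ (false, c) i - 0 = 3 * m := by
      intro i
      have := (ZMod.intCast_eq_intCast_iff_dvd_sub _ _ 3).1 (h4 i).symm
      exact_mod_cast this
    choose m hm using h5
    have h6 := third (ζ (false, c)) (fun _ => 0) m b hm
    have hu : ∑ i, (m i : ℝ) • b i ∈ lat b := ⟨m, rfl⟩
    have h7 : ∑ i, (m i : ℝ) • b i = (1 / 3 : ℝ) • c := by
      rw [h6]
      have h1 : c = _ := h1
      conv_rhs => rw [h1]
      simp
    rw [mem_iff_false] at hy'
    have h8 : ∑ i, (m i : ℝ) • b i = 0 := by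
      refine overlap_zero bK hpk hu hy hy' (θ := 1 / 3) (by norm_num) (by norm_num) ?_
      rw [h7, sub_sub_cancel]
    rw [h8] at h7
    rcases smul_eq_zero.1 h7.symm with h9 | h9
    · norm_num at h9
    · exact hq0 (by rw [h9])
  cases s
  · have hmaps : MapsTo g (Nb K (fam false v b))
        {x : Bool × (Fin 3 → ZMod 3) | x.1 = false ∧ x ≠ (false, 0)} := by
      intro q hq
      refine ⟨?_, hne q hq⟩
      rcases hq.1 with h | h
      · exact h.1
      · exact absurd h.1 (by decide)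
    refine ⟨Set.Finite.of_injOn hmaps hinj (Set.toFinite _), ?_⟩
    refine (Set.ncard_le_ncard_of_injOn g hmaps hinj (Set.toFinite _)).trans (le_of_eq ?_)
    rw [Set.ncard_eq_toFinset_card']
    decide
  · have hmaps : MapsTo g (Nb K (fam true v b))
        {x : Bool × (Fin 3 → ZMod 3) | x ≠ (false, 0)} := fun q hq => hne q hq
    refine ⟨Set.Finite.of_injOn hmaps hinj (Set.toFinite _), ?_⟩
    refine (Set.ncard_le_ncard_of_injOn g hmaps hinj (Set.toFinite _)).trans (le_of_eq ?_)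
    rw [Set.ncard_eq_toFinset_card']
    decide

/-- three different extreme points are not collinear -/
theorem ext_coll {K : Set V} {p a b : V} (hp : p ∈ K.extremePoints ℝ)
    (ha : a ∈ K.extremePoints ℝ) (hb : b ∈ K.extremePoints ℝ) (hap : a ≠ p) (hbp : b ≠ p)
    (hab : b ≠ a) (h : ¬ LinearIndependent ℝ ![a - p, b - p]) : False := by
  have h1 : ∃ τ : ℝ, τ • (a - p) = b - p := by
    by_contra hcon
    push Not at hcon
    exact h ((LinearIndependent.pair_iff' (sub_ne_zero.2 hap)).2 hcon)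
  obtain ⟨τ, hτ⟩ := h1
  have hbe : b = (1 - τ) • p + τ • a := by
    rw [← sub_eq_zero] at hτ ⊢
    rw [← neg_eq_zero, ← hτ]
    module
  rcases lt_trichotomy τ 0 with h0 | h0 | h0
  · -- p is between a and b
    have e : p = (-τ / (1 - τ)) • a + (1 / (1 - τ)) • b := by
      have h2 : 1 - τ ≠ 0 := by linarith
      rw [hbe]
      have h3 : (1 / (1 - τ)) * (1 - τ) = 1 := by field_simp
      have h4 : -τ / (1 - τ) + (1 / (1 - τ)) * τ = 0 := by field_simp; ring
      rw [smul_add, smul_smul, smul_smul, h3, one_smul]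
      have h5 : (-τ / (1 - τ)) • a + (p + ((1 / (1 - τ)) * τ) • a) =
          p + (-τ / (1 - τ) + (1 / (1 - τ)) * τ) • a := by module
      rw [h5, h4, zero_smul, add_zero]
    have h2 : 0 < 1 - τ := by linarith
    have := hp.2 ha.1 hb.1 ⟨-τ / (1 - τ), 1 / (1 - τ), div_pos (by linarith) h2,
      one_div_pos.2 h2, by field_simp; ring, e.symm⟩
    exact hap this
  · rw [h0, sub_zero, one_smul, zero_smul, add_zero] at hbe
    exact hbp hbe
  · rcases lt_trichotomy τ 1 with h1 | h1 | h1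
    · have := hb.2 hp.1 ha.1 ⟨1 - τ, τ, by linarith, h0, by ring, hbe.symm⟩
      exact hbp this.symm
    · rw [h1, sub_self, zero_smul, one_smul, zero_add] at hbe
      exact hab hbe
    · have e : a = (1 - 1 / τ) • p + (1 / τ) • b := by
        rw [hbe]
        have h3 : (1 / τ) * τ = 1 := by field_simp
        have h4 : (1 - 1 / τ) + (1 / τ) * (1 - τ) = 0 := by field_simp; ring
        rw [smul_add, smul_smul, smul_smul, h3, one_smul]
        have h5 : (1 - 1 / τ) • p + (((1 / τ) * (1 - τ)) • p + a) =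
            ((1 - 1 / τ) + (1 / τ) * (1 - τ)) • p + a := by module
        rw [h5, h4, zero_smul, zero_add]
      have h2 : 1 / τ < 1 := by rw [div_lt_one h0]; exact h1
      have := ha.2 hp.1 hb.1 ⟨1 - 1 / τ, 1 / τ, by linarith, one_div_pos.2 h0, by ring, e.symm⟩
      exact hap this.symm

theorem exposed_finite {s : Bool} {K : Set V} (hK : LocMin (dS s) K)
    (hD : {S | Dst s K S}.Finite) : {p | ∃ w, Ex K w p}.Finite := by
  have bK := body_bd hK.1
  have hsub : {p | ∃ w, Ex K w p} ⊆ ⋃ S ∈ {S | Dst s K S}, ⋃ q ∈ Nb K S,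
      {p | p ∈ K.extremePoints ℝ ∧ p ∈ mem K q ∧
        ∀ a ∈ K ∩ mem K q, ∀ b ∈ K ∩ mem K q, ¬ LinearIndependent ℝ ![a - p, b - p]} := by
    rintro p ⟨w, hw⟩
    obtain ⟨S, hS, q, hq, hq0, hpq, hthin⟩ := thin hK hw
    simp only [mem_iUnion]
    exact ⟨S, hS, q, ⟨hq, hq0, p, hw.2.1, hpq⟩, exposed_extreme bK hw, hpq, hthin⟩
  refine (hD.biUnion fun S hS => ?_).subset hsub
  obtain ⟨v, b, -, rfl, hpk, -⟩ := hS
  refine (nb_card bK hpk).1.biUnion fun q hq => ?_
  set X : Set V := {p | p ∈ K.extremePoints ℝ ∧ p ∈ mem K q ∧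
        ∀ a ∈ K ∩ mem K q, ∀ b ∈ K ∩ mem K q, ¬ LinearIndependent ℝ ![a - p, b - p]} with hX
  by_cases h1 : X.Subsingleton
  · exact h1.finite
  · rw [Set.not_subsingleton_iff] at h1
    obtain ⟨p, hp, a, ha, hpa⟩ := h1
    refine (Set.toFinite {p, a}).subset fun x hx => ?_
    by_contra hxpa
    rw [mem_insert_iff, mem_singleton_iff, not_or] at hxpa
    exact ext_coll hp.1 ha.1 hx.1 hpa.symm hxpa.1 hxpa.2
      (hp.2.2 a ⟨ha.1.1, ha.2.1⟩ x ⟨hx.1.1, hx.2.1⟩)

theorem ext_finite {s : Bool} {K : Set V} (hK : LocMin (dS s) K)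
    (hD : {S | Dst s K S}.Finite) : (K.extremePoints ℝ).Finite := by
  have bK := body_bd hK.1
  have h1 := exposed_finite hK hD
  have h2 := poly_of_exposed bK h1
  refine h1.subset fun p hp => ?_
  have h3 : p ∈ (convexHull ℝ {p | ∃ w, Ex K w p}).extremePoints ℝ := by
    rw [← h2]
    exact hp
  have h4 : p ∈ {p | ∃ w, Ex K w p} := extremePoints_convexHull_subset h3
  exact h4

theorem hull_ext {K : Set V} (bK : Bd K) (h : (K.extremePoints ℝ).Finite) :
    K = convexHull ℝ (K.extremePoints ℝ) := by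
  have hsub : {p | ∃ w, Ex K w p} ⊆ K.extremePoints ℝ := fun y hy => by
    obtain ⟨w, hw⟩ := hy
    exact exposed_extreme bK hw
  refine Subset.antisymm ?_ (convexHull_min extremePoints_subset bK.cvx)
  have h1 := poly_of_exposed bK (h.subset hsub)
  conv_lhs => rw [h1]
  exact convexHull_mono hsub

theorem count {s : Bool} {K : Set V} (hK : LocMin (dS s) K) (hD : {S | Dst s K S}.Finite)
    (hE : (K.extremePoints ℝ).Finite) :
    (K.extremePoints ℝ).ncard ≤ (if s = true then 53 else 26) * {S | Dst s K S}.ncard := by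
  classical
  have bK := body_bd hK.1
  set P : Set (Bool × V) → Set V := fun S => {p | ∃ q ∈ S, q ≠ (false, 0) ∧ K ∩ mem K q = {p}}
    with hP
  have hPc : ∀ S, Dst s K S → (P S).Finite ∧ (P S).ncard ≤ (if s = true then 53 else 26) := by
    rintro S ⟨v, b, -, rfl, hpk, -⟩
    obtain ⟨h1, h2⟩ := nb_card bK hpk
    set φ : Bool × V → V := fun q => if h : ∃ p, K ∩ mem K q = {p} then h.choose else 0 with hφ
    have hsub : P (fam s v b) ⊆ φ '' Nb K (fam s v b) := by
      rintro p ⟨q, hq, hq0, hqp⟩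
      refine ⟨q, ⟨hq, hq0, p, by rw [hqp]; rfl⟩, ?_⟩
      have hex : ∃ p, K ∩ mem K q = {p} := ⟨p, hqp⟩
      rw [hφ]
      simp only [dif_pos hex]
      exact (singleton_eq_singleton_iff.1 (hqp.symm.trans hex.choose_spec)).symm
    exact ⟨(h1.image φ).subset hsub,
      ((ncard_le_ncard hsub (h1.image φ)).trans (ncard_image_le h1)).trans h2⟩
  set f : Set (Bool × V) → Finset V := fun S => if h : (P S).Finite then h.toFinset else ∅ with hf
  have hcard : ∀ S ∈ hD.toFinset, (f S).card ≤ (if s = true then 53 else 26) := by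
    intro S hS
    rw [Set.Finite.mem_toFinset] at hS
    obtain ⟨h1, h2⟩ := hPc S hS
    rw [hf]
    simp only [dif_pos h1]
    rwa [← ncard_eq_toFinset_card _ h1]
  have hsub : hE.toFinset ⊆ hD.toFinset.biUnion f := by
    intro p hp
    rw [Set.Finite.mem_toFinset] at hp
    obtain ⟨S, hS, q, hq, hq0, hqp⟩ := vert hK hE hp
    rw [Finset.mem_biUnion]
    refine ⟨S, by rw [Set.Finite.mem_toFinset]; exact hS, ?_⟩
    have h1 := (hPc S hS).1
    rw [hf]
    simp only [dif_pos h1]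
    rw [Set.Finite.mem_toFinset]
    exact ⟨q, hq, hq0, hqp⟩
  rw [ncard_eq_toFinset_card _ hE, ncard_eq_toFinset_card _ hD, mul_comm]
  exact (Finset.card_le_card hsub).trans (Finset.card_biUnion_le_card_mul _ _ _ hcard)

end Pool.Agent.J4.H72.PK
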