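import Pool.Agent.J4.H72.PK.Lim

/-! Contact points of local minimisers: the limit. -/

set_option autoImplicit false

namespace Pool.Agent.J4.H72.PK

open MeasureTheory Set Filter Topology
open scoped Pointwise ENNReal
open Pool.Agent.TH219.DL Pool.Agent.H349R2.Tet

attribute [local irreducible] dt

theorem fam_lat {s : Bool} {v : V} {b : Fin 3 → V} {q : Bool × V} (hq : q ∈ fam s v b) :
    (q.1 = false → q.2 ∈ lat b) ∧ (q.1 = true → s = true ∧ q.2 - v ∈ lat b) := by
  constructor
  · intro h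
    rcases hq with h1 | h1
    · exact h1.2
    · rw [h1.2.1] at h
      exact absurd h (by decide)
  · intro h
    rcases hq with h1 | ⟨hs, -, u, hu, e⟩
    · rw [h1.1] at h
      exact absurd h (by decide)
    · refine ⟨hs, ?_⟩
      rw [e, add_sub_cancel_left]
      exact hu

/-- translates with varying centre -/
theorem pack_lim {s : Bool} {K : Set V} (bK : Bd K) {w : V} (hw : w ≠ 0) {t : ℕ → ℝ}
    (htt : Tendsto t atTop (𝓝 0)) {vn : ℕ → V} {bn : ℕ → Fin 3 → V} {v : V} {b : Fin 3 → V}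
    (hv : Tendsto vn atTop (𝓝 v)) (hb : Tendsto bn atTop (𝓝 b))
    (hpk : ∀ n, IsPack (lo K w (hs K w - t n)) (fam s (vn n) (bn n))) :
    IsPack K (fam s v b) := by
  rw [isPack_fam]
  rintro ⟨σ, d⟩ hr hr0
  rw [interior_mem]
  refine Set.disjoint_left.2 fun z hz1 hz2 => ?_
  have hsum : ∀ zz : Fin 3 → ℤ, Tendsto (fun n => ∑ i, (zz i : ℝ) • bn n i) atTop
      (𝓝 (∑ i, (zz i : ℝ) • b i)) := fun zz =>
    tendsto_finsetSum _ fun i _ => (tendsto_pi_nhds.1 hb i).const_smul _
  obtain ⟨dn, hdn, hdf⟩ : ∃ dn : ℕ → V, Tendsto dn atTop (𝓝 d) ∧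
      ∀ n, (σ, dn n) ∈ fam s (vn n) (bn n) := by
    rcases hr with ⟨h1, zz, hd⟩ | ⟨hs, h1, u, ⟨zz, hu⟩, hd⟩
    · have hd : d = _ := hd
      rw [hd]
      exact ⟨_, hsum zz, fun n => Or.inl ⟨h1, zz, rfl⟩⟩
    · have hd : d = v + u := hd
      rw [hd, hu]
      exact ⟨_, hv.add (hsum zz), fun n => Or.inr ⟨hs, h1, _, ⟨zz, rfl⟩, rfl⟩⟩
  have e2 : ∀ᶠ n in atTop, ((σ, dn n) : Bool × V) ≠ (false, 0) := by
    cases σ
    · have hd0 : d ≠ 0 := fun h => hr0 (by rw [h])
      filter_upwards [hdn.eventually_ne hd0] with n hn h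
      exact hn (congrArg Prod.snd h)
    · exact Eventually.of_forall fun n h => by
        have h1 : true = false := congrArg Prod.fst h
        exact absurd h1 (by decide)
  have key : ∀ {xn : ℕ → V} {x : V}, Tendsto xn atTop (𝓝 x) → x ∈ interior K →
      ∀ᶠ n in atTop, xn n ∈ interior (lo K w (hs K w - t n)) := by
    intro xn x hx hxK
    have h1 : ∀ᶠ n in atTop, xn n ∈ interior K := hx.eventually (isOpen_interior.mem_nhds hxK)
    have h2 : Tendsto (fun n => ell w (xn n) + t n) atTop (𝓝 (ell w x + 0)) :=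
      (((continuous_ell w).tendsto x).comp hx).add htt
    rw [add_zero] at h2
    have h3 := h2.eventually_lt_const (int_lt bK hw hxK)
    filter_upwards [h1, h3] with n a1 a2
    exact lo_int a1 (by linarith)
  have e3 := key (tendsto_const_nhds (x := z)) hz1
  have e4 : ∀ᶠ n in atTop, z ∈ mem (interior (lo K w (hs K w - t n))) (σ, dn n) := by
    cases σ
    · rw [mem_iff_false] at hz2
      filter_upwards [key (tendsto_const_nhds.sub hdn) hz2] with n hn
      exact mem_iff_false.2 hn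
    · rw [mem_iff_true] at hz2
      filter_upwards [key (hdn.sub tendsto_const_nhds) hz2] with n hn
      exact mem_iff_true.2 hn
  obtain ⟨n, a2, a3, a4⟩ := (e2.and (e3.and e4)).exists
  have := isPack_fam.1 (hpk n) (σ, dn n) (hdf n) a2
  rw [interior_mem, Set.disjoint_left] at this
  exact this a3 a4

theorem contact {s : Bool} {K : Set V} (hK : LocMin (dS s) K) {w : V} (hw : w ≠ 0) :
    ∃ (v : V) (b : Fin 3 → V), dt b ≠ 0 ∧ IsPack K (fam s v b) ∧
      den K (fam s v b) = dS s K ∧ ∃ q ∈ fam s v b, q ≠ (false, 0) ∧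
        ∃ y ∈ K, ell w y = hs K w ∧ y ∈ mem K q := by
  have bK := body_bd hK.1
  obtain ⟨hδ, hδ0⟩ := dS_ofReal bK s
  obtain ⟨ρ, C, V₀, hρ, hV₀, t, htp, htt, h⟩ := exists_stp hK hw
  choose v b q y hst using h
  obtain ⟨R, hR⟩ := bK.cpt.isBounded.exists_norm_le
  have hC0 : 0 ≤ C := (norm_nonneg _).trans ((hst 0).hb 0)
  have hR0 : 0 ≤ R := (norm_nonneg _).trans (hR _ (hst 0).hy)
  have hqb : ∀ n, ‖(q n).2‖ ≤ 2 * R := by
    intro n
    have h1 := hR _ (hst n).hy
    have h2 := (hst n).hyq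
    rcases hq : q n with ⟨σ, c⟩
    rw [hq] at h2
    cases σ
    · rw [mem_iff_false] at h2
      have h3 := hR _ h2
      have h4 := norm_sub_le (y n) (y n - c)
      rw [sub_sub_cancel] at h4
      show ‖c‖ ≤ 2 * R
      linarith
    · rw [mem_iff_true] at h2
      have h3 := hR _ h2
      have h4 := norm_add_le (c - y n) (y n)
      rw [sub_add_cancel] at h4
      show ‖c‖ ≤ 2 * R
      linarith
  set B := 3 * C + 2 * R with hB
  have hmem : ∀ n, (((q n).1, (v n, b n, (q n).2, y n)) :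
      Bool × (V × (Fin 3 → V) × V × V)) ∈
      (univ : Set Bool) ×ˢ Metric.closedBall (0 : V × (Fin 3 → V) × V × V) B := by
    intro n
    refine ⟨trivial, ?_⟩
    rw [mem_closedBall_zero_iff, norm_prod_le_iff, norm_prod_le_iff, norm_prod_le_iff]
    refine ⟨?_, ?_, ?_, ?_⟩
    · show ‖v n‖ ≤ B
      have := (hst n).hv
      linarith
    · show ‖b n‖ ≤ B
      rw [pi_norm_le_iff_of_nonneg (by positivity)]
      intro i
      have := (hst n).hb i
      linarith
    · show ‖(q n).2‖ ≤ B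
      have := hqb n
      linarith
    · show ‖y n‖ ≤ B
      have := hR _ (hst n).hy
      linarith
  obtain ⟨⟨σ, v', b', c', y'⟩, -, φ, hφ, hlim⟩ :=
    (isCompact_univ.prod (isCompact_closedBall (0 : V × (Fin 3 → V) × V × V) B)).tendsto_subseq
      hmem
  have l1 : Tendsto (fun n => (q (φ n)).1) atTop (𝓝 σ) :=
    (continuous_fst.tendsto _).comp hlim
  have l2 := (continuous_snd.tendsto _).comp hlim
  have lv : Tendsto (fun n => v (φ n)) atTop (𝓝 v') := (continuous_fst.tendsto _).comp l2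
  have l3 := (continuous_snd.tendsto _).comp l2
  have lb : Tendsto (fun n => b (φ n)) atTop (𝓝 b') := (continuous_fst.tendsto _).comp l3
  have l4 := (continuous_snd.tendsto _).comp l3
  have lc : Tendsto (fun n => (q (φ n)).2) atTop (𝓝 c') := (continuous_fst.tendsto _).comp l4
  have ly : Tendsto (fun n => y (φ n)) atTop (𝓝 y') := (continuous_snd.tendsto _).comp l4
  have lt : Tendsto (fun n => t (φ n)) atTop (𝓝 0) := htt.comp hφ.tendsto_atTop
  have hσ : ∀ᶠ n in atTop, (q (φ n)).1 = σ :=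
    l1.eventually (IsOpen.mem_nhds (isOpen_discrete {σ}) rfl)
  have ldt : Tendsto (fun n => |dt (b (φ n))|) atTop (𝓝 |dt b'|) :=
    ((continuous_dt.tendsto b').comp lb).abs
  have hlow : V₀ ≤ |dt b'| := ge_of_tendsto' ldt fun n => (hst (φ n)).low
  have hup := le_of_tendsto' ldt fun n => (hst (φ n)).up
  have hdt0 : 0 < |dt b'| := hV₀.trans_le hlow
  have hdt : dt b' ≠ 0 := abs_pos.1 hdt0
  have hpk : IsPack K (fam s v' b') := pack_lim bK hw lt lv lb fun n => (hst (φ n)).pk
  have hbn : ∀ n, dt (b (φ n)) ≠ 0 := fun n => (hst (φ n)).dt0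
  refine ⟨v', b', hdt, hpk, ?_, (σ, c'), ?_, ?_, y', ?_, ?_, ?_⟩
  · refine le_antisymm (le_dS hdt hpk) ?_
    rw [den_fam bK hdt hpk, hδ]
    apply ENNReal.ofReal_le_ofReal
    rw [le_div_iff₀ hδ0] at hup
    rw [le_div_iff₀ hdt0]
    linarith
  · cases σ
    · refine Or.inl ⟨rfl, lat_lim hdt hbn lb lc ?_⟩
      filter_upwards [hσ] with n hn
      exact (fam_lat (hst (φ n)).hq).1 hn
    · obtain ⟨n, hn⟩ := hσ.exists
      refine Or.inr ⟨((fam_lat (hst (φ n)).hq).2 hn).1, rfl, c' - v', ?_, ?_⟩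
      · refine lat_lim hdt hbn lb (lc.sub lv) ?_
        filter_upwards [hσ] with n hn
        exact ((fam_lat (hst (φ n)).hq).2 hn).2
      · show c' = v' + (c' - v')
        abel
  · intro h
    rw [Prod.mk.injEq] at h
    obtain ⟨rfl, rfl⟩ := h
    have hell : Continuous fun x : V => ell x x := by
      unfold ell
      fun_prop
    have h1 : Tendsto (fun n => ell (q (φ n)).2 (q (φ n)).2) atTop (𝓝 (ell (0 : V) 0)) :=
      (hell.tendsto 0).comp lc
    have h2 : ∀ᶠ n in atTop, ρ ^ 2 ≤ ell (q (φ n)).2 (q (φ n)).2 := by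
      filter_upwards [hσ] with n hn
      refine (hst (φ n)).min _ ((fam_lat (hst (φ n)).hq).1 hn) fun h0 => ?_
      exact (hst (φ n)).hq0 (Prod.ext hn h0)
    have h3 := ge_of_tendsto h1 h2
    have h4 : ell (0 : V) 0 = 0 := by simp [ell]
    rw [h4] at h3
    have : 0 < ρ ^ 2 := by positivity
    linarith
  · exact bK.cpt.isClosed.mem_of_tendsto ly (Eventually.of_forall fun n => (hst (φ n)).hy)
  · refine le_antisymm (le_hs bK.cpt w ?_) ?_
    · exact bK.cpt.isClosed.mem_of_tendsto ly (Eventually.of_forall fun n => (hst (φ n)).hy)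
    · have h1 : Tendsto (fun n => hs K w - t (φ n)) atTop (𝓝 (hs K w - 0)) :=
        tendsto_const_nhds.sub lt
      rw [sub_zero] at h1
      exact le_of_tendsto_of_tendsto' h1 (((continuous_ell w).tendsto y').comp ly)
        fun n => (hst (φ n)).hyt
  · cases σ
    · rw [mem_iff_false]
      refine bK.cpt.isClosed.mem_of_tendsto (ly.sub lc) ?_
      filter_upwards [hσ] with n hn
      have h1 := (hst (φ n)).hyq
      have h2 : q (φ n) = (false, (q (φ n)).2) := Prod.ext hn rfl
      rw [h2, mem_iff_false] at h1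
      exact h1
    · rw [mem_iff_true]
      refine bK.cpt.isClosed.mem_of_tendsto (lc.sub ly) ?_
      filter_upwards [hσ] with n hn
      have h1 := (hst (φ n)).hyq
      have h2 : q (φ n) = (true, (q (φ n)).2) := Prod.ext hn rfl
      rw [h2, mem_iff_true] at h1
      exact h1

end Pool.Agent.J4.H72.PK
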