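import Pool.Agent.J4.H72.PK.EqBM
import Pool.Agent.TH219.DL.TUp

/-! Densities of packings by translates of two bodies with the same difference body. -/

set_option autoImplicit false

namespace Pool.Agent.J4.H72.PK

open MeasureTheory Set Filter Topology
open scoped Pointwise ENNReal
open Pool.Agent.TH219.DL Pool.Agent.H349R2.Tet

theorem Bd.body {K : Set V} (h : Bd K) : Body K := ⟨h.cpt, h.cvx, h.int⟩
theorem body_bd {K : Set V} (h : Body K) : Bd K := ⟨h.1, h.2.1, h.2.2⟩

/-- a point in the interior of the difference body is a difference of interior points -/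
theorem diff_int {K : Set V} (hK : Bd K) {z : V} (hz : z ∈ interior (K - K)) :
    ∃ a ∈ interior K, ∃ b ∈ interior K, a - b = z := by
  obtain ⟨k, hk⟩ := hK.int
  have h1 : Tendsto (fun ε : ℝ => (1 + ε) • z) (𝓝[>] 0) (𝓝 z) := by
    have : Tendsto (fun ε : ℝ => (1 + ε) • z) (𝓝 0) (𝓝 ((1 + 0 : ℝ) • z)) :=
      ((continuous_const.add continuous_id).smul continuous_const).tendsto 0
    rw [add_zero, one_smul] at this
    exact this.mono_left nhdsWithin_le_nhds
  have h2 : ∀ᶠ ε : ℝ in 𝓝[>] 0, (1 + ε) • z ∈ K - K :=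
    h1.eventually (mem_interior_iff_mem_nhds.1 hz)
  obtain ⟨ε, hε, hε0⟩ := (h2.and self_mem_nhdsWithin).exists
  have hε0 : 0 < ε := hε0
  obtain ⟨x, hx, y, hy, hxy⟩ := Set.mem_sub.1 hε
  have h3 : (0 : ℝ) < 1 + ε := by linarith
  refine ⟨(1 / (1 + ε)) • x + (ε / (1 + ε)) • k, ?_, (1 / (1 + ε)) • y + (ε / (1 + ε)) • k, ?_, ?_⟩
  · exact hK.cvx.combo_self_interior_mem_interior hx hk (by positivity) (by positivity)
      (by field_simp)
  · exact hK.cvx.combo_self_interior_mem_interior hy hk (by positivity) (by positivity)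
      (by field_simp)
  · have : (1 / (1 + ε)) • x + (ε / (1 + ε)) • k - ((1 / (1 + ε)) • y + (ε / (1 + ε)) • k) =
        (1 / (1 + ε)) • (x - y) := by
      rw [smul_sub]; abel
    rw [this, hxy, smul_smul, one_div_mul_cancel h3.ne', one_smul]

theorem pack_trans {K₁ K₂ : Set V} (h1 : Bd K₁) (hD : K₁ - K₁ = K₂ - K₂)
    {S : Set (Bool × V)} (hS : ∀ p ∈ S, p.1 = false) (h : IsPack K₁ S) : IsPack K₂ S := by
  rintro ⟨s, c⟩ hp ⟨s', c'⟩ hq hpq
  have e1 : s = false := hS _ hp
  have e2 : s' = false := hS _ hq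
  subst e1 e2
  rw [interior_mem, interior_mem, Set.disjoint_left]
  rintro X ⟨x, hx, hxX⟩ ⟨y, hy, hyX⟩
  simp only [Bool.false_eq_true, if_false] at hxX hyX
  have h3 : x - y ∈ interior (K₁ - K₁) := by
    rw [hD]
    exact subset_interior_sub (Set.sub_mem_sub hx hy)
  obtain ⟨a, ha, b, hb, hab⟩ := diff_int h1 h3
  have h4 := h (false, c) hp (false, c') hq hpq
  rw [interior_mem, interior_mem, Set.disjoint_left] at h4
  refine h4 (a := a + c) ⟨a, ha, by simp⟩ ⟨b, hb, ?_⟩
  simp only [Bool.false_eq_true, if_false]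
  have e3 : x - y = c' - c := by
    rw [← hyX] at hxX
    have : x = y + c' - c := by rw [← hxX]; abel
    rw [this]; abel
  rw [e3] at hab
  have : a = b + (c' - c) := by rw [← hab]; abel
  rw [this]; abel

theorem exists_bl {K : Set V} (h : IsCompact K) : ∃ R, 0 < R ∧ K ⊆ Bl R := by
  obtain ⟨R, hR⟩ := h.isBounded.subset_closedBall (0 : V)
  refine ⟨2 * max R 1, by positivity, hR.trans ?_⟩
  exact (Metric.closedBall_subset_closedBall (le_max_left _ _)).trans
    (ball_subset_bl _ (by positivity))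

theorem bl_mono {r s : ℝ} (hr : 0 ≤ r) (h : r ≤ s) : Bl r ⊆ Bl s := by
  intro x hx
  have : x 0 ^ 2 + x 1 ^ 2 + x 2 ^ 2 ≤ r ^ 2 := hx
  show x 0 ^ 2 + x 1 ^ 2 + x 2 ^ 2 ≤ s ^ 2
  nlinarith

theorem vol_mem (K : Set V) (c : V) : volume (mem K (false, c)) = volume K := by
  rw [mem_false]
  unfold tr
  rw [image_add_right, measure_preimage_add_right]

theorem vbl_pos {r : ℝ} (hr : 0 < r) : volume (Bl r) ≠ 0 := by
  rw [vol_bl hr]
  exact mul_ne_zero (by rw [ne_eq, ENNReal.ofReal_eq_zero, not_le]; positivity)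
    vol_bl_one_pos.ne'

theorem vbl_fin {r : ℝ} (hr : 0 < r) : volume (Bl r) ≠ ∞ := by
  rw [vol_bl hr]
  exact ENNReal.mul_ne_top ENNReal.ofReal_ne_top vol_bl_one_lt_top.ne

/-- the densities of the two families are proportional to the volumes -/
theorem den_ratio {K₁ K₂ : Set V} (h1 : IsCompact K₁) (h2 : IsCompact K₂)
    (h0 : volume K₁ ≠ 0) {S : Set (Bool × V)} (hS : ∀ p ∈ S, p.1 = false) :
    volume K₂ * den K₁ S ≤ volume K₁ * den K₂ S := by
  obtain ⟨R₁, hR₁, hb₁⟩ := exists_bl h1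
  obtain ⟨R₂, hR₂, hb₂⟩ := exists_bl h2
  set R := R₁ + R₂ with hR
  have hR0 : 0 < R := by positivity
  -- termwise
  have hterm : ∀ (r : ℝ), 0 < r → ∀ p : S, volume K₂ * volume (mem K₁ p.1 ∩ Bl r) ≤
      volume K₁ * volume (mem K₂ p.1 ∩ Bl (r + R)) := by
    rintro r hr ⟨⟨s, c⟩, hp⟩
    have e1 : s = false := hS _ hp
    subst e1
    rcases (mem K₁ (false, c) ∩ Bl r).eq_empty_or_nonempty with h | ⟨X, ⟨x, hx, hxX⟩, hX⟩
    · rw [h, measure_empty, mul_zero]; exact zero_le
    · have hsub : mem K₂ (false, c) ⊆ Bl (r + R) := by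
        rintro _ ⟨y, hy, rfl⟩
        simp only [Bool.false_eq_true, if_false] at hxX ⊢
        have h3 : y + -x ∈ Bl (R₂ + R₁) := bl_add hR₂.le hR₁.le (hb₂ hy) (bl_neg (hb₁ hx))
        have h4 := bl_add hr.le (by positivity) hX h3
        rw [← hxX] at h4
        have e2 : x + c + (y + -x) = y + c := by abel
        rw [e2] at h4
        rw [hR, add_comm R₁ R₂]
        exact h4
      rw [inter_eq_left.2 hsub, vol_mem, mul_comm]
      exact mul_le_mul' ((measure_mono inter_subset_left).trans (vol_mem K₁ c).le) le_rfl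
  have hsum : ∀ r : ℝ, 0 < r → volume K₂ * ∑' p : S, volume (mem K₁ p.1 ∩ Bl r) ≤
      volume K₁ * ∑' p : S, volume (mem K₂ p.1 ∩ Bl (r + R)) := by
    intro r hr
    rw [← ENNReal.tsum_mul_left, ← ENNReal.tsum_mul_left]
    exact ENNReal.tsum_le_tsum (hterm r hr)
  -- the limits
  have hup : Tendsto (fun r : ℝ => volume K₁ * ENNReal.ofReal (((r + R) / r) ^ 3)) atTop
      (𝓝 (volume K₁)) := by
    have h1 : Tendsto (fun r : ℝ => ((r + R) / r) ^ 3) atTop (𝓝 1) := by
      have h2 : Tendsto (fun r : ℝ => (1 + R * r⁻¹) ^ 3) atTop (𝓝 ((1 + R * 0) ^ 3)) :=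
        ((tendsto_const_nhds.add (tendsto_const_nhds.mul tendsto_inv_atTop_zero)).pow 3)
      simp only [mul_zero, add_zero, one_pow] at h2
      refine h2.congr' ?_
      filter_upwards [eventually_gt_atTop 0] with r hr
      congr 1
      field_simp
    have h3 := ENNReal.Tendsto.const_mul (a := volume K₁) (ENNReal.tendsto_ofReal h1)
      (Or.inl (by simp))
    simpa using h3
  set f₁ : ℝ → ℝ≥0∞ := fun r => (∑' p : S, volume (mem K₁ p.1 ∩ Bl r)) / volume (Bl r) with hf₁
  set f₂ : ℝ → ℝ≥0∞ := fun r => (∑' p : S, volume (mem K₂ p.1 ∩ Bl r)) / volume (Bl r) with hf₂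
  have e1 : den K₁ S = limsup f₁ atTop := rfl
  have e2 : den K₂ S = limsup f₂ atTop := rfl
  have hfin1 : volume K₁ ≠ ∞ := h1.measure_lt_top.ne
  have hfin2 : volume K₂ ≠ ∞ := h2.measure_lt_top.ne
  rw [e1, e2, ← ENNReal.limsup_const_mul_of_ne_top hfin2]
  have hle : ∀ᶠ r : ℝ in atTop, volume K₂ * f₁ r ≤
      (volume K₁ * ENNReal.ofReal (((r + R) / r) ^ 3)) * f₂ (r + R) := by
    filter_upwards [eventually_gt_atTop 0] with r hr
    have h3 := hsum r hr
    have hr' : 0 < r + R := by linarith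
    rw [hf₁, hf₂]
    simp only
    rw [← mul_div_assoc, ENNReal.div_le_iff (vbl_pos hr) (vbl_fin hr)]
    refine h3.trans (le_of_eq ?_)
    have e : volume (Bl (r + R)) = ENNReal.ofReal (((r + R) / r) ^ 3) * volume (Bl r) := by
      rw [vol_bl hr, vol_bl hr', ← mul_assoc, ← ENNReal.ofReal_mul (by positivity)]
      congr 2
      field_simp
    have h4 : (∑' p : S, volume (mem K₂ p.1 ∩ Bl (r + R))) / volume (Bl (r + R)) *
        volume (Bl (r + R)) = ∑' p : S, volume (mem K₂ p.1 ∩ Bl (r + R)) :=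
      ENNReal.div_mul_cancel (vbl_pos hr') (vbl_fin hr')
    conv_lhs => rw [← h4]
    rw [e]
    ring
  refine (limsup_le_limsup hle Filter.isCobounded_le_of_bot Filter.isBounded_le_of_top).trans ?_
  have h3 : limsup (fun r : ℝ => volume K₁ * ENNReal.ofReal (((r + R) / r) ^ 3)) atTop =
      volume K₁ := hup.limsup_eq
  have h4 : limsup (fun r : ℝ => f₂ (r + R)) atTop ≤ limsup f₂ atTop := by
    have h5 : limsup (fun r : ℝ => f₂ (r + R)) atTop = limsup f₂ (map (fun r => r + R) atTop) :=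
      rfl
    rw [h5]
    exact limsup_le_limsup_of_le (tendsto_atTop_add_const_right atTop R tendsto_id)
  have h5 := ENNReal.limsup_mul_le' (f := (atTop : Filter ℝ))
    (u := fun r : ℝ => volume K₁ * ENNReal.ofReal (((r + R) / r) ^ 3))
    (v := fun r : ℝ => f₂ (r + R)) (by rw [h3]; exact Or.inl h0) (by rw [h3]; exact Or.inl hfin1)
  refine h5.trans ?_
  rw [h3]
  gcongr

theorem dT_ratio {K₁ K₂ : Set V} (h1 : Bd K₁) (h2 : Bd K₂) (hD : K₁ - K₁ = K₂ - K₂) :
    volume K₂ * dT K₁ ≤ volume K₁ * dT K₂ := by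
  conv_lhs => rw [dT]
  rw [ENNReal.mul_iSup]
  refine iSup_le fun S => ?_
  rw [ENNReal.mul_iSup]
  refine iSup_le fun hS => (den_ratio h1.cpt h2.cpt h1.pos.ne' hS.1).trans ?_
  gcongr
  exact le_iSup₂_of_le S ⟨hS.1, pack_trans h1 hD hS.1 hS.2⟩ le_rfl

theorem dL_ratio {K₁ K₂ : Set V} (h1 : Bd K₁) (h2 : Bd K₂) (hD : K₁ - K₁ = K₂ - K₂) :
    volume K₂ * dL K₁ ≤ volume K₁ * dL K₂ := by
  have hf : ∀ b : Fin 3 → V, ∀ p ∈ famL b, p.1 = false := fun b p hp => hp.1
  conv_lhs => rw [dL]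
  rw [ENNReal.mul_iSup]
  refine iSup_le fun b => ?_
  rw [ENNReal.mul_iSup]
  refine iSup_le fun hb => (den_ratio h1.cpt h2.cpt h1.pos.ne' (hf b)).trans ?_
  gcongr
  exact le_iSup₂_of_le b ⟨hb.1, pack_trans h1 hD (hf b) hb.2⟩ le_rfl

/-! ### bounds -/

theorem den_le_one {K : Set V} (hK : Bd K) {S : Set (Bool × V)} (hS : ∀ p ∈ S, p.1 = false)
    (h : IsPack K S) : den K S ≤ 1 := by
  unfold den
  refine limsup_le_of_le (by isBoundedDefault) ?_
  filter_upwards [eventually_gt_atTop 0] with r hr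
  rw [ENNReal.div_le_iff (vbl_pos hr) (vbl_fin hr), one_mul]
  have hi : ∀ p : S, volume (mem K p.1 ∩ Bl r) = volume (interior (mem K p.1) ∩ Bl r) := by
    rintro ⟨⟨s, c⟩, hp⟩
    have e1 : s = false := hS _ hp
    subst e1
    apply le_antisymm _ (measure_mono (inter_subset_inter_left _ interior_subset))
    have hc : Convex ℝ (mem K (false, c)) := by
      have e2 : mem K (false, c) = (fun x => c + x) '' K := by
        rw [mem_false]
        unfold tr
        exact image_congr fun x _ => add_comm _ _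
      rw [e2]
      exact hK.cvx.translate c
    have h0 : volume (frontier (mem K (false, c))) = 0 := hc.addHaar_frontier volume
    calc volume (mem K (false, c) ∩ Bl r) ≤
        volume ((interior (mem K (false, c)) ∩ Bl r) ∪ frontier (mem K (false, c))) := by
          apply measure_mono
          rintro x ⟨hx1, hx2⟩
          by_cases hx3 : x ∈ interior (mem K (false, c))
          · exact Or.inl ⟨hx3, hx2⟩
          · exact Or.inr ⟨subset_closure hx1, hx3⟩
      _ ≤ volume (interior (mem K (false, c)) ∩ Bl r) + volume (frontier (mem K (false, c))) :=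
        measure_union_le _ _
      _ = _ := by rw [h0, add_zero]
  rw [tsum_congr hi]
  refine (tsum_meas_le_meas_iUnion_of_disjoint _ (fun p => ?_) (fun p q hpq => ?_)).trans
    (measure_mono (iUnion_subset fun p => inter_subset_right))
  · exact isOpen_interior.measurableSet.inter (bl_measurable r)
  · exact (h p.1 p.2 q.1 q.2 (fun e => hpq (Subtype.ext e))).mono inter_subset_left
      inter_subset_left

theorem dT_le_one {K : Set V} (hK : Bd K) : dT K ≤ 1 := by
  unfold dT
  exact iSup₂_le fun S hS => den_le_one hK hS.1 hS.2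

theorem dL_pos {K : Set V} (hK : Bd K) : dL K ≠ 0 := by
  obtain ⟨R, hR0, hR⟩ : ∃ R : ℝ, 0 < R ∧ ∀ x ∈ K, ∀ i, |x i| < R := by
    obtain ⟨R, hR⟩ := hK.cpt.isBounded.subset_closedBall (0 : V)
    refine ⟨|R| + 1, by positivity, fun x hx i => ?_⟩
    have h1 := hR hx
    rw [mem_closedBall_zero_iff] at h1
    have h2 := norm_le_pi_norm x i
    rw [Real.norm_eq_abs] at h2
    have := le_abs_self R
    linarith
  set b : Fin 3 → V := fun i => Pi.single i (2 * R) with hb
  have hbb : b = fun i => (2 * R) • (Pi.single i (1 : ℝ) : V) := by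
    funext i
    rw [hb]
    simp only
    rw [← Pi.single_smul, smul_eq_mul, mul_one]
  have hli : LinearIndependent ℝ b := by
    rw [hbb]
    have h1 := (Pi.basisFun ℝ (Fin 3)).linearIndependent
    have h2 := h1.units_smul (fun _ : Fin 3 => Units.mk0 (2 * R) (by positivity))
    convert h2 using 1
    funext i
    simp only [Pi.basisFun_apply, Pi.smul_apply', Units.smul_mk0]
  have hpk : Packs K b := by
    refine ⟨hli, ?_⟩
    rintro u ⟨z, rfl⟩ v ⟨z', rfl⟩ hne
    rw [pack_interior_tr, pack_interior_tr, Set.disjoint_left]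
    rintro X ⟨x, hx, hxX⟩ ⟨y, hy, hyX⟩
    have hzz : z ≠ z' := fun h => hne (by rw [h])
    obtain ⟨i, hi⟩ := Function.ne_iff.1 hzz
    have hs : ∀ z : Fin 3 → ℤ, (∑ j, (z j : ℝ) • b j) i = z i * (2 * R) := by
      intro z
      rw [Finset.sum_apply, Finset.sum_eq_single i]
      · simp [hb]
      · intro j _ hj
        simp [hb, Pi.single_eq_of_ne hj.symm]
      · simp
    have h1 := congrFun hxX i
    have h2 := congrFun hyX i
    simp only [Pi.add_apply, hs] at h1 h2
    have h3 := hR x (interior_subset hx) i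
    have h4 := hR y (interior_subset hy) i
    have h5 : (1 : ℝ) ≤ |(z i : ℝ) - z' i| := by
      have : (1 : ℤ) ≤ |z i - z' i| := Int.one_le_abs (sub_ne_zero.2 hi)
      exact_mod_cast this
    have h6 : y i - x i = ((z i : ℝ) - z' i) * (2 * R) := by linarith
    have h7 : |y i - x i| < 2 * R := by
      have := abs_sub (y i) (x i)
      linarith
    rw [h6, abs_mul, abs_of_pos (by positivity : (0 : ℝ) < 2 * R)] at h7
    nlinarith
  rw [dL_eq]
  unfold deltaL
  have h1 : dens K b ≤ ⨆ (b : Fin 3 → V) (_ : Packs K b), dens K b := le_iSup₂_of_le b hpk le_rfl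
  have h2 : 0 < dens K b := by
    rw [dens_eq b hli K hK.cpt]
    exact ENNReal.div_pos hK.pos.ne' ENNReal.ofReal_ne_top
  exact (h2.trans_le h1).ne'

/-- what is used of `δ_L` and `δ_T` -/
structure Good (δ : Set V → ℝ≥0∞) : Prop where
  ratio : ∀ K₁ K₂ : Set V, Body K₁ → Body K₂ → K₁ - K₁ = K₂ - K₂ →
    volume K₂ * δ K₁ ≤ volume K₁ * δ K₂
  pos : ∀ K : Set V, Body K → δ K ≠ 0
  fin : ∀ K : Set V, Body K → δ K ≠ ∞

theorem good_dL : Good dL where
  ratio _ _ h1 h2 hD := dL_ratio (body_bd h1) (body_bd h2) hD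
  pos _ h := dL_pos (body_bd h)
  fin K h := ((dL_le_dT K).trans (dT_le_one (body_bd h))).trans_lt (by simp) |>.ne

theorem good_dT : Good dT where
  ratio _ _ h1 h2 hD := dT_ratio (body_bd h1) (body_bd h2) hD
  pos K h := ((pos_iff_ne_zero.2 (dL_pos (body_bd h))).trans_le (dL_le_dT K)).ne'
  fin _ h := (dT_le_one (body_bd h)).trans_lt (by simp) |>.ne

theorem Good.vol_le {δ : Set V → ℝ≥0∞} (hδ : Good δ) {K K' : Set V} (hK : Body K)
    (hK' : Body K') (hD : K - K = K' - K') (h : δ K ≤ δ K') :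
    volume.real K ≤ volume.real K' := by
  have h1 : volume K * δ K ≤ volume K' * δ K :=
    (mul_le_mul_right h (volume K)).trans (hδ.ratio K' K hK' hK hD.symm)
  have h2 := (ENNReal.mul_le_mul_iff_left (hδ.pos K hK) (hδ.fin K hK)).1 h1
  exact ENNReal.toReal_mono (body_bd hK').fin h2

end Pool.Agent.J4.H72.PK
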