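import Mathlib

/-! The one-dimensional part of the equality case of the Brunn-Minkowski inequality. -/

set_option autoImplicit false

namespace Pool.Agent.J4.H72.PK

open Set Filter Topology

/-- a distribution function -/
structure Df (v : ℝ) (k : ℝ → ℝ) : Prop where
  nn : ∀ t, 0 ≤ k t
  le : ∀ t, k t ≤ v
  mono : Monotone k
  strict : ∀ s t, s < t → k s = k t → k s = 0 ∨ k t = v
  surj : ∀ a, 0 < a → a < v → ∃ t, k t = a

variable {v : ℝ} {k l c : ℝ → ℝ}

theorem Df.inj (hk : Df v k) {s t : ℝ} (h : k s = k t) (h0 : 0 < k s) (h1 : k s < v) : s = t := by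
  rcases lt_trichotomy s t with h2 | h2 | h2
  · rcases hk.strict s t h2 h with h3 | h3
    · linarith
    · linarith
  · exact h2
  · rcases hk.strict t s h2 h.symm with h3 | h3
    · linarith
    · linarith

theorem Df.lt_of (hk : Df v k) {s t : ℝ} (h : k s < k t) : s < t := by
  by_contra h1
  exact absurd (hk.mono (not_lt.1 h1)) (not_le.2 h)

theorem Df.le_of (hk : Df v k) {s t : ℝ} (h : k s ≤ k t) (h0 : 0 < k s) (h1 : k s < v) : s ≤ t := by
  rcases h.lt_or_eq with h2 | h2
  · exact (hk.lt_of h2).le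
  · exact (hk.inj h2 h0 h1).le

theorem mid_eq (hl : Df v c) (A : ∀ t s, k t * l s ≤ c ((t + s) / 2) ^ 2)
    (B : ∀ t s, (v - k t) * (v - l s) ≤ (v - c ((t + s) / 2)) ^ 2) {a t s : ℝ} (h0 : 0 < a)
    (h1 : a < v) (ht : k t = a) (hs : l s = a) : c ((t + s) / 2) = a := by
  have h2 := A t s
  have h3 := B t s
  rw [ht, hs] at h2 h3
  have h4 := hl.nn ((t + s) / 2)
  have h5 := hl.le ((t + s) / 2)
  apply le_antisymm
  · nlinarith
  · nlinarith

theorem step (hc : Df v c) (A : ∀ t s, k t * l s ≤ c ((t + s) / 2) ^ 2)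
    (B : ∀ t s, (v - k t) * (v - l s) ≤ (v - c ((t + s) / 2)) ^ 2) {a b g t s t' s' : ℝ}
    (h0 : 0 < g) (h1 : g < v) (hg : g * g = a * b) (ht : k t = a) (hs : l s = b)
    (ht' : k t' = g) (hs' : l s' = g) : t' + s' ≤ t + s := by
  have h2 := mid_eq hc A B h0 h1 ht' hs'
  have h3 := A t s
  rw [ht, hs] at h3
  have h4 := hc.nn ((t + s) / 2)
  have h5 : g ≤ c ((t + s) / 2) := by nlinarith
  have h6 := hc.le_of (h2.trans_le h5) (by rw [h2]; exact h0) (by rw [h2]; exact h1)
  linarith

/-- telescoping -/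
theorem tele {T S : ℝ → ℝ} (hst : ∀ a b g, 0 < a → a < v → 0 < b → b < v → 0 < g → g < v →
      g * g = a * b → T g + S g ≤ T a + S b) {a q : ℝ} (ha : 0 < a) (hq : 1 < q) (N : ℕ)
    (hN : a * q ^ (N + 1) < v) :
    S (a * q) + T (a * q ^ N) ≤ S (a * q ^ (N + 1)) + T a := by
  induction N with
  | zero => simp
  | succ N ih =>
    have hq0 : 0 < q := by linarith
    have h1 : a * q ^ (N + 1) < a * q ^ (N + 1 + 1) := by
      have : 0 < a * q ^ (N + 1) := by positivity
      rw [pow_succ q (N + 1), ← mul_assoc]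
      nlinarith
    have h2 : a * q ^ N < a * q ^ (N + 1) := by
      have : 0 < a * q ^ N := by positivity
      rw [pow_succ q N, ← mul_assoc]
      nlinarith
    have h3 := ih (h1.trans hN)
    have h4 := hst (a * q ^ N) (a * q ^ (N + 1 + 1)) (a * q ^ (N + 1)) (by positivity)
      (h2.trans (h1.trans hN)) (by positivity) hN (by positivity) (h1.trans hN) (by ring)
    linarith

theorem slope {T S : ℝ → ℝ} (hv : 0 < v) (hk : Df v k) (hl : Df v l)
    (hT : ∀ a, 0 < a → a < v → k (T a) = a) (hS : ∀ a, 0 < a → a < v → l (S a) = a)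
    (hst : ∀ a b g, 0 < a → a < v → 0 < b → b < v → 0 < g → g < v →
      g * g = a * b → T g + S g ≤ T a + S b) {a b : ℝ} (ha : 0 < a) (hab : a < b) (hb : b < v) :
    T b - T a ≤ S b - S a := by
  have hb0 : 0 < b := ha.trans hab
  have hTm : ∀ x y, 0 < x → x ≤ y → y < v → T x ≤ T y := by
    intro x y hx hxy hy
    have e1 := hT x hx (hxy.trans_lt hy)
    have e2 := hT y (hx.trans_le hxy) hy
    exact hk.le_of (by rw [e1, e2]; exact hxy) (by rw [e1]; exact hx)
      (by rw [e1]; exact hxy.trans_lt hy)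
  have hSm : ∀ x y, 0 < x → x ≤ y → y < v → S x ≤ S y := by
    intro x y hx hxy hy
    have e1 := hS x hx (hxy.trans_lt hy)
    have e2 := hS y (hx.trans_le hxy) hy
    exact hl.le_of (by rw [e1, e2]; exact hxy) (by rw [e1]; exact hx)
      (by rw [e1]; exact hxy.trans_lt hy)
  -- first for `b' < b`
  have h1 : ∀ b', a < b' → b' < b → T b' - T a ≤ S b - S a := by
    intro b' h1 h2
    -- choose `N`
    have hlog : 0 < Real.log (b / a) := Real.log_pos ((one_lt_div ha).2 hab)
    have hlog' : 0 < Real.log (b / b') := Real.log_pos ((one_lt_div (ha.trans h1)).2 h2)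
    obtain ⟨N, hN⟩ := exists_nat_gt (Real.log (b / a) / Real.log (b / b'))
    set q := Real.exp (Real.log (b / a) / (N + 1)) with hq
    have hN1 : (0 : ℝ) < N + 1 := by positivity
    have hq1 : 1 < q := by
      rw [hq]
      exact Real.one_lt_exp_iff.2 (div_pos hlog hN1)
    have hqN : q ^ (N + 1) = b / a := by
      rw [hq, ← Real.exp_nat_mul]
      push_cast
      rw [mul_div_cancel₀ _ hN1.ne', Real.exp_log (div_pos hb0 ha)]
    have e1 : a * q ^ (N + 1) = b := by rw [hqN]; field_simp
    have h3 := tele (v := v) hst ha hq1 N (by rw [e1]; exact hb)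
    rw [e1] at h3
    have hq0 : 0 < q := by linarith
    -- `q ≤ b / b'`
    have h4 : q ≤ b / b' := by
      rw [← Real.exp_log (div_pos hb0 (ha.trans h1)), hq]
      apply Real.exp_le_exp.2
      rw [div_le_iff₀ hN1]
      rw [div_lt_iff₀ hlog'] at hN
      nlinarith
    have h5 : b' ≤ a * q ^ N := by
      have h6 : a * q ^ N * q = b := by rw [← e1]; ring
      rw [le_div_iff₀ (ha.trans h1)] at h4
      have h7 : 0 < a * q ^ N := by positivity
      by_contra h8
      push Not at h8
      have : a * q ^ N * q < b' * q := by nlinarith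
      linarith
    have h6 : a * q ^ N ≤ b := by
      rw [← e1]
      have : q ^ N ≤ q ^ (N + 1) := pow_le_pow_right₀ hq1.le (Nat.le_succ N)
      nlinarith
    have h7 := hTm b' (a * q ^ N) (ha.trans h1) h5 (h6.trans_lt hb)
    have h8 : a * q ≤ b := by
      rw [← e1]
      have : q ^ 1 ≤ q ^ (N + 1) := pow_le_pow_right₀ hq1.le (by omega)
      rw [pow_one] at this
      nlinarith
    have h9 := hSm a (a * q) ha (by nlinarith) (h8.trans_lt hb)
    linarith
  -- now left continuity
  refine le_of_forall_pos_le_add fun ε hε => ?_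
  have e1 := hT b hb0 hb
  have h2 : k (T b - ε) < b := by
    rcases (hk.mono (by linarith : T b - ε ≤ T b)).lt_or_eq with h3 | h3
    · exact h3.trans_eq e1
    · exfalso
      have := hk.inj h3 (by rw [h3, e1]; exact hb0) (by rw [h3, e1]; exact hb)
      linarith
  obtain ⟨b', h3, h4⟩ := exists_between (max_lt h2 hab)
  have h5 := h1 b' ((le_max_right _ _).trans_lt h3) h4
  have hb' : 0 < b' := ha.trans ((le_max_right _ _).trans_lt h3)
  have h6 : T b - ε < T b' := hk.lt_of (by
    rw [hT b' hb' (h4.trans hb)]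
    exact (le_max_left _ _).trans_lt h3)
  linarith

theorem shift (hv : 0 < v) (hk : Df v k) (hl : Df v l) (hc : Df v c)
    (A : ∀ t s, k t * l s ≤ c ((t + s) / 2) ^ 2)
    (B : ∀ t s, (v - k t) * (v - l s) ≤ (v - c ((t + s) / 2)) ^ 2) :
    ∃ d, ∀ t, k t = l (t - d) := by
  classical
  set T : ℝ → ℝ := fun a => if h : 0 < a ∧ a < v then (hk.surj a h.1 h.2).choose else 0 with hTd
  set S : ℝ → ℝ := fun a => if h : 0 < a ∧ a < v then (hl.surj a h.1 h.2).choose else 0 with hSd
  have hT : ∀ a, 0 < a → a < v → k (T a) = a := fun a h1 h2 => by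
    rw [hTd]; simp only [dif_pos (And.intro h1 h2)]
    exact (hk.surj a h1 h2).choose_spec
  have hS : ∀ a, 0 < a → a < v → l (S a) = a := fun a h1 h2 => by
    rw [hSd]; simp only [dif_pos (And.intro h1 h2)]
    exact (hl.surj a h1 h2).choose_spec
  have hst : ∀ a b g, 0 < a → a < v → 0 < b → b < v → 0 < g → g < v →
      g * g = a * b → T g + S g ≤ T a + S b := fun a b g h1 h2 h3 h4 h5 h6 h7 =>
    step hc A B h5 h6 h7 (hT a h1 h2) (hS b h3 h4) (hT g h5 h6) (hS g h5 h6)
  have hst' : ∀ a b g, 0 < a → a < v → 0 < b → b < v → 0 < g → g < v →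
      g * g = a * b → S g + T g ≤ S a + T b := fun a b g h1 h2 h3 h4 h5 h6 h7 => by
    have := hst b a g h3 h4 h1 h2 h5 h6 (by rw [h7]; ring)
    linarith
  have key : ∀ a b, 0 < a → a < b → b < v → T b - T a = S b - S a := fun a b h1 h2 h3 =>
    le_antisymm (slope hv hk hl hT hS hst h1 h2 h3) (slope hv hl hk hS hT hst' h1 h2 h3)
  have hc2 : ∀ a, 0 < a → a < v → T a - S a = T (v / 2) - S (v / 2) := by
    intro a h1 h2
    rcases lt_trichotomy a (v / 2) with h3 | h3 | h3
    · have := key a (v / 2) h1 h3 (by linarith)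
      linarith
    · rw [h3]
    · have := key (v / 2) a (by linarith) h3 h2
      linarith
  set d := T (v / 2) - S (v / 2) with hd
  refine ⟨d, fun t => ?_⟩
  have hm1 := hT (v / 2) (by linarith) (by linarith)
  have hm2 := hS (v / 2) (by linarith) (by linarith)
  by_cases h1 : 0 < k t ∧ k t < v
  · have h2 := hT (k t) h1.1 h1.2
    have h3 : T (k t) = t := hk.inj h2 (by rw [h2]; exact h1.1) (by rw [h2]; exact h1.2)
    have h4 := hc2 (k t) h1.1 h1.2
    rw [h3] at h4
    have h5 : t - d = S (k t) := by linarith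
    rw [h5, hS _ h1.1 h1.2]
  · by_cases h2 : 0 < l (t - d) ∧ l (t - d) < v
    · have h3 := hS _ h2.1 h2.2
      have h4 : S (l (t - d)) = t - d := hl.inj h3 (by rw [h3]; exact h2.1) (by rw [h3]; exact h2.2)
      have h5 := hc2 _ h2.1 h2.2
      have h6 : T (l (t - d)) = t := by linarith
      have h7 := hT _ h2.1 h2.2
      rw [h6] at h7
      exact h7
    · have h3 : k t = 0 ∨ k t = v := by
        rcases (hk.nn t).lt_or_eq with h | h
        · right
          by_contra h'
          exact h1 ⟨h, lt_of_le_of_ne (hk.le t) h'⟩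
        · exact Or.inl h.symm
      have h4 : l (t - d) = 0 ∨ l (t - d) = v := by
        rcases (hl.nn (t - d)).lt_or_eq with h | h
        · right
          by_contra h'
          exact h2 ⟨h, lt_of_le_of_ne (hl.le _) h'⟩
        · exact Or.inl h.symm
      rcases h3 with h3 | h3 <;> rcases h4 with h4 | h4
      · rw [h3, h4]
      · exfalso
        have h5 : t < T (v / 2) := hk.lt_of (by rw [hm1, h3]; linarith)
        have h6 : S (v / 2) < t - d := hl.lt_of (by rw [hm2, h4]; linarith)
        linarith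
      · exfalso
        have h5 : T (v / 2) < t := hk.lt_of (by rw [hm1, h3]; linarith)
        have h6 : t - d < S (v / 2) := hl.lt_of (by rw [hm2, h4]; linarith)
        linarith
      · rw [h3, h4]

end Pool.Agent.J4.H72.PK
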