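import Pool.Agent.J4.H72.PK.Slice
import Pool.Agent.J4.H72.PK.OneD

/-! The equality case of the Brunn-Minkowski inequality for two bodies of the same volume. -/

set_option autoImplicit false

namespace Pool.Agent.J4.H72.PK

open MeasureTheory Set Filter Topology
open scoped Pointwise

variable {n : ℕ}

theorem Bd.df {K : Set (Fin n → ℝ)} (hK : Bd K) {w : Fin n → ℝ} (hw : w ≠ 0) :
    Df (volume.real K) (cd K w) where
  nn := cd_nonneg
  le := cd_le hK
  mono := cd_mono hK
  strict := fun _ _ h h' => cd_strict hK h h'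
  surj := fun _ h h' => exists_cd hK hw h h'

section
variable {K L C : Set (Fin n → ℝ)}

theorem lo_fin (hK : Bd K) (w : Fin n → ℝ) (t : ℝ) : volume (lo K w t) ≠ ⊤ :=
  measure_ne_top_of_subset inter_subset_left hK.fin

theorem real_mul_le {A B D : Set (Fin n → ℝ)} (hD : volume D ≠ ⊤)
    (h : volume A * volume B ≤ volume D ^ 2) :
    volume.real A * volume.real B ≤ volume.real D ^ 2 := by
  rw [measureReal_def, measureReal_def, measureReal_def, ← ENNReal.toReal_mul,
    ← ENNReal.toReal_pow]
  exact ENNReal.toReal_mono (ENNReal.pow_ne_top hD) h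

theorem ell_mid (w x y : Fin n → ℝ) :
    ell w (fun i => (x i + y i) / 2) = (ell w x + ell w y) / 2 := by
  have : (fun i => (x i + y i) / 2) = (1 / 2 : ℝ) • (x + y) := by
    funext i
    simp
    ring
  rw [this, ell_smul, ell_add]
  ring

/-- the first moments -/
noncomputable def mom (K : Set (Fin n → ℝ)) : Fin n → ℝ := fun i => ∫ x in K, x i

theorem integral_ell (hK : Bd K) (w : Fin n → ℝ) : ∫ x in K, ell w x = ell w (mom K) := by
  unfold ell mom
  rw [integral_finsetSum]
  · exact Finset.sum_congr rfl fun i _ => integral_const_mul _ _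
  · intro i _
    exact (continuous_const.mul (continuous_apply i)).continuousOn.integrableOn_compact hK.cpt

theorem shift_eq (hK : Bd K) (hL : Bd L) (hvKL : volume.real K = volume.real L) {w : Fin n → ℝ}
    {d : ℝ} (h : ∀ t, cd K w t = cd L w (t - d)) :
    ell w (mom K) = ell w (mom L) + d * volume.real L := by
  have hf1 : IsFiniteMeasure (volume.restrict K) := ⟨by
    rw [Measure.restrict_apply_univ]; exact hK.cpt.measure_lt_top⟩
  have hf2 : IsFiniteMeasure (volume.restrict L) := ⟨by
    rw [Measure.restrict_apply_univ]; exact hL.cpt.measure_lt_top⟩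
  have hm1 : Measurable (ell w) := (continuous_ell w).measurable
  have hm2 : Measurable (fun x => ell w x + d) := hm1.add_const d
  have e : (volume.restrict K).map (ell w) = (volume.restrict L).map (fun x => ell w x + d) := by
    refine Measure.ext_of_Iic _ _ fun t => ?_
    rw [Measure.map_apply hm1 measurableSet_Iic, Measure.map_apply hm2 measurableSet_Iic,
      Measure.restrict_apply (hm1 measurableSet_Iic), Measure.restrict_apply (hm2 measurableSet_Iic)]
    have h1 : ell w ⁻¹' Iic t ∩ K = lo K w t := by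
      rw [inter_comm]; rfl
    have h2 : (fun x => ell w x + d) ⁻¹' Iic t ∩ L = lo L w (t - d) := by
      rw [inter_comm]
      ext x
      simp only [lo, mem_inter_iff, mem_preimage, mem_Iic, mem_ofPred_eq, le_sub_iff_add_le]
    rw [h1, h2, ← ENNReal.toReal_eq_toReal_iff' (lo_fin hK w t) (lo_fin hL w (t - d))]
    exact h t
  have h1 : ∫ x in K, ell w x = ∫ y, y ∂((volume.restrict K).map (ell w)) :=
    (integral_map hm1.aemeasurable aestronglyMeasurable_id).symm
  have h2 : ∫ x in L, (ell w x + d) = ∫ y, y ∂((volume.restrict L).map (fun x => ell w x + d)) :=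
    (integral_map hm2.aemeasurable aestronglyMeasurable_id).symm
  rw [← integral_ell hK, ← integral_ell hL, h1, e, ← h2, integral_add, setIntegral_const]
  · simp [mul_comm]
  · exact (continuous_ell w).continuousOn.integrableOn_compact hL.cpt
  · exact integrable_const _

theorem sub_of_cd (hK : Bd K) (hL : Bd L) (hv : volume.real K = volume.real L)
    {p : Fin n → ℝ} (h : ∀ w : Fin n → ℝ, w ≠ 0 → ∀ t, cd K w t = cd L w (t - ell w p))
    {x : Fin n → ℝ} (hx : x ∈ K) : x - p ∈ L := by
  by_contra hx'
  obtain ⟨f, u, hf, hu⟩ := geometric_hahn_banach_closed_point hL.cvx hL.cpt.isClosed hx'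
  set w : Fin n → ℝ := fun i => f (Pi.single i 1) with hw
  have hfw : ∀ y, f y = ell w y := by
    intro y
    have : y = ∑ i, y i • (Pi.single i (1 : ℝ) : Fin n → ℝ) := by
      rw [← pi_eq_sum_univ' y]
    conv_lhs => rw [this]
    rw [map_sum]
    unfold ell
    refine Finset.sum_congr rfl fun i _ => ?_
    rw [map_smul, smul_eq_mul, hw, mul_comm]
  obtain ⟨y, hy⟩ := hL.int
  have hw0 : w ≠ 0 := by
    intro h0
    have h1 := hf y (interior_subset hy)
    rw [hfw, h0] at h1 hu
    have e0 : ∀ z : Fin n → ℝ, ell (0 : Fin n → ℝ) z = 0 := fun z => by simp [ell]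
    rw [e0] at h1 hu
    linarith
  -- all of `L` lies below `u`
  have h1 : cd L w u = volume.real L := by
    unfold cd
    congr 1
    ext z
    simp only [lo, mem_inter_iff, mem_ofPred_eq, and_iff_left_iff_imp]
    intro hz
    rw [← hfw]
    exact (hf z hz).le
  have h2 := h w hw0 (u + ell w p)
  rw [add_sub_cancel_right, h1, ← hv] at h2
  have h3 := hi_eq (w := w) hK (u + ell w p)
  rw [h2, sub_self] at h3
  -- but there is something above
  have h4 : u + ell w p < ell w x := by
    rw [hfw, ell_sub] at hu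
    linarith
  have h5 : x ∈ closure (interior K) := by
    rw [hK.cvx.closure_interior_eq_closure_of_nonempty_interior hK.int]
    exact subset_closure hx
  have ho : IsOpen {z : Fin n → ℝ | u + ell w p < ell w z} :=
    isOpen_lt continuous_const (continuous_ell w)
  obtain ⟨z, hz1, hz2⟩ := mem_closure_iff.1 h5 _ ho h4
  have h6 : 0 < volume (interior K ∩ {z : Fin n → ℝ | u + ell w p < ell w z}) :=
    (isOpen_interior.inter ho).measure_pos _ ⟨z, hz2, hz1⟩
  have h7 : volume (interior K ∩ {z : Fin n → ℝ | u + ell w p < ell w z}) ≤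
      volume (K ∩ {z : Fin n → ℝ | u + ell w p < ell w z}) :=
    measure_mono (inter_subset_inter_left _ interior_subset)
  have h8 : volume (K ∩ {z : Fin n → ℝ | u + ell w p < ell w z}) ≠ ⊤ :=
    measure_ne_top_of_subset inter_subset_left hK.fin
  have h9 := ENNReal.toReal_pos (h6.trans_le h7).ne' h8
  rw [measureReal_def] at h3
  linarith

/-- **the equality case** -/
theorem eq_bm (hK : Bd K) (hL : Bd L) (hC : Bd C) (hv : volume.real K = volume.real L)
    (hv' : volume.real C ≤ volume.real L)
    (hm : ∀ x ∈ K, ∀ y ∈ L, (fun i => (x i + y i) / 2) ∈ C) :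
    ∃ p : Fin n → ℝ, ∀ x, x ∈ K ↔ x - p ∈ L := by
  have hV : volume.real C = volume.real L := by
    refine le_antisymm hv' ?_
    have h1 := real_mul_le hC.fin (Pool.Agent.Helper392.Mey.PL.bm_pi hK.ms hL.ms hC.ms hm)
    rw [hv] at h1
    have := hL.rpos
    have := hC.rpos
    nlinarith
  set v := volume.real L with hvd
  have hv0 : 0 < v := hL.rpos
  set p : Fin n → ℝ := v⁻¹ • (mom K - mom L) with hp
  have key : ∀ w : Fin n → ℝ, w ≠ 0 → ∀ t, cd K w t = cd L w (t - ell w p) := by
    intro w hw
    have A : ∀ t s, cd K w t * cd L w s ≤ cd C w ((t + s) / 2) ^ 2 := by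
      intro t s
      refine real_mul_le (measure_ne_top_of_subset inter_subset_left hC.fin)
        (Pool.Agent.Helper392.Mey.PL.bm_pi (lo_ms hK t) (lo_ms hL s) (lo_ms hC _) ?_)
      rintro x ⟨hx, hx'⟩ y ⟨hy, hy'⟩
      refine ⟨hm x hx y hy, ?_⟩
      show ell w _ ≤ _
      rw [ell_mid]
      have h1 : ell w x ≤ t := hx'
      have h2 : ell w y ≤ s := hy'
      linarith
    have ms : ∀ {D : Set (Fin n → ℝ)}, Bd D → ∀ t, MeasurableSet (D ∩ {x | t < ell w x}) :=
      fun hD t => hD.ms.inter (measurableSet_lt measurable_const (continuous_ell w).measurable)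
    have B : ∀ t s, (v - cd K w t) * (v - cd L w s) ≤ (v - cd C w ((t + s) / 2)) ^ 2 := by
      intro t s
      have h1 := real_mul_le (A := K ∩ {x | t < ell w x}) (B := L ∩ {x | s < ell w x})
        (D := C ∩ {x | (t + s) / 2 < ell w x})
        (measure_ne_top_of_subset inter_subset_left hC.fin)
        (Pool.Agent.Helper392.Mey.PL.bm_pi (ms hK t) (ms hL s) (ms hC _) ?_)
      · rw [hi_eq hK, hi_eq hL, hi_eq hC, hv, hV] at h1
        exact h1
      · rintro x ⟨hx, hx'⟩ y ⟨hy, hy'⟩
        refine ⟨hm x hx y hy, ?_⟩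
        show _ < ell w _
        rw [ell_mid]
        have h1 : t < ell w x := hx'
        have h2 : s < ell w y := hy'
        linarith
    have dK := hK.df hw
    have dL := hL.df hw
    have dC := hC.df hw
    rw [hv] at dK
    rw [hV] at dC
    obtain ⟨d, hd⟩ := shift hv0 dK dL dC A B
    have h1 := shift_eq hK hL hv hd
    have h2 : ell w p = d := by
      rw [hp, ell_smul, ell_sub, h1]
      field_simp
      ring
    intro t
    rw [h2]
    exact hd t
  refine ⟨p, fun x => ⟨fun hx => sub_of_cd hK hL hv key hx, fun hx => ?_⟩⟩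
  have key' : ∀ w : Fin n → ℝ, w ≠ 0 → ∀ t, cd L w t = cd K w (t - ell w (-p)) := by
    intro w hw t
    rw [key w hw, ell_neg]
    congr 1
    ring
  have := sub_of_cd hL hK hv.symm key' hx
  simpa using this

end

end Pool.Agent.J4.H72.PK
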