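import Pool.Agent.J4.H72.PK.Strict

/-! Exposed points. -/

set_option autoImplicit false

namespace Pool.Agent.J4.H72.PK

open MeasureTheory Set Filter Topology
open scoped Pointwise ENNReal
open Pool.Agent.TH219.DL Pool.Agent.H349R2.Tet

attribute [local irreducible] dt

/-- `p` is the only point of `K` at which `ell w` is maximal -/
def Ex (K : Set V) (w p : V) : Prop := w ≠ 0 ∧ p ∈ K ∧ ell w p = hs K w ∧
  ∀ x ∈ K, ell w x = hs K w → x = p

theorem ell_sq_sub (a b : V) : ell (a - b) (a - b) = ell a a - 2 * ell a b + ell b b := by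
  have e : a - b = a + (-1 : ℝ) • b := by module
  rw [e, ell_add, ell_add_left, ell_add_left, ell_smul, ell_smul, ell_smul_left, ell_smul_left,
    ell_comm b a]
  ring

/-- a farthest point is exposed -/
theorem far {K : Set V} (bK : Bd K) (z : V) : ∃ e, Ex K (e - z) e ∧
    ∀ y ∈ K, ell (y - z) (y - z) ≤ ell (e - z) (e - z) := by
  have hc : Continuous fun y : V => ell (y - z) (y - z) := by
    unfold ell
    fun_prop
  obtain ⟨e, he, hmax⟩ := bK.cpt.exists_isMaxOn bK.cc.ne hc.continuousOn
  have hm : ∀ y ∈ K, ell (y - z) (y - z) ≤ ell (e - z) (e - z) := fun y hy => hmax hy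
  have h1 : ∀ y ∈ K, 2 * ell (e - z) (y - e) ≤ -ell (y - e) (y - e) := by
    intro y hy
    have h2 := hm y hy
    have e1 : y - z = (y - e) + (e - z) := by abel
    rw [e1, ell_add, ell_add_left, ell_add_left, ell_comm (y - e) (e - z)] at h2
    linarith
  have h3 : hs K (e - z) = ell (e - z) e := by
    refine le_antisymm (hs_le bK.cc.ne fun y hy => ?_) (le_hs bK.cpt _ he)
    have h4 := h1 y hy
    have h5 := ell_self_nonneg (y - e)
    rw [ell_sub] at h4
    linarith
  refine ⟨e, ⟨?_, he, h3.symm, fun y hy hy' => ?_⟩, hm⟩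
  · intro h0
    obtain ⟨k, hk⟩ := bK.int
    have hall : ∀ y ∈ K, y = z := by
      intro y hy
      have h4 := hm y hy
      rw [h0] at h4
      have h5 : ell (0 : V) 0 = 0 := by simp [ell]
      rw [h5] at h4
      exact sub_eq_zero.1 (ell_self_eq_zero (le_antisymm h4 (ell_self_nonneg _)))
    have h6 : interior K ⊆ {z} := fun y hy => hall y (interior_subset hy)
    have h7 : interior K = {z} := Subset.antisymm h6 (by
      rw [singleton_subset_iff, ← hall k (interior_subset hk)]
      exact hk)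
    have h8 : IsOpen ({z} : Set V) := h7 ▸ isOpen_interior
    exact not_isOpen_singleton z h8
  · have h4 := h1 y hy
    rw [ell_sub, hy', h3, sub_self, mul_zero] at h4
    have h5 := ell_self_nonneg (y - e)
    exact sub_eq_zero.1 (ell_self_eq_zero (le_antisymm (by linarith) h5))

/-- the theorem of Straszewicz for convex bodies -/
theorem hull_exposed {K : Set V} (bK : Bd K) : K ⊆ closure (convexHull ℝ {p | ∃ w, Ex K w p}) := by
  set C := closure (convexHull ℝ {p | ∃ w, Ex K w p}) with hC
  have hsub : C ⊆ K :=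
    closure_minimal (convexHull_min (fun y hy => by
      obtain ⟨w, hw⟩ := hy
      exact hw.2.1) bK.cvx) bK.cpt.isClosed
  have hne : C.Nonempty := by
    obtain ⟨e, he, -⟩ := far bK 0
    exact ⟨e, subset_closure (subset_convexHull ℝ _ ⟨_, he⟩)⟩
  have hc : Cc C :=
    ⟨bK.cpt.of_isClosed_subset isClosed_closure hsub, (convex_convexHull ℝ _).closure, hne⟩
  intro x hx
  by_contra hx'
  obtain ⟨w, hw⟩ := sep hc hx'
  have hcont : Continuous fun y : V => ell (y - x) (y - x) := by
    unfold ell
    fun_prop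
  obtain ⟨M, hM⟩ := (hc.cpt.image hcont).bddAbove
  have hM' : ∀ y ∈ C, ell (y - x) (y - x) ≤ M := fun y hy => hM ⟨y, hy, rfl⟩
  obtain ⟨n, hn⟩ := exists_nat_gt (M / (2 * (ell w x - hs C w)))
  have hd : 0 < 2 * (ell w x - hs C w) := by linarith
  rw [div_lt_iff₀ hd] at hn
  obtain ⟨e, he, hmax⟩ := far bK (x - (n : ℝ) • w)
  have heC : e ∈ C := subset_closure (subset_convexHull ℝ _ ⟨_, he⟩)
  have h1 := hmax x hx
  have e1 : x - (x - (n : ℝ) • w) = (n : ℝ) • w := by abel
  have e2 : e - (x - (n : ℝ) • w) = (e - x) + (n : ℝ) • w := by abel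
  rw [e1, e2, ell_add, ell_add_left, ell_add_left, ell_smul, ell_smul_left, ell_smul,
    ell_smul_left, ell_comm (e - x) w, ell_sub w e x] at h1
  have h2 := hM' e heC
  have h3 := le_hs hc.cpt w heC
  have h4 : (0 : ℝ) ≤ n := Nat.cast_nonneg n
  have h5 : (n : ℝ) * (ell w e) ≤ n * hs C w := mul_le_mul_of_nonneg_left h3 h4
  nlinarith

/-- a body with finitely many exposed points -/
theorem poly_of_exposed {K : Set V} (bK : Bd K) (h : {p | ∃ w, Ex K w p}.Finite) :
    K = convexHull ℝ {p | ∃ w, Ex K w p} := by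
  refine Subset.antisymm ?_ (convexHull_min (fun y hy => by
      obtain ⟨w, hw⟩ := hy
      exact hw.2.1) bK.cvx)
  have h1 := hull_exposed bK
  rwa [(h.isCompact_convexHull ℝ).isClosed.closure_eq] at h1

theorem exposed_extreme {K : Set V} (bK : Bd K) {w p : V} (h : Ex K w p) :
    p ∈ K.extremePoints ℝ := by
  refine ⟨h.2.1, fun x hx y hy hp => ?_⟩
  obtain ⟨a, b, ha, hb, hab, rfl⟩ := hp
  have h1 := le_hs bK.cpt w hx
  have h2 := le_hs bK.cpt w hy
  have h3 := h.2.2.1
  rw [ell_add, ell_smul, ell_smul] at h3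
  have h4 : ell w x = hs K w := by
    refine le_antisymm h1 ?_
    by_contra hcon
    push Not at hcon
    have h5 : a * ell w x < a * hs K w := mul_lt_mul_of_pos_left hcon ha
    have h6 : b * ell w y ≤ b * hs K w := mul_le_mul_of_nonneg_left h2 hb.le
    have h7 : a * hs K w + b * hs K w = hs K w := by rw [← add_mul, hab, one_mul]
    linarith
  exact h.2.2.2 x hx h4

/-- the vertices of a polytope are exposed -/
theorem ext_exposed {K : Set V} (bK : Bd K) (h : (K.extremePoints ℝ).Finite) {p : V}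
    (hp : p ∈ K.extremePoints ℝ) : ∃ w, Ex K w p := by
  have hfin : {p | ∃ w, Ex K w p}.Finite := h.subset fun y hy => by
    obtain ⟨w, hw⟩ := hy
    exact exposed_extreme bK hw
  have h1 := poly_of_exposed bK hfin
  have h2 : p ∈ (convexHull ℝ {p | ∃ w, Ex K w p}).extremePoints ℝ := by
    rw [← h1]
    exact hp
  have h3 : p ∈ {p | ∃ w, Ex K w p} := extremePoints_convexHull_subset h2
  exact h3

end Pool.Agent.J4.H72.PK
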