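import Pool.Agent.J4.H72.PK.Red
import Pool.Agent.N791.RU.Basic

/-! Lattice packings and double lattice packings. -/

set_option autoImplicit false

namespace Pool.Agent.J4.H72.PK

open MeasureTheory Set Filter Topology
open scoped Pointwise ENNReal
open Pool.Agent.TH219.DL Pool.Agent.H349R2.Tet Pool.Agent.N791.RU

/-- the family of the members of a lattice packing (`s = false`) or of a double lattice packing
(`s = true`) -/
def fam (s : Bool) (v : V) (b : Fin 3 → V) : Set (Bool × V) :=
  {p | (p.1 = false ∧ p.2 ∈ lat b) ∨ (s = true ∧ p.1 = true ∧ ∃ u ∈ lat b, p.2 = v + u)}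

theorem fam_false (v : V) (b : Fin 3 → V) : fam false v b = famL b := by
  ext p
  simp [fam, famL]

theorem fam_true (v : V) (b : Fin 3 → V) : fam true v b = famLs v b := by
  ext p
  simp [fam, famLs]

theorem zero_mem_fam (s : Bool) (v : V) (b : Fin 3 → V) : ((false, 0) : Bool × V) ∈ fam s v b :=
  Or.inl ⟨rfl, pack_zero_mem b⟩

/-- the density function -/
noncomputable def dS (s : Bool) (K : Set V) : ℝ≥0∞ :=
  ⨆ (v : V) (b : Fin 3 → V) (_ : LinearIndependent ℝ b ∧ IsPack K (fam s v b)),
    den K (fam s v b)

theorem dS_false (K : Set V) : dS false K = dL K := by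
  unfold dS dL
  simp only [fam_false]
  exact iSup_const

theorem dS_true (K : Set V) : dS true K = dLs K := by
  unfold dS dLs
  simp only [fam_true]

theorem mem_zero (K : Set V) : mem K (false, 0) = K := by
  rw [mem_false]
  unfold tr
  simp

theorem mem_cvx {K : Set V} (hK : Convex ℝ K) (p : Bool × V) : Convex ℝ (mem K p) := by
  obtain ⟨s, c⟩ := p
  cases s
  · have e2 : mem K (false, c) = (fun x => c + x) '' K := by
      rw [mem_false]
      unfold tr
      exact image_congr fun x _ => add_comm _ _
    rw [e2]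
    exact hK.translate c
  · have e2 : mem K (true, c) = (fun x => c + x) '' (-K) := by
      ext x
      constructor
      · rintro ⟨y, hy, rfl⟩
        exact ⟨-y, by simpa using hy, by simp [add_comm]⟩
      · rintro ⟨y, hy, rfl⟩
        exact ⟨-y, hy, by simp [add_comm]⟩
    rw [e2]
    exact hK.neg.translate c

theorem den_le_one' {K : Set V} (hK : Convex ℝ K) {S : Set (Bool × V)} (h : IsPack K S) :
    den K S ≤ 1 := by
  unfold den
  refine limsup_le_of_le (by isBoundedDefault) ?_
  filter_upwards [eventually_gt_atTop 0] with r hr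
  rw [ENNReal.div_le_iff (vbl_pos hr) (vbl_fin hr), one_mul]
  have hi : ∀ p : S, volume (mem K p.1 ∩ Bl r) = volume (interior (mem K p.1) ∩ Bl r) := by
    intro p
    apply le_antisymm _ (measure_mono (inter_subset_inter_left _ interior_subset))
    have h0 : volume (frontier (mem K p.1)) = 0 := (mem_cvx hK p.1).addHaar_frontier volume
    calc volume (mem K p.1 ∩ Bl r) ≤
        volume ((interior (mem K p.1) ∩ Bl r) ∪ frontier (mem K p.1)) := by
          apply measure_mono
          rintro x ⟨hx1, hx2⟩
          by_cases hx3 : x ∈ interior (mem K p.1)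
          · exact Or.inl ⟨hx3, hx2⟩
          · exact Or.inr ⟨subset_closure hx1, hx3⟩
      _ ≤ volume (interior (mem K p.1) ∩ Bl r) + volume (frontier (mem K p.1)) :=
        measure_union_le _ _
      _ = _ := by rw [h0, add_zero]
  rw [tsum_congr hi]
  refine (tsum_meas_le_meas_iUnion_of_disjoint _ (fun p => ?_) (fun p q hpq => ?_)).trans
    (measure_mono (iUnion_subset fun p => inter_subset_right))
  · exact isOpen_interior.measurableSet.inter (bl_measurable r)
  · exact (h p.1 p.2 q.1 q.2 (fun e => hpq (Subtype.ext e))).mono inter_subset_left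
      inter_subset_left

/-- the number of bodies in a cell -/
def mS (s : Bool) : ℝ := if s = true then 2 else 1

theorem mS_pos (s : Bool) : 0 < mS s := by
  unfold mS
  split_ifs <;> norm_num

theorem den_fam {K : Set V} (hK : Bd K) {s : Bool} {v : V} {b : Fin 3 → V} (hb : dt b ≠ 0)
    (hp : IsPack K (fam s v b)) :
    den K (fam s v b) = ENNReal.ofReal (mS s * volume.real K / |dt b|) := by
  have hli : LinearIndependent ℝ b := (dt_ne_zero_iff b).1 hb
  have hdt : 0 < |dt b| := abs_pos.2 hb
  have hvol : volume K = ENNReal.ofReal (volume.real K) := by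
    rw [measureReal_def, ENNReal.ofReal_toReal hK.fin]
  cases s
  · rw [fam_false, den_famL, dens_eq b hli K hK.cpt, hvol, ← ENNReal.ofReal_div_of_pos hdt]
    simp [mS]
  · rw [fam_true] at hp ⊢
    have e0 : ENNReal.ofReal (mS true * volume.real K / |dt b|) =
        (volume K + volume K) / ENNReal.ofReal |dt b| := by
      rw [hvol, ← ENNReal.ofReal_add measureReal_nonneg measureReal_nonneg,
        ← ENNReal.ofReal_div_of_pos hdt]
      simp only [mS, if_true]
      congr 1
      ring
    have hr := vol_rfl hK.ms v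
    have hrc := rfl_compact hK.cpt v
    rw [e0]
    apply le_antisymm
    · refine (den_split K _).trans (le_of_eq ?_)
      rw [split_famLs_false, split_famLs_true, den_true, den_famL, dens_eq b hli K hK.cpt,
        dens_eq b hli _ hrc, hr, ← ENNReal.add_div]
    · refine le_trans ?_ (den_famLs K v b)
      rw [dens_eq b hli _ (hK.cpt.union hrc)]
      apply ENNReal.div_le_div_right
      have h1 := hp (false, 0) (Or.inl ⟨rfl, pack_zero_mem b⟩) (true, v + 0)
        (Or.inr ⟨rfl, 0, pack_zero_mem b, rfl⟩) (by simp)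
      have h2 : mem K (true, v + 0) = rfl' K v := by
        rw [mem_true]
        unfold tr
        simp
      have hcv : Convex ℝ (rfl' K v) := by
        rw [← h2]
        exact mem_cvx hK.cvx _
      rw [mem_zero, h2] at h1
      calc volume K + volume K = volume (interior K) + volume (interior (rfl' K v)) := by
            rw [vol_int hK.cvx, vol_int hcv, hr]
        _ = volume (interior K ∪ interior (rfl' K v)) :=
            (measure_union h1 isOpen_interior.measurableSet).symm
        _ ≤ _ := measure_mono (union_subset_union interior_subset interior_subset)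

theorem dt_low {K : Set V} (hK : Bd K) {s : Bool} {v : V} {b : Fin 3 → V} (hb : dt b ≠ 0)
    (hp : IsPack K (fam s v b)) : mS s * volume.real K ≤ |dt b| := by
  have h := den_le_one' hK.cvx hp
  rw [den_fam hK hb hp, ENNReal.ofReal_le_one, div_le_one (abs_pos.2 hb)] at h
  exact h

theorem dS_le_one {K : Set V} (hK : Bd K) (s : Bool) : dS s K ≤ 1 := by
  unfold dS
  exact iSup_le fun v => iSup₂_le fun b hb => den_le_one' hK.cvx hb.2

theorem dS_pos {K : Set V} (hK : Bd K) (s : Bool) : 0 < dS s K := by
  cases s
  · rw [dS_false]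
    exact pos_iff_ne_zero.2 (dL_pos hK)
  · rw [dS_true]
    refine lt_of_lt_of_le ?_ (dLs_low hK.body)
    rw [ENNReal.ofReal_pos]
    norm_num

theorem le_dS {K : Set V} {s : Bool} {v : V} {b : Fin 3 → V} (hb : dt b ≠ 0)
    (hp : IsPack K (fam s v b)) : den K (fam s v b) ≤ dS s K :=
  le_iSup_of_le v (le_iSup₂_of_le b ⟨(dt_ne_zero_iff b).1 hb, hp⟩ le_rfl)

/-! ### moving a member to the origin -/

theorem mem_iff_false {K : Set V} {c x : V} : x ∈ mem K (false, c) ↔ x - c ∈ K := by
  constructor
  · rintro ⟨y, hy, rfl⟩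
    simpa using hy
  · intro h
    exact ⟨x - c, h, by simp⟩

theorem mem_iff_true {K : Set V} {c x : V} : x ∈ mem K (true, c) ↔ c - x ∈ K := by
  constructor
  · rintro ⟨y, hy, rfl⟩
    simpa using hy
  · intro h
    exact ⟨c - x, h, by simp⟩

theorem lat_sub {b : Fin 3 → V} {u v : V} (hu : u ∈ lat b) (hv : v ∈ lat b) : u - v ∈ lat b :=
  pack_sub_mem hu hv

theorem norm_pair {K K' : Set V} {s : Bool} {v : V} {b : Fin 3 → V} {p q : Bool × V}
    (hp : p ∈ fam s v b) (hq : q ∈ fam s v b) (hpq : p ≠ q) {X : V}
    (h1 : X ∈ interior (mem K p)) (h2 : X ∈ interior (mem K q))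
    (h3 : X ∉ interior (mem K' p)) :
    ∃ q' ∈ fam s v b, q' ≠ (false, 0) ∧ ∃ y ∈ interior K, y ∉ interior K' ∧
      y ∈ interior (mem K q') := by
  rw [interior_mem] at h1 h2 h3
  obtain ⟨p1, c⟩ := p
  obtain ⟨q1, d⟩ := q
  rcases hp with ⟨hp1, hc⟩ | ⟨hs, hp1, u, hu, hc⟩
  · have hp1 : p1 = false := hp1
    have hc : c ∈ lat b := hc
    subst hp1
    rw [mem_iff_false] at h1 h3
    refine ⟨(q1, d - c), ?_, ?_, X - c, h1, h3, ?_⟩
    · rcases hq with ⟨hq1, hd⟩ | ⟨hs, hq1, w, hw, hd⟩
      · exact Or.inl ⟨hq1, lat_sub hd hc⟩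
      · exact Or.inr ⟨hs, hq1, w - c, lat_sub hw hc, by
          show d - c = v + (w - c)
          have hd : d = v + w := hd
          rw [hd]; abel⟩
    · intro h
      apply hpq
      rw [Prod.mk.injEq] at h
      rw [h.1, sub_eq_zero.1 h.2]
    · rw [interior_mem]
      cases q1
      · rw [mem_iff_false] at h2 ⊢
        rwa [sub_sub_sub_cancel_right]
      · rw [mem_iff_true] at h2 ⊢
        rwa [sub_sub_sub_cancel_right]
  · have hp1 : p1 = true := hp1
    have hcu : c = v + u := hc
    clear hc
    subst hp1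
    rw [mem_iff_true] at h1 h3
    refine ⟨(!q1, c - d), ?_, ?_, c - X, h1, h3, ?_⟩
    · rcases hq with ⟨hq1, hd⟩ | ⟨-, hq1, w, hw, hd⟩
      · have hq1 : q1 = false := hq1
        subst hq1
        exact Or.inr ⟨hs, rfl, u - d, lat_sub hu hd, by
          show c - d = v + (u - d)
          rw [hcu]; abel⟩
      · have hq1 : q1 = true := hq1
        have hdw : d = v + w := hd
        clear hd
        subst hq1
        refine Or.inl ⟨rfl, ?_⟩
        show c - d ∈ lat b
        rw [hcu, hdw, add_sub_add_left_eq_sub]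
        exact lat_sub hu hw
    · intro h
      apply hpq
      rw [Prod.mk.injEq] at h
      have h4 : q1 = true := by
        have := h.1
        cases q1
        · exact absurd this (by decide)
        · rfl
      rw [h4, sub_eq_zero.1 h.2]
    · rw [interior_mem]
      cases q1
      · rw [mem_iff_false] at h2
        show c - X ∈ mem (interior K) (true, c - d)
        rw [mem_iff_true]
        rwa [sub_sub_sub_cancel_left]
      · rw [mem_iff_true] at h2
        show c - X ∈ mem (interior K) (false, c - d)
        rw [mem_iff_false]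
        rwa [sub_sub_sub_cancel_left]

theorem isPack_fam {K : Set V} {s : Bool} {v : V} {b : Fin 3 → V} :
    IsPack K (fam s v b) ↔ ∀ q ∈ fam s v b, q ≠ (false, 0) →
      Disjoint (interior K) (interior (mem K q)) := by
  constructor
  · intro h q hq hq0
    have := h (false, 0) (zero_mem_fam s v b) q hq hq0.symm
    rwa [mem_zero] at this
  · intro h p hp q hq hpq
    rw [Set.disjoint_left]
    intro X h1 h2
    have h3 : X ∉ interior (mem (∅ : Set V) p) := by
      rw [interior_mem]
      rintro ⟨x, hx, -⟩
      simp at hx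
    obtain ⟨q', hq', hq0, y, hy, -, hy'⟩ := norm_pair hp hq hpq h1 h2 h3
    exact Set.disjoint_left.1 (h q' hq' hq0) hy hy'

theorem not_pack {K K' : Set V} {s : Bool} {v : V} {b : Fin 3 → V}
    (h1 : ¬ IsPack K (fam s v b)) (h2 : IsPack K' (fam s v b)) :
    ∃ q ∈ fam s v b, q ≠ (false, 0) ∧ ∃ y ∈ interior K, y ∉ interior K' ∧
      y ∈ interior (mem K q) := by
  unfold IsPack at h1
  push Not at h1
  obtain ⟨p, hp, q, hq, hpq, hnd⟩ := h1
  rw [Set.not_disjoint_iff] at hnd
  obtain ⟨X, hX1, hX2⟩ := hnd
  by_cases h3 : X ∈ interior (mem K' p)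
  · have h4 : X ∉ interior (mem K' q) := fun h => Set.disjoint_left.1 (h2 p hp q hq hpq) h3 h
    exact norm_pair hq hp hpq.symm hX2 hX1 h4
  · exact norm_pair hp hq hpq hX1 hX2 h3

end Pool.Agent.J4.H72.PK
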