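import Pool.Agent.J4.H72.PK.Cnt

/-! Limits of overlapping pairs, for general small cuts near a point. -/

set_option autoImplicit false

namespace Pool.Agent.J4.H72.PK

open MeasureTheory Set Filter Topology
open scoped Pointwise ENNReal
open Pool.Agent.TH219.DL Pool.Agent.H349R2.Tet

attribute [local irreducible] dt

/-- bodies `Kn n` contained in `K` which contain all points of `K` at distance more than `r n`
from `p` -/
structure Cut (K : Set V) (p : V) (Kn : ℕ → Set V) (r : ℕ → ℝ) : Prop where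
  bd : ∀ n, Bd (Kn n)
  sub : ∀ n, Kn n ⊆ K
  vol : ∀ n, volume.real (Kn n) < volume.real K
  dist : ∀ η : ℝ, 0 < η → ∃ N, ∀ n ≥ N, Metric.hausdorffDist K (Kn n) ≤ η
  rad : Tendsto r atTop (𝓝 0)
  near : ∀ n z, z ∈ interior K → r n < ‖z - p‖ → z ∈ interior (Kn n)
  inner : ∃ (x₀ : V) (ρ : ℝ), 0 < ρ ∧ ∀ n, Metric.ball x₀ ρ ⊆ interior (Kn n)

/-- a step of the approximation -/
structure Stg (s : Bool) (K K' : Set V) (ρ C V₀ D : ℝ) (v : V) (b : Fin 3 → V)
    (q : Bool × V) (y : V) : Prop where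
  dt0 : dt b ≠ 0
  low : V₀ ≤ |dt b|
  up : |dt b| ≤ D
  pk : IsPack K' (fam s v b)
  min : ∀ u ∈ lat b, u ≠ 0 → ρ ^ 2 ≤ ell u u
  hb : ∀ i, ‖b i‖ ≤ C
  hv : ‖v‖ ≤ 3 * C
  hq : q ∈ fam s v b
  hq0 : q ≠ (false, 0)
  hyi : y ∈ interior K
  hyn : y ∉ interior K'
  hyq : y ∈ interior (mem K q)

theorem exists_stg {s : Bool} {K : Set V} (hK : LocMin (dS s) K) {p : V} {Kn : ℕ → Set V}
    {r : ℕ → ℝ} (hc : Cut K p Kn r) :
    ∃ ρ C V₀ : ℝ, 0 < ρ ∧ 0 < V₀ ∧ ∃ N, ∀ n ≥ N, ∃ v b q y, Stg s K (Kn n) ρ C V₀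
        (mS s * volume.real K / (dS s K).toReal) v b q y := by
  obtain ⟨hKb, η, hη, hmin⟩ := hK
  have bK := body_bd hKb
  obtain ⟨hδ, hδ0⟩ := dS_ofReal bK s
  obtain ⟨x₀, ρ, hρ, hball⟩ := hc.inner
  obtain ⟨N, hN⟩ := hc.dist η hη
  set D := mS s * volume.real K / (dS s K).toReal with hD
  have hb0 : 0 < volume.real (Metric.ball x₀ ρ) := by
    rw [measureReal_def]
    exact ENNReal.toReal_pos (Metric.measure_ball_pos _ _ hρ).ne' measure_ball_lt_top.ne
  refine ⟨ρ, D ^ 2 / (9 / 100 * ρ ^ 4) + 1, mS s * volume.real (Metric.ball x₀ ρ), hρ,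
    mul_pos (mS_pos s) hb0, N, fun n hn => ?_⟩
  have hle := hmin _ (hc.bd n).body (hN n hn)
  obtain ⟨v, b, hb, hpk, hdt, hnp⟩ := trunc bK (hc.bd n) (hc.vol n) hle
  have hdt' : |dt b| ≤ D := by
    rw [hD, le_div_iff₀ hδ0]
    exact hdt.le
  have hmv : ∀ u ∈ lat b, u ≠ 0 → ρ ^ 2 ≤ ell u u := fun u hu hu0 =>
    min_vec hpk hρ (hball n) hu hu0
  obtain ⟨v', b', hb', hdb, hlat, hfam, hbb, hvv⟩ :=
    normalise (s := s) (K := K) (v := v) hb hρ hmv hdt'
  obtain ⟨q, hq, hq0, y, hy1, hy2, hy3⟩ := not_pack hnp hpk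
  refine ⟨v', b', q, y, ?_⟩
  exact
    { dt0 := hb'
      low := by
        rw [hdb]
        refine le_trans ?_ (dt_low (hc.bd n) hb hpk)
        exact mul_le_mul_of_nonneg_left
          (measureReal_mono ((hball n).trans interior_subset) (hc.bd n).fin) (mS_pos s).le
      up := by rw [hdb]; exact hdt'
      pk := by rw [hfam]; exact hpk
      min := by rw [hlat]; exact hmv
      hb := hbb
      hv := hvv
      hq := by rw [hfam]; exact hq
      hq0 := hq0
      hyi := hy1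
      hyn := hy2
      hyq := hy3 }

/-- limits of packings of the cut bodies -/
theorem pack_lim' {s : Bool} {K : Set V} {p : V} (hp : p ∉ interior K) {Kn : ℕ → Set V}
    {t : ℕ → ℝ} (htt : Tendsto t atTop (𝓝 0))
    (hnear : ∀ n z, z ∈ interior K → t n < ‖z - p‖ → z ∈ interior (Kn n))
    {vn : ℕ → V} {bn : ℕ → Fin 3 → V} {v : V} {b : Fin 3 → V}
    (hv : Tendsto vn atTop (𝓝 v)) (hb : Tendsto bn atTop (𝓝 b))
    (hpk : ∀ n, IsPack (Kn n) (fam s (vn n) (bn n))) :
    IsPack K (fam s v b) := by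
  rw [isPack_fam]
  rintro ⟨σ, d⟩ hr hr0
  rw [interior_mem]
  refine Set.disjoint_left.2 fun z hz1 hz2 => ?_
  have hsum : ∀ zz : Fin 3 → ℤ, Tendsto (fun n => ∑ i, (zz i : ℝ) • bn n i) atTop
      (𝓝 (∑ i, (zz i : ℝ) • b i)) := fun zz =>
    tendsto_finsetSum _ fun i _ => (tendsto_pi_nhds.1 hb i).const_smul _
  obtain ⟨dn, hdn, hdf⟩ : ∃ dn : ℕ → V, Tendsto dn atTop (𝓝 d) ∧
      ∀ n, (σ, dn n) ∈ fam s (vn n) (bn n) := by
    rcases hr with ⟨h1, zz, hd⟩ | ⟨hs, h1, u, ⟨zz, hu⟩, hd⟩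
    · have hd : d = _ := hd
      rw [hd]
      exact ⟨_, hsum zz, fun n => Or.inl ⟨h1, zz, rfl⟩⟩
    · have hd : d = v + u := hd
      rw [hd, hu]
      exact ⟨_, hv.add (hsum zz), fun n => Or.inr ⟨hs, h1, _, ⟨zz, rfl⟩, rfl⟩⟩
  have e2 : ∀ᶠ n in atTop, ((σ, dn n) : Bool × V) ≠ (false, 0) := by
    cases σ
    · have hd0 : d ≠ 0 := fun h => hr0 (by rw [h])
      filter_upwards [hdn.eventually_ne hd0] with n hn h
      exact hn (congrArg Prod.snd h)
    · exact Eventually.of_forall fun n h => by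
        have h1 : true = false := congrArg Prod.fst h
        exact absurd h1 (by decide)
  have key : ∀ {xn : ℕ → V} {x : V}, Tendsto xn atTop (𝓝 x) → x ∈ interior K →
      ∀ᶠ n in atTop, xn n ∈ interior (Kn n) := by
    intro xn x hx hxK
    have h1 : ∀ᶠ n in atTop, xn n ∈ interior K := hx.eventually (isOpen_interior.mem_nhds hxK)
    have hne : x - p ≠ 0 := fun h => hp (by rw [← sub_eq_zero.1 h]; exact hxK)
    have h2 : Tendsto (fun n => ‖xn n - p‖ - t n) atTop (𝓝 (‖x - p‖ - 0)) :=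
      ((hx.sub tendsto_const_nhds).norm).sub htt
    rw [sub_zero] at h2
    have h3 := h2.eventually_const_lt (norm_pos_iff.2 hne)
    filter_upwards [h1, h3] with n a1 a2
    exact hnear n _ a1 (by linarith)
  have e3 := key (tendsto_const_nhds (x := z)) hz1
  have e4 : ∀ᶠ n in atTop, z ∈ mem (interior (Kn n)) (σ, dn n) := by
    cases σ
    · rw [mem_iff_false] at hz2
      filter_upwards [key (tendsto_const_nhds.sub hdn) hz2] with n hn
      exact mem_iff_false.2 hn
    · rw [mem_iff_true] at hz2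
      filter_upwards [key (hdn.sub tendsto_const_nhds) hz2] with n hn
      exact mem_iff_true.2 hn
  obtain ⟨n, a2, a3, a4⟩ := (e2.and (e3.and e4)).exists
  have := isPack_fam.1 (hpk n) (σ, dn n) (hdf n) a2
  rw [interior_mem, Set.disjoint_left] at this
  exact this a3 a4

/-- A limit of packings of the cut bodies: the pair of members `K`, `mem K (σ, c)` is the limit of
pairs which overlap, but not after the cut. -/
theorem contactG {s : Bool} {K : Set V} (hK : LocMin (dS s) K) {p : V} (hp : p ∉ interior K)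
    {Kn : ℕ → Set V} {r : ℕ → ℝ} (hc : Cut K p Kn r) :
    ∃ (v : V) (b : Fin 3 → V), dt b ≠ 0 ∧ IsPack K (fam s v b) ∧
      den K (fam s v b) = dS s K ∧ ∃ (σ : Bool) (c : V), (σ, c) ∈ fam s v b ∧
        (σ, c) ≠ (false, 0) ∧ p ∈ K ∧ p ∈ mem K (σ, c) ∧
        ∃ (Ln : ℕ → Set V) (t : ℕ → ℝ) (yn cn : ℕ → V), Tendsto t atTop (𝓝 0) ∧
          Tendsto yn atTop (𝓝 p) ∧ Tendsto cn atTop (𝓝 c) ∧
          (∀ n z, z ∈ interior K → t n < ‖z - p‖ → z ∈ interior (Ln n)) ∧
          ∀ᶠ n in atTop, yn n ∈ interior K ∧ yn n ∈ interior (mem K (σ, cn n)) ∧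
            Disjoint (interior (Ln n)) (interior (mem (Ln n) (σ, cn n))) := by
  have bK := body_bd hK.1
  obtain ⟨hδ, hδ0⟩ := dS_ofReal bK s
  obtain ⟨ρ, C, V₀, hρ, hV₀, N, h⟩ := exists_stg hK hc
  have h' : ∀ n, ∃ v b q y, Stg s K (Kn (n + N)) ρ C V₀
        (mS s * volume.real K / (dS s K).toReal) v b q y := fun n => h (n + N) (by omega)
  choose v b q y hst using h'
  have hy0 : Tendsto y atTop (𝓝 p) := by
    rw [tendsto_iff_norm_sub_tendsto_zero]
    have hr : Tendsto (fun n => r (n + N)) atTop (𝓝 0) := hc.rad.comp (tendsto_add_atTop_nat N)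
    refine squeeze_zero (fun n => norm_nonneg _) (fun n => ?_) hr
    by_contra hcon
    push Not at hcon
    exact (hst n).hyn (hc.near _ _ (hst n).hyi hcon)
  obtain ⟨R, hR⟩ := bK.cpt.isBounded.exists_norm_le
  have hC0 : 0 ≤ C := (norm_nonneg _).trans ((hst 0).hb 0)
  have hR0 : 0 ≤ R := (norm_nonneg _).trans (hR _ (interior_subset (hst 0).hyi))
  have hqb : ∀ n, ‖(q n).2‖ ≤ 2 * R := by
    intro n
    have h1 := hR _ (interior_subset (hst n).hyi)
    have h2 := interior_subset (hst n).hyq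
    rcases hq : q n with ⟨σ, c⟩
    rw [hq] at h2
    cases σ
    · rw [mem_iff_false] at h2
      have h3 := hR _ h2
      have h4 := norm_sub_le (y n) (y n - c)
      rw [sub_sub_cancel] at h4
      show ‖c‖ ≤ 2 * R
      linarith
    · rw [mem_iff_true] at h2
      have h3 := hR _ h2
      have h4 := norm_add_le (c - y n) (y n)
      rw [sub_add_cancel] at h4
      show ‖c‖ ≤ 2 * R
      linarith
  set B := 3 * C + 2 * R with hB
  have hmem : ∀ n, (((q n).1, (v n, b n, (q n).2)) :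
      Bool × (V × (Fin 3 → V) × V)) ∈
      (univ : Set Bool) ×ˢ Metric.closedBall (0 : V × (Fin 3 → V) × V) B := by
    intro n
    refine ⟨trivial, ?_⟩
    rw [mem_closedBall_zero_iff, norm_prod_le_iff, norm_prod_le_iff]
    refine ⟨?_, ?_, ?_⟩
    · show ‖v n‖ ≤ B
      have := (hst n).hv
      linarith
    · show ‖b n‖ ≤ B
      rw [pi_norm_le_iff_of_nonneg (by positivity)]
      intro i
      have := (hst n).hb i
      linarith
    · show ‖(q n).2‖ ≤ B
      have := hqb n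
      linarith
  obtain ⟨⟨σ, v', b', c'⟩, -, φ, hφ, hlim⟩ :=
    (isCompact_univ.prod (isCompact_closedBall (0 : V × (Fin 3 → V) × V) B)).tendsto_subseq
      hmem
  have l1 : Tendsto (fun n => (q (φ n)).1) atTop (𝓝 σ) :=
    (continuous_fst.tendsto _).comp hlim
  have l2 := (continuous_snd.tendsto _).comp hlim
  have lv : Tendsto (fun n => v (φ n)) atTop (𝓝 v') := (continuous_fst.tendsto _).comp l2
  have l3 := (continuous_snd.tendsto _).comp l2
  have lb : Tendsto (fun n => b (φ n)) atTop (𝓝 b') := (continuous_fst.tendsto _).comp l3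
  have lc : Tendsto (fun n => (q (φ n)).2) atTop (𝓝 c') := (continuous_snd.tendsto _).comp l3
  have ly : Tendsto (fun n => y (φ n)) atTop (𝓝 p) := hy0.comp hφ.tendsto_atTop
  have lt : Tendsto (fun n => r (φ n + N)) atTop (𝓝 0) :=
    (hc.rad.comp (tendsto_add_atTop_nat N)).comp hφ.tendsto_atTop
  have hσ : ∀ᶠ n in atTop, (q (φ n)).1 = σ :=
    l1.eventually (IsOpen.mem_nhds (isOpen_discrete {σ}) rfl)
  have ldt : Tendsto (fun n => |dt (b (φ n))|) atTop (𝓝 |dt b'|) :=
    ((continuous_dt.tendsto b').comp lb).abs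
  have hlow : V₀ ≤ |dt b'| := ge_of_tendsto' ldt fun n => (hst (φ n)).low
  have hup := le_of_tendsto' ldt fun n => (hst (φ n)).up
  have hdt0 : 0 < |dt b'| := hV₀.trans_le hlow
  have hdt : dt b' ≠ 0 := abs_pos.1 hdt0
  have hnear : ∀ n z, z ∈ interior K → r (φ n + N) < ‖z - p‖ → z ∈ interior (Kn (φ n + N)) :=
    fun n z h1 h2 => hc.near _ z h1 h2
  have hpk : IsPack K (fam s v' b') := pack_lim' hp lt hnear lv lb fun n => (hst (φ n)).pk
  have hbn : ∀ n, dt (b (φ n)) ≠ 0 := fun n => (hst (φ n)).dt0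
  have hpK : p ∈ K := bK.cpt.isClosed.mem_of_tendsto ly
    (Eventually.of_forall fun n => interior_subset (hst (φ n)).hyi)
  refine ⟨v', b', hdt, hpk, ?_, σ, c', ?_, ?_, hpK, ?_, fun n => Kn (φ n + N),
    fun n => r (φ n + N), fun n => y (φ n), fun n => (q (φ n)).2, lt, ly, lc, hnear, ?_⟩
  · refine le_antisymm (le_dS hdt hpk) ?_
    rw [den_fam bK hdt hpk, hδ]
    apply ENNReal.ofReal_le_ofReal
    rw [le_div_iff₀ hδ0] at hup
    rw [le_div_iff₀ hdt0]
    linarith
  · cases σ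
    · refine Or.inl ⟨rfl, lat_lim hdt hbn lb lc ?_⟩
      filter_upwards [hσ] with n hn
      exact (fam_lat (hst (φ n)).hq).1 hn
    · obtain ⟨n, hn⟩ := hσ.exists
      refine Or.inr ⟨((fam_lat (hst (φ n)).hq).2 hn).1, rfl, c' - v', ?_, ?_⟩
      · refine lat_lim hdt hbn lb (lc.sub lv) ?_
        filter_upwards [hσ] with n hn
        exact ((fam_lat (hst (φ n)).hq).2 hn).2
      · show c' = v' + (c' - v')
        abel
  · intro h
    rw [Prod.mk.injEq] at h
    obtain ⟨rfl, rfl⟩ := h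
    have hell : Continuous fun x : V => ell x x := by
      unfold ell
      fun_prop
    have h1 : Tendsto (fun n => ell (q (φ n)).2 (q (φ n)).2) atTop (𝓝 (ell (0 : V) 0)) :=
      (hell.tendsto 0).comp lc
    have h2 : ∀ᶠ n in atTop, ρ ^ 2 ≤ ell (q (φ n)).2 (q (φ n)).2 := by
      filter_upwards [hσ] with n hn
      refine (hst (φ n)).min _ ((fam_lat (hst (φ n)).hq).1 hn) fun h0 => ?_
      exact (hst (φ n)).hq0 (Prod.ext hn h0)
    have h3 := ge_of_tendsto h1 h2
    have h4 : ell (0 : V) 0 = 0 := by simp [ell]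
    rw [h4] at h3
    have : 0 < ρ ^ 2 := by positivity
    linarith
  · cases σ
    · rw [mem_iff_false]
      refine bK.cpt.isClosed.mem_of_tendsto (ly.sub lc) ?_
      filter_upwards [hσ] with n hn
      have h1 := interior_subset (hst (φ n)).hyq
      have h2 : q (φ n) = (false, (q (φ n)).2) := Prod.ext hn rfl
      rw [h2, mem_iff_false] at h1
      exact h1
    · rw [mem_iff_true]
      refine bK.cpt.isClosed.mem_of_tendsto (lc.sub ly) ?_
      filter_upwards [hσ] with n hn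
      have h1 := interior_subset (hst (φ n)).hyq
      have h2 : q (φ n) = (true, (q (φ n)).2) := Prod.ext hn rfl
      rw [h2, mem_iff_true] at h1
      exact h1
  · filter_upwards [hσ] with n hn
    have h2 : q (φ n) = (σ, (q (φ n)).2) := Prod.ext hn rfl
    refine ⟨(hst (φ n)).hyi, ?_, ?_⟩
    · rw [← h2]
      exact (hst (φ n)).hyq
    · rw [← h2]
      exact isPack_fam.1 (hst (φ n)).pk _ (hst (φ n)).hq (hst (φ n)).hq0

/-- overlaps near other points -/
theorem keyG {K : Set V} {p : V} {σ : Bool} {c x : V} {Ln : ℕ → Set V} {t : ℕ → ℝ}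
    {yn cn : ℕ → V} (ht : Tendsto t atTop (𝓝 0)) (hy : Tendsto yn atTop (𝓝 p))
    (hc : Tendsto cn atTop (𝓝 c))
    (hn : ∀ n z, z ∈ interior K → t n < ‖z - p‖ → z ∈ interior (Ln n))
    (h : ∀ᶠ n in atTop, yn n ∈ interior K ∧ yn n ∈ interior (mem K (σ, cn n)) ∧
      Disjoint (interior (Ln n)) (interior (mem (Ln n) (σ, cn n))))
    (h1 : TT K p x) (h2 : TT (mem K (σ, c)) p x) :
    x = p ∨ x = if σ = true then c - p else p + c := by
  by_contra hcon
  push Not at hcon
  obtain ⟨a1, a2⟩ := hcon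
  have hxn : Tendsto (fun n => x + (yn n - p)) atTop (𝓝 x) := by
    have : Tendsto (fun n => x + (yn n - p)) atTop (𝓝 (x + (p - p))) :=
      tendsto_const_nhds.add (hy.sub tendsto_const_nhds)
    rwa [sub_self, add_zero] at this
  have hzn : Tendsto (fun n => yn n - (cn n - c)) atTop (𝓝 p) := by
    have : Tendsto (fun n => yn n - (cn n - c)) atTop (𝓝 (p - (c - c))) :=
      hy.sub (hc.sub tendsto_const_nhds)
    rwa [sub_self, sub_zero] at this
  have lim : ∀ {zn : ℕ → V} {z : V}, Tendsto zn atTop (𝓝 z) → z ≠ p →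
      ∀ᶠ n in atTop, t n < ‖zn n - p‖ := by
    intro zn z hz hne
    have h2 : Tendsto (fun n => ‖zn n - p‖ - t n) atTop (𝓝 (‖z - p‖ - 0)) :=
      ((hz.sub tendsto_const_nhds).norm).sub ht
    rw [sub_zero] at h2
    filter_upwards [h2.eventually_const_lt (norm_pos_iff.2 (sub_ne_zero.2 hne))] with n hn
    linarith
  have e1 := hy.eventually h1
  have e2 := hzn.eventually h2
  have e3 := lim hxn a1
  cases σ
  · rw [if_neg (by decide)] at a2
    have e4 := lim (hxn.sub hc) (z := x - c) (fun h => a2 (by rw [← h, sub_add_cancel]))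
    obtain ⟨n, ⟨b1, b2, b3⟩, b4, b5, b6, b7⟩ :=
      (h.and (e1.and (e2.and (e3.and e4)))).exists
    rw [interior_mem] at b2 b3 b5
    rw [mem_iff_false] at b2
    have c0 : yn n - (cn n - c) - c = yn n - cn n := by abel
    have c1 := mem_iff_false.1 (b5 (mem_iff_false.2 (by rwa [c0])))
    have c2 : x + (yn n - p) - cn n ∈ interior K := by
      have e : x + (yn n - p) - cn n = x + (yn n - (cn n - c) - p) - c := by abel
      rw [e]
      exact c1
    refine Set.disjoint_left.1 b3 (hn _ _ (b4 b1) b6) ?_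
    rw [mem_iff_false]
    exact hn _ _ c2 b7
  · rw [if_pos rfl] at a2
    have e4 := lim (hc.sub hxn) (z := c - x) (fun h => a2 (by rw [← h, sub_sub_cancel]))
    obtain ⟨n, ⟨b1, b2, b3⟩, b4, b5, b6, b7⟩ :=
      (h.and (e1.and (e2.and (e3.and e4)))).exists
    rw [interior_mem] at b2 b3 b5
    rw [mem_iff_true] at b2
    have c0 : c - (yn n - (cn n - c)) = cn n - yn n := by abel
    have c1 := mem_iff_true.1 (b5 (mem_iff_true.2 (by rwa [c0])))
    have c2 : cn n - (x + (yn n - p)) ∈ interior K := by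
      have e : cn n - (x + (yn n - p)) = c - (x + (yn n - (cn n - c) - p)) := by abel
      rw [e]
      exact c1
    refine Set.disjoint_left.1 b3 (hn _ _ (b4 b1) b6) ?_
    rw [mem_iff_true]
    exact hn _ _ c2 b7

end Pool.Agent.J4.H72.PK
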