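import Pool.Agent.J4.H72.PK.Cap

/-! Contact points of local minimisers. -/

set_option autoImplicit false

namespace Pool.Agent.J4.H72.PK

open MeasureTheory Set Filter Topology
open scoped Pointwise ENNReal
open Pool.Agent.TH219.DL Pool.Agent.H349R2.Tet

attribute [local irreducible] dt

theorem dS_ofReal {K : Set V} (hK : Bd K) (s : Bool) :
    dS s K = ENNReal.ofReal (dS s K).toReal ∧ 0 < (dS s K).toReal := by
  have h1 : dS s K ≠ ∞ := ((dS_le_one hK s).trans_lt (by simp)).ne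
  exact ⟨(ENNReal.ofReal_toReal h1).symm, ENNReal.toReal_pos (dS_pos hK s).ne' h1⟩

theorem trunc {s : Bool} {K K' : Set V} (hK : Bd K) (hK' : Bd K')
    (hv : volume.real K' < volume.real K) (hd : dS s K ≤ dS s K') :
    ∃ (v : V) (b : Fin 3 → V), dt b ≠ 0 ∧ IsPack K' (fam s v b) ∧
      |dt b| * (dS s K).toReal < mS s * volume.real K ∧ ¬ IsPack K (fam s v b) := by
  obtain ⟨hδ, hδ0⟩ := dS_ofReal hK s
  set δ := (dS s K).toReal with hδd
  have hV := hK.rpos
  have hV' := hK'.rpos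
  have h1 : ENNReal.ofReal (δ * (volume.real K' / volume.real K)) < dS s K' := by
    refine lt_of_lt_of_le ?_ hd
    rw [hδ, ENNReal.ofReal_lt_ofReal_iff hδ0]
    have : volume.real K' / volume.real K < 1 := (div_lt_one hV).2 hv
    nlinarith
  unfold dS at h1
  rw [lt_iSup_iff] at h1
  obtain ⟨v, h1⟩ := h1
  rw [lt_iSup_iff] at h1
  obtain ⟨b, h1⟩ := h1
  rw [lt_iSup_iff] at h1
  obtain ⟨⟨hli, hpk⟩, h1⟩ := h1
  have hb : dt b ≠ 0 := (dt_ne_zero_iff b).2 hli
  have hdt : 0 < |dt b| := abs_pos.2 hb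
  rw [den_fam hK' hb hpk, ENNReal.ofReal_lt_ofReal_iff_of_nonneg (by positivity),
    lt_div_iff₀ hdt] at h1
  have h2 : |dt b| * δ < mS s * volume.real K := by
    have h3 : δ * (volume.real K' / volume.real K) * |dt b| =
        (|dt b| * δ) * volume.real K' / volume.real K := by ring
    rw [h3, div_lt_iff₀ hV] at h1
    have h4 : mS s * volume.real K' * volume.real K =
        (mS s * volume.real K) * volume.real K' := by ring
    rw [h4] at h1
    exact lt_of_mul_lt_mul_right h1 hV'.le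
  refine ⟨v, b, hb, hpk, h2, fun hp => ?_⟩
  have h3 := le_dS (s := s) (v := v) hb hp
  rw [den_fam hK hb hp, hδ, ENNReal.ofReal_le_ofReal_iff hδ0.le, div_le_iff₀ hdt] at h3
  linarith

theorem min_vec {s : Bool} {K : Set V} {v : V} {b : Fin 3 → V} (hp : IsPack K (fam s v b))
    {x : V} {ρ : ℝ} (hρ : 0 < ρ) (hb : Metric.ball x ρ ⊆ interior K) {u : V} (hu : u ∈ lat b)
    (hu0 : u ≠ 0) : ρ ^ 2 ≤ ell u u := by
  by_contra h
  push Not at h
  have h1 : ‖u‖ < ρ := by
    rw [pi_norm_lt_iff hρ]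
    intro i
    have h3 : u i * u i ≤ ell u u :=
      Finset.single_le_sum (f := fun i => u i * u i) (fun j _ => mul_self_nonneg _)
        (Finset.mem_univ i)
    rw [Real.norm_eq_abs, ← abs_of_pos hρ]
    apply sq_lt_sq.1
    nlinarith
  have h2 := isPack_fam.1 hp (false, u) (Or.inl ⟨rfl, hu⟩) (fun e => hu0 (congrArg Prod.snd e))
  rw [interior_mem, Set.disjoint_left] at h2
  refine h2 (hb (Metric.mem_ball_self hρ)) ?_
  rw [mem_iff_false]
  apply hb
  rw [Metric.mem_ball, dist_eq_norm, sub_sub_cancel_left, norm_neg]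
  exact h1

theorem normalise {s : Bool} {K : Set V} {v : V} {b : Fin 3 → V} (hb : dt b ≠ 0)
    {ρ D : ℝ} (hρ : 0 < ρ) (hmin : ∀ u ∈ lat b, u ≠ 0 → ρ ^ 2 ≤ ell u u) (hD : |dt b| ≤ D) :
    ∃ (v' : V) (b' : Fin 3 → V), dt b' ≠ 0 ∧ |dt b'| = |dt b| ∧ lat b' = lat b ∧
      fam s v' b' = fam s v b ∧ (∀ i, ‖b' i‖ ≤ D ^ 2 / (9 / 100 * ρ ^ 4) + 1) ∧
      ‖v'‖ ≤ 3 * (D ^ 2 / (9 / 100 * ρ ^ 4) + 1) := by
  obtain ⟨b', h1, h2, h3⟩ := reduce hb hρ hmin hD
  set C := D ^ 2 / (9 / 100 * ρ ^ 4) with hC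
  have hC0 : 0 ≤ C := by positivity
  have hb' : dt b' ≠ 0 := by
    rw [← abs_pos, h2, abs_pos]; exact hb
  have h4 : ∀ i, ‖b' i‖ ≤ C + 1 := by
    intro i
    rw [pi_norm_le_iff_of_nonneg (by positivity)]
    intro j
    have h5 : b' i j * b' i j ≤ ell (b' i) (b' i) :=
      Finset.single_le_sum (f := fun j => b' i j * b' i j) (fun j _ => mul_self_nonneg _)
        (Finset.mem_univ j)
    have h6 := h5.trans (h3 i)
    rw [Real.norm_eq_abs, abs_le]
    constructor <;> nlinarith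
  obtain ⟨u, hu, hu'⟩ := mod_lat hb' h4 v
  refine ⟨v - u, b', hb', h2, h1, ?_, h4, hu'⟩
  refine fam_congr h1 ?_
  rw [sub_sub_cancel, ← h1]
  exact hu

/-- a step of the approximation -/
structure Stp (s : Bool) (K : Set V) (w : V) (τ ρ C V₀ D : ℝ) (v : V) (b : Fin 3 → V)
    (q : Bool × V) (y : V) : Prop where
  dt0 : dt b ≠ 0
  low : V₀ ≤ |dt b|
  up : |dt b| ≤ D
  pk : IsPack (lo K w τ) (fam s v b)
  min : ∀ u ∈ lat b, u ≠ 0 → ρ ^ 2 ≤ ell u u
  hb : ∀ i, ‖b i‖ ≤ C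
  hv : ‖v‖ ≤ 3 * C
  hq : q ∈ fam s v b
  hq0 : q ≠ (false, 0)
  hy : y ∈ K
  hyt : τ ≤ ell w y
  hyq : y ∈ mem K q

theorem exists_stp {s : Bool} {K : Set V} (hK : LocMin (dS s) K) {w : V} (hw : w ≠ 0) :
    ∃ ρ C V₀ : ℝ, 0 < ρ ∧ 0 < V₀ ∧ ∃ t : ℕ → ℝ, (∀ n, 0 < t n) ∧ Tendsto t atTop (𝓝 0) ∧
      ∀ n, ∃ v b q y, Stp s K w (hs K w - t n) ρ C V₀
        (mS s * volume.real K / (dS s K).toReal) v b q y := by
  obtain ⟨hKb, η, hη, hmin⟩ := hK
  have bK := body_bd hKb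
  obtain ⟨hδ, hδ0⟩ := dS_ofReal bK s
  obtain ⟨x₀, hx₀⟩ := bK.int
  have hlt := int_lt bK hw hx₀
  set M := hs K w with hM
  set m := ell w x₀ with hm
  obtain ⟨R, hR⟩ := bK.cpt.isBounded.exists_norm_le
  have hR0 : 0 ≤ R := (norm_nonneg _).trans (hR x₀ (interior_subset hx₀))
  have hR2 : ∀ x ∈ K, ‖x - x₀‖ ≤ 2 * R := fun x hx => by
    have h1 := norm_sub_le x x₀
    have h2 := hR x hx
    have h3 := hR x₀ (interior_subset hx₀)
    linarith
  set t₀ := min ((M - m) / 2) (η * (M - m) / (2 * R + 1)) with ht₀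
  have hMm : 0 < M - m := by linarith
  have ht0 : 0 < t₀ := lt_min (by positivity) (by positivity)
  have ht1 : t₀ ≤ (M - m) / 2 := min_le_left _ _
  have ht2 : t₀ ≤ η * (M - m) / (2 * R + 1) := min_le_right _ _
  set t : ℕ → ℝ := fun n => t₀ / ((n : ℝ) + 1) with ht
  have htp : ∀ n, 0 < t n := fun n => by rw [ht]; positivity
  have htl : ∀ n, t n ≤ t₀ := fun n => by
    rw [ht]
    simp only
    rw [div_le_iff₀ (by positivity)]
    have : (0 : ℝ) ≤ n := Nat.cast_nonneg n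
    nlinarith
  have htt : Tendsto t atTop (𝓝 0) := by
    have h1 := tendsto_one_div_add_atTop_nhds_zero_nat (𝕜 := ℝ)
    have h2 := h1.const_mul t₀
    rw [mul_zero] at h2
    refine h2.congr fun n => ?_
    rw [ht]
    simp only
    ring
  -- the truncated bodies
  have hlow : ∀ n, ell w x₀ < M - t n := fun n => by
    have := htl n
    show m < M - t n
    linarith
  have bKn : ∀ n, Bd (lo K w (M - t n)) := fun n => lo_bd bK hx₀ (hlow n)
  have hlow0 : ell w x₀ < M - t₀ := by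
    show m < M - t₀
    linarith
  have bK0 : Bd (lo K w (M - t₀)) := lo_bd bK hx₀ hlow0
  have hsub : ∀ n, lo K w (M - t₀) ⊆ lo K w (M - t n) := fun n => by
    rintro x ⟨hx1, hx2⟩
    have hx2 : ell w x ≤ M - t₀ := hx2
    exact ⟨hx1, show ell w x ≤ M - t n by linarith [htl n]⟩
  obtain ⟨ρ, hρ, hball⟩ := Metric.isOpen_iff.1 isOpen_interior x₀ (lo_int hx₀ hlow0)
  set D := mS s * volume.real K / (dS s K).toReal with hD
  refine ⟨ρ, D ^ 2 / (9 / 100 * ρ ^ 4) + 1, mS s * volume.real (lo K w (M - t₀)), hρ,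
    mul_pos (mS_pos s) bK0.rpos, t, htp, htt, fun n => ?_⟩
  have hdist : Metric.hausdorffDist K (lo K w (M - t n)) ≤ η := by
    have h1 := lo_dist (w := w) (t := t n) bK (interior_subset hx₀) hlt (htp n).le
      (by linarith [htl n]) hR2
    refine h1.trans ?_
    show t n / (M - m) * (2 * R) ≤ η
    have h2 : t n * (2 * R + 1) ≤ η * (M - m) := by
      have := (htl n).trans ht2
      rwa [le_div_iff₀ (by positivity)] at this
    rw [div_mul_eq_mul_div, div_le_iff₀ hMm]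
    nlinarith [htp n]
  have hle := hmin _ (bKn n).body hdist
  obtain ⟨v, b, hb, hpk, hdt, hnp⟩ := trunc bK (bKn n) (lo_vol bK (by linarith [htp n])) hle
  have hdt' : |dt b| ≤ D := by
    rw [hD, le_div_iff₀ hδ0]
    exact hdt.le
  have hmv : ∀ u ∈ lat b, u ≠ 0 → ρ ^ 2 ≤ ell u u := fun u hu hu0 =>
    min_vec hpk hρ (hball.trans (interior_mono (hsub n))) hu hu0
  obtain ⟨v', b', hb', hdb, hlat, hfam, hbb, hvv⟩ :=
    normalise (s := s) (K := K) (v := v) hb hρ hmv hdt'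
  obtain ⟨q, hq, hq0, y, hy1, hy2, hy3⟩ := not_pack hnp hpk
  refine ⟨v', b', q, y, ?_⟩
  exact
    { dt0 := hb'
      low := by
        rw [hdb]
        refine le_trans ?_ (dt_low (bKn n) hb hpk)
        exact mul_le_mul_of_nonneg_left (measureReal_mono (hsub n) (bKn n).fin) (mS_pos s).le
      up := by rw [hdb]; exact hdt'
      pk := by rw [hfam]; exact hpk
      min := by rw [hlat]; exact hmv
      hb := hbb
      hv := hvv
      hq := by rw [hfam]; exact hq
      hq0 := hq0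
      hy := interior_subset hy1
      hyt := by
        by_contra h
        push Not at h
        exact hy2 (lo_int hy1 h)
      hyq := interior_subset hy3 }

end Pool.Agent.J4.H72.PK
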