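import Pool.Agent.J4.H72.PK.Strict
import Pool.Agent.Q19.DB.Cone

/-! Limits of overlapping pairs. -/

set_option autoImplicit false

namespace Pool.Agent.J4.H72.PK

open MeasureTheory Set Filter Topology
open scoped Pointwise ENNReal
open Pool.Agent.TH219.DL Pool.Agent.H349R2.Tet

attribute [local irreducible] dt

/-- as `exists_stp`, with the information that the interiors overlap -/
theorem exists_stp2 {s : Bool} {K : Set V} (hK : LocMin (dS s) K) {w : V} (hw : w ≠ 0) :
    ∃ ρ C V₀ : ℝ, 0 < ρ ∧ 0 < V₀ ∧ ∃ t : ℕ → ℝ, (∀ n, 0 < t n) ∧ Tendsto t atTop (𝓝 0) ∧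
      ∀ n, ∃ v b q y, Stp s K w (hs K w - t n) ρ C V₀
        (mS s * volume.real K / (dS s K).toReal) v b q y ∧ y ∈ interior K ∧
        y ∈ interior (mem K q) := by
  obtain ⟨hKb, η, hη, hmin⟩ := hK
  have bK := body_bd hKb
  obtain ⟨hδ, hδ0⟩ := dS_ofReal bK s
  obtain ⟨x₀, hx₀⟩ := bK.int
  have hlt := int_lt bK hw hx₀
  set M := hs K w with hM
  set m := ell w x₀ with hm
  obtain ⟨R, hR⟩ := bK.cpt.isBounded.exists_norm_le
  have hR0 : 0 ≤ R := (norm_nonneg _).trans (hR x₀ (interior_subset hx₀))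
  have hR2 : ∀ x ∈ K, ‖x - x₀‖ ≤ 2 * R := fun x hx => by
    have h1 := norm_sub_le x x₀
    have h2 := hR x hx
    have h3 := hR x₀ (interior_subset hx₀)
    linarith
  set t₀ := min ((M - m) / 2) (η * (M - m) / (2 * R + 1)) with ht₀
  have hMm : 0 < M - m := by linarith
  have ht0 : 0 < t₀ := lt_min (by positivity) (by positivity)
  have ht1 : t₀ ≤ (M - m) / 2 := min_le_left _ _
  have ht2 : t₀ ≤ η * (M - m) / (2 * R + 1) := min_le_right _ _
  set t : ℕ → ℝ := fun n => t₀ / ((n : ℝ) + 1) with ht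
  have htp : ∀ n, 0 < t n := fun n => by rw [ht]; positivity
  have htl : ∀ n, t n ≤ t₀ := fun n => by
    rw [ht]
    simp only
    rw [div_le_iff₀ (by positivity)]
    have : (0 : ℝ) ≤ n := Nat.cast_nonneg n
    nlinarith
  have htt : Tendsto t atTop (𝓝 0) := by
    have h1 := tendsto_one_div_add_atTop_nhds_zero_nat (𝕜 := ℝ)
    have h2 := h1.const_mul t₀
    rw [mul_zero] at h2
    refine h2.congr fun n => ?_
    rw [ht]
    simp only
    ring
  -- the truncated bodies
  have hlow : ∀ n, ell w x₀ < M - t n := fun n => by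
    have := htl n
    show m < M - t n
    linarith
  have bKn : ∀ n, Bd (lo K w (M - t n)) := fun n => lo_bd bK hx₀ (hlow n)
  have hlow0 : ell w x₀ < M - t₀ := by
    show m < M - t₀
    linarith
  have bK0 : Bd (lo K w (M - t₀)) := lo_bd bK hx₀ hlow0
  have hsub : ∀ n, lo K w (M - t₀) ⊆ lo K w (M - t n) := fun n => by
    rintro x ⟨hx1, hx2⟩
    have hx2 : ell w x ≤ M - t₀ := hx2
    exact ⟨hx1, show ell w x ≤ M - t n by linarith [htl n]⟩
  obtain ⟨ρ, hρ, hball⟩ := Metric.isOpen_iff.1 isOpen_interior x₀ (lo_int hx₀ hlow0)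
  set D := mS s * volume.real K / (dS s K).toReal with hD
  refine ⟨ρ, D ^ 2 / (9 / 100 * ρ ^ 4) + 1, mS s * volume.real (lo K w (M - t₀)), hρ,
    mul_pos (mS_pos s) bK0.rpos, t, htp, htt, fun n => ?_⟩
  have hdist : Metric.hausdorffDist K (lo K w (M - t n)) ≤ η := by
    have h1 := lo_dist (w := w) (t := t n) bK (interior_subset hx₀) hlt (htp n).le
      (by linarith [htl n]) hR2
    refine h1.trans ?_
    show t n / (M - m) * (2 * R) ≤ η
    have h2 : t n * (2 * R + 1) ≤ η * (M - m) := by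
      have := (htl n).trans ht2
      rwa [le_div_iff₀ (by positivity)] at this
    rw [div_mul_eq_mul_div, div_le_iff₀ hMm]
    nlinarith [htp n]
  have hle := hmin _ (bKn n).body hdist
  obtain ⟨v, b, hb, hpk, hdt, hnp⟩ := trunc bK (bKn n) (lo_vol bK (by linarith [htp n])) hle
  have hdt' : |dt b| ≤ D := by
    rw [hD, le_div_iff₀ hδ0]
    exact hdt.le
  have hmv : ∀ u ∈ lat b, u ≠ 0 → ρ ^ 2 ≤ ell u u := fun u hu hu0 =>
    min_vec hpk hρ (hball.trans (interior_mono (hsub n))) hu hu0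
  obtain ⟨v', b', hb', hdb, hlat, hfam, hbb, hvv⟩ :=
    normalise (s := s) (K := K) (v := v) hb hρ hmv hdt'
  obtain ⟨q, hq, hq0, y, hy1, hy2, hy3⟩ := not_pack hnp hpk
  refine ⟨v', b', q, y, ?_, hy1, hy3⟩
  exact
    { dt0 := hb'
      low := by
        rw [hdb]
        refine le_trans ?_ (dt_low (bKn n) hb hpk)
        exact mul_le_mul_of_nonneg_left (measureReal_mono (hsub n) (bKn n).fin) (mS_pos s).le
      up := by rw [hdb]; exact hdt'
      pk := by rw [hfam]; exact hpk
      min := by rw [hlat]; exact hmv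
      hb := hbb
      hv := hvv
      hq := by rw [hfam]; exact hq
      hq0 := hq0
      hy := interior_subset hy1
      hyt := by
        by_contra h
        push Not at h
        exact hy2 (lo_int hy1 h)
      hyq := interior_subset hy3 }


/-- A limit of packings of truncated bodies which are not packings of `K`: the pair of members `K`,
`mem K (σ, c)` is the limit of pairs which overlap, but not after truncation. -/
theorem contact2 {s : Bool} {K : Set V} (hK : LocMin (dS s) K) {w : V} (hw : w ≠ 0) :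
    ∃ (v : V) (b : Fin 3 → V), dt b ≠ 0 ∧ IsPack K (fam s v b) ∧
      den K (fam s v b) = dS s K ∧ ∃ (σ : Bool) (c : V), (σ, c) ∈ fam s v b ∧
        (σ, c) ≠ (false, 0) ∧
        ∃ y ∈ K, ell w y = hs K w ∧ y ∈ mem K (σ, c) ∧
        ∃ (t : ℕ → ℝ) (yn cn : ℕ → V), Tendsto t atTop (𝓝 0) ∧ Tendsto yn atTop (𝓝 y) ∧
          Tendsto cn atTop (𝓝 c) ∧ ∀ᶠ n in atTop, yn n ∈ interior K ∧
            yn n ∈ interior (mem K (σ, cn n)) ∧
            Disjoint (interior (lo K w (hs K w - t n)))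
              (interior (mem (lo K w (hs K w - t n)) (σ, cn n))) := by
  have bK := body_bd hK.1
  obtain ⟨hδ, hδ0⟩ := dS_ofReal bK s
  obtain ⟨ρ, C, V₀, hρ, hV₀, t, htp, htt, h⟩ := exists_stp2 hK hw
  choose v b q y hst hyi hqi using h
  obtain ⟨R, hR⟩ := bK.cpt.isBounded.exists_norm_le
  have hC0 : 0 ≤ C := (norm_nonneg _).trans ((hst 0).hb 0)
  have hR0 : 0 ≤ R := (norm_nonneg _).trans (hR _ (hst 0).hy)
  have hqb : ∀ n, ‖(q n).2‖ ≤ 2 * R := by
    intro n
    have h1 := hR _ (hst n).hy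
    have h2 := (hst n).hyq
    rcases hq : q n with ⟨σ, c⟩
    rw [hq] at h2
    cases σ
    · rw [mem_iff_false] at h2
      have h3 := hR _ h2
      have h4 := norm_sub_le (y n) (y n - c)
      rw [sub_sub_cancel] at h4
      show ‖c‖ ≤ 2 * R
      linarith
    · rw [mem_iff_true] at h2
      have h3 := hR _ h2
      have h4 := norm_add_le (c - y n) (y n)
      rw [sub_add_cancel] at h4
      show ‖c‖ ≤ 2 * R
      linarith
  set B := 3 * C + 2 * R with hB
  have hmem : ∀ n, (((q n).1, (v n, b n, (q n).2, y n)) :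
      Bool × (V × (Fin 3 → V) × V × V)) ∈
      (univ : Set Bool) ×ˢ Metric.closedBall (0 : V × (Fin 3 → V) × V × V) B := by
    intro n
    refine ⟨trivial, ?_⟩
    rw [mem_closedBall_zero_iff, norm_prod_le_iff, norm_prod_le_iff, norm_prod_le_iff]
    refine ⟨?_, ?_, ?_, ?_⟩
    · show ‖v n‖ ≤ B
      have := (hst n).hv
      linarith
    · show ‖b n‖ ≤ B
      rw [pi_norm_le_iff_of_nonneg (by positivity)]
      intro i
      have := (hst n).hb i
      linarith
    · show ‖(q n).2‖ ≤ B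
      have := hqb n
      linarith
    · show ‖y n‖ ≤ B
      have := hR _ (hst n).hy
      linarith
  obtain ⟨⟨σ, v', b', c', y'⟩, -, φ, hφ, hlim⟩ :=
    (isCompact_univ.prod (isCompact_closedBall (0 : V × (Fin 3 → V) × V × V) B)).tendsto_subseq
      hmem
  have l1 : Tendsto (fun n => (q (φ n)).1) atTop (𝓝 σ) :=
    (continuous_fst.tendsto _).comp hlim
  have l2 := (continuous_snd.tendsto _).comp hlim
  have lv : Tendsto (fun n => v (φ n)) atTop (𝓝 v') := (continuous_fst.tendsto _).comp l2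
  have l3 := (continuous_snd.tendsto _).comp l2
  have lb : Tendsto (fun n => b (φ n)) atTop (𝓝 b') := (continuous_fst.tendsto _).comp l3
  have l4 := (continuous_snd.tendsto _).comp l3
  have lc : Tendsto (fun n => (q (φ n)).2) atTop (𝓝 c') := (continuous_fst.tendsto _).comp l4
  have ly : Tendsto (fun n => y (φ n)) atTop (𝓝 y') := (continuous_snd.tendsto _).comp l4
  have lt : Tendsto (fun n => t (φ n)) atTop (𝓝 0) := htt.comp hφ.tendsto_atTop
  have hσ : ∀ᶠ n in atTop, (q (φ n)).1 = σ :=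
    l1.eventually (IsOpen.mem_nhds (isOpen_discrete {σ}) rfl)
  have ldt : Tendsto (fun n => |dt (b (φ n))|) atTop (𝓝 |dt b'|) :=
    ((continuous_dt.tendsto b').comp lb).abs
  have hlow : V₀ ≤ |dt b'| := ge_of_tendsto' ldt fun n => (hst (φ n)).low
  have hup := le_of_tendsto' ldt fun n => (hst (φ n)).up
  have hdt0 : 0 < |dt b'| := hV₀.trans_le hlow
  have hdt : dt b' ≠ 0 := abs_pos.1 hdt0
  have hpk : IsPack K (fam s v' b') := pack_lim bK hw lt lv lb fun n => (hst (φ n)).pk
  have hbn : ∀ n, dt (b (φ n)) ≠ 0 := fun n => (hst (φ n)).dt0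
  refine ⟨v', b', hdt, hpk, ?_, σ, c', ?_, ?_, y', ?_, ?_, ?_, fun n => t (φ n),
    fun n => y (φ n), fun n => (q (φ n)).2, lt, ly, lc, ?_⟩
  · refine le_antisymm (le_dS hdt hpk) ?_
    rw [den_fam bK hdt hpk, hδ]
    apply ENNReal.ofReal_le_ofReal
    rw [le_div_iff₀ hδ0] at hup
    rw [le_div_iff₀ hdt0]
    linarith
  · cases σ
    · refine Or.inl ⟨rfl, lat_lim hdt hbn lb lc ?_⟩
      filter_upwards [hσ] with n hn
      exact (fam_lat (hst (φ n)).hq).1 hn
    · obtain ⟨n, hn⟩ := hσ.exists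
      refine Or.inr ⟨((fam_lat (hst (φ n)).hq).2 hn).1, rfl, c' - v', ?_, ?_⟩
      · refine lat_lim hdt hbn lb (lc.sub lv) ?_
        filter_upwards [hσ] with n hn
        exact ((fam_lat (hst (φ n)).hq).2 hn).2
      · show c' = v' + (c' - v')
        abel
  · intro h
    rw [Prod.mk.injEq] at h
    obtain ⟨rfl, rfl⟩ := h
    have hell : Continuous fun x : V => ell x x := by
      unfold ell
      fun_prop
    have h1 : Tendsto (fun n => ell (q (φ n)).2 (q (φ n)).2) atTop (𝓝 (ell (0 : V) 0)) :=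
      (hell.tendsto 0).comp lc
    have h2 : ∀ᶠ n in atTop, ρ ^ 2 ≤ ell (q (φ n)).2 (q (φ n)).2 := by
      filter_upwards [hσ] with n hn
      refine (hst (φ n)).min _ ((fam_lat (hst (φ n)).hq).1 hn) fun h0 => ?_
      exact (hst (φ n)).hq0 (Prod.ext hn h0)
    have h3 := ge_of_tendsto h1 h2
    have h4 : ell (0 : V) 0 = 0 := by simp [ell]
    rw [h4] at h3
    have : 0 < ρ ^ 2 := by positivity
    linarith
  · exact bK.cpt.isClosed.mem_of_tendsto ly (Eventually.of_forall fun n => (hst (φ n)).hy)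
  · refine le_antisymm (le_hs bK.cpt w ?_) ?_
    · exact bK.cpt.isClosed.mem_of_tendsto ly (Eventually.of_forall fun n => (hst (φ n)).hy)
    · have h1 : Tendsto (fun n => hs K w - t (φ n)) atTop (𝓝 (hs K w - 0)) :=
        tendsto_const_nhds.sub lt
      rw [sub_zero] at h1
      exact le_of_tendsto_of_tendsto' h1 (((continuous_ell w).tendsto y').comp ly)
        fun n => (hst (φ n)).hyt
  · cases σ
    · rw [mem_iff_false]
      refine bK.cpt.isClosed.mem_of_tendsto (ly.sub lc) ?_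
      filter_upwards [hσ] with n hn
      have h1 := (hst (φ n)).hyq
      have h2 : q (φ n) = (false, (q (φ n)).2) := Prod.ext hn rfl
      rw [h2, mem_iff_false] at h1
      exact h1
    · rw [mem_iff_true]
      refine bK.cpt.isClosed.mem_of_tendsto (lc.sub ly) ?_
      filter_upwards [hσ] with n hn
      have h1 := (hst (φ n)).hyq
      have h2 : q (φ n) = (true, (q (φ n)).2) := Prod.ext hn rfl
      rw [h2, mem_iff_true] at h1
      exact h1
  · filter_upwards [hσ] with n hn
    have h2 : q (φ n) = (σ, (q (φ n)).2) := Prod.ext hn rfl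
    refine ⟨hyi (φ n), ?_, ?_⟩
    · rw [← h2]
      exact hqi (φ n)
    · rw [← h2]
      exact isPack_fam.1 (hst (φ n)).pk _ (hst (φ n)).hq (hst (φ n)).hq0

end Pool.Agent.J4.H72.PK
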