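import Pool.Agent.J4.H72.PK.Lim2

/-! Overlaps near other points of the contact set. -/

set_option autoImplicit false

namespace Pool.Agent.J4.H72.PK

open MeasureTheory Set Filter Topology
open scoped Pointwise ENNReal
open Pool.Agent.TH219.DL Pool.Agent.H349R2.Tet

attribute [local irreducible] dt

/-- near `y` the interior of `A`, translated by `x - y`, is contained in the interior of `A` -/
def TT (A : Set V) (y x : V) : Prop :=
  ∀ᶠ z in 𝓝 y, z ∈ interior A → x + (z - y) ∈ interior A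

theorem key {K : Set V} {w : V} {σ : Bool} {c y x : V} {t : ℕ → ℝ}
    {yn cn : ℕ → V} (ht : Tendsto t atTop (𝓝 0)) (hy : Tendsto yn atTop (𝓝 y))
    (hc : Tendsto cn atTop (𝓝 c))
    (h : ∀ᶠ n in atTop, yn n ∈ interior K ∧ yn n ∈ interior (mem K (σ, cn n)) ∧
      Disjoint (interior (lo K w (hs K w - t n)))
        (interior (mem (lo K w (hs K w - t n)) (σ, cn n))))
    (h1 : TT K y x) (h2 : TT (mem K (σ, c)) y x) :
    hs K w ≤ ell w x ∨ (σ = false ∧ hs K w ≤ ell w (x - c)) ∨
      (σ = true ∧ hs K w ≤ ell w (c - x)) := by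
  by_contra hcon
  push Not at hcon
  obtain ⟨a1, a2, a3⟩ := hcon
  have hxn : Tendsto (fun n => x + (yn n - y)) atTop (𝓝 x) := by
    have : Tendsto (fun n => x + (yn n - y)) atTop (𝓝 (x + (y - y))) :=
      tendsto_const_nhds.add (hy.sub tendsto_const_nhds)
    rwa [sub_self, add_zero] at this
  have hzn : Tendsto (fun n => yn n - (cn n - c)) atTop (𝓝 y) := by
    have : Tendsto (fun n => yn n - (cn n - c)) atTop (𝓝 (y - (c - c))) :=
      hy.sub (hc.sub tendsto_const_nhds)
    rwa [sub_self, sub_zero] at this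
  have lim : ∀ {zn : ℕ → V} {z : V}, Tendsto zn atTop (𝓝 z) → ell w z < hs K w →
      ∀ᶠ n in atTop, ell w (zn n) < hs K w - t n := by
    intro zn z hz hlt
    have h3 : Tendsto (fun n => ell w (zn n) + t n) atTop (𝓝 (ell w z + 0)) :=
      (((continuous_ell w).tendsto z).comp hz).add ht
    rw [add_zero] at h3
    filter_upwards [h3.eventually_lt_const hlt] with n hn
    linarith
  have e1 := hy.eventually h1
  have e2 := hzn.eventually h2
  have e3 := lim hxn a1
  cases σ
  · have a2 := a2 rfl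
    have e4 := lim (hxn.sub hc) a2
    obtain ⟨n, ⟨b1, b2, b3⟩, b4, b5, b6, b7⟩ :=
      (h.and (e1.and (e2.and (e3.and e4)))).exists
    rw [interior_mem] at b2 b3 b5
    rw [mem_iff_false] at b2
    have c0 : yn n - (cn n - c) - c = yn n - cn n := by abel
    have c1 := mem_iff_false.1 (b5 (mem_iff_false.2 (by rwa [c0])))
    have c2 : x + (yn n - y) - cn n ∈ interior K := by
      have e : x + (yn n - y) - cn n = x + (yn n - (cn n - c) - y) - c := by abel
      rw [e]
      exact c1
    refine Set.disjoint_left.1 b3 (lo_int (b4 b1) b6) ?_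
    rw [mem_iff_false]
    exact lo_int c2 b7
  · have a3 := a3 rfl
    have e4 := lim (hc.sub hxn) a3
    obtain ⟨n, ⟨b1, b2, b3⟩, b4, b5, b6, b7⟩ :=
      (h.and (e1.and (e2.and (e3.and e4)))).exists
    rw [interior_mem] at b2 b3 b5
    rw [mem_iff_true] at b2
    have c0 : c - (yn n - (cn n - c)) = cn n - yn n := by abel
    have c1 := mem_iff_true.1 (b5 (mem_iff_true.2 (by rwa [c0])))
    have c2 : cn n - (x + (yn n - y)) ∈ interior K := by
      have e : cn n - (x + (yn n - y)) = c - (x + (yn n - (cn n - c) - y)) := by abel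
      rw [e]
      exact c1
    refine Set.disjoint_left.1 b3 (lo_int (b4 b1) b6) ?_
    rw [mem_iff_true]
    exact lo_int c2 b7

/-! ### bodies with a flat part at `y` -/

theorem TT_flat {A : Set V} (hA : Convex ℝ A) {f : V →ₗ[ℝ] ℝ} {κ : ℝ} {k y a b : V}
    (hk : k ∈ interior A) (hf : ∀ z ∈ interior A, f z < κ) (hy : y ∈ A) (ha : a ∈ A) (hb : b ∈ A)
    (fy : f y = κ) (fa : f a = κ) (fb : f b = κ)
    (hli : LinearIndependent ℝ ![k - y, a - y, b - y]) {r₁ r₂ : ℝ} (hr₁ : 0 < r₁) (hr₂ : 0 < r₂)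
    (hr : r₁ + r₂ < 1) : TT A y (y + r₁ • (a - y) + r₂ • (b - y)) := by
  have hcard : Fintype.card (Fin 3) = Module.finrank ℝ V := by simp [V]
  set B := basisOfLinearIndependentOfCardEqFinrank hli hcard with hB
  have hBv : ∀ i, B i = ![k - y, a - y, b - y] i := by intro i; simp [hB]
  have hcont : ∀ i, Continuous fun z : V => B.repr z i := fun i =>
    (B.coord i).continuous_of_finiteDimensional
  have hdec : ∀ z : V, z = B.repr z 0 • (k - y) + B.repr z 1 • (a - y) + B.repr z 2 • (b - y) := by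
    intro z
    have := B.sum_repr z
    rw [Fin.sum_univ_three, hBv, hBv, hBv] at this
    exact this.symm
  have hz0 : ∀ i, Tendsto (fun z : V => B.repr (z - y) i) (𝓝 y) (𝓝 0) := by
    intro i
    have h1 : Tendsto (fun z : V => B.repr (z - y) i) (𝓝 y) (𝓝 (B.repr (y - y) i)) :=
      ((hcont i).comp (continuous_id.sub continuous_const)).tendsto y
    simpa using h1
  have e0 := (hz0 1).eventually_const_lt (show -r₁ < 0 by linarith)
  have e1 := (hz0 2).eventually_const_lt (show -r₂ < 0 by linarith)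
  have hs3 : Tendsto (fun z : V => B.repr (z - y) 1 + B.repr (z - y) 2 + B.repr (z - y) 0) (𝓝 y)
      (𝓝 (0 + 0 + 0)) := ((hz0 1).add (hz0 2)).add (hz0 0)
  have e2 := hs3.eventually_lt_const (show (0 : ℝ) + 0 + 0 < 1 - r₁ - r₂ by linarith)
  filter_upwards [e0, e1, e2] with z h0 h1 h2 hz
  set s0 := B.repr (z - y) 1 with hs0
  set s1 := B.repr (z - y) 2 with hs1
  set s2 := B.repr (z - y) 0 with hs2
  have hzd := hdec (z - y)
  rw [← hs0, ← hs1, ← hs2] at hzd
  have hpos : 0 < s2 := by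
    have h3 := congrArg f hzd
    simp only [map_sub, map_add, map_smul, smul_eq_mul, fy, fa, fb, sub_self, mul_zero,
      add_zero] at h3
    have h4 := hf z hz
    have h5 := hf k hk
    by_contra hcon
    push Not at hcon
    have : 0 ≤ s2 * (f k - κ) := mul_nonneg_of_nonpos_of_nonpos hcon (by linarith)
    linarith
  have e : y + r₁ • (a - y) + r₂ • (b - y) + (z - y) =
      (1 - s2) • ((1 - s2)⁻¹ • ((1 - (r₁ + s0) - (r₂ + s1) - s2) • y + (r₁ + s0) • a +
        (r₂ + s1) • b)) + s2 • k := by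
    have h3 : (1 - s2) ≠ 0 := by linarith
    rw [smul_smul, mul_inv_cancel₀ h3, one_smul, hzd]
    module
  rw [e]
  have h3 : 0 < 1 - s2 := by linarith
  refine hA.combo_self_interior_mem_interior ?_ hk h3.le hpos (by ring)
  rw [smul_add, smul_add, smul_smul, smul_smul, smul_smul]
  have h4 : ∀ q : ℝ, 0 ≤ q → 0 ≤ (1 - s2)⁻¹ * q := fun q hq =>
    mul_nonneg (inv_nonneg.2 h3.le) hq
  have := hA.sum_mem (t := Finset.univ) (w := ![(1 - s2)⁻¹ * (1 - (r₁ + s0) - (r₂ + s1) - s2),
    (1 - s2)⁻¹ * (r₁ + s0), (1 - s2)⁻¹ * (r₂ + s1)]) (z := ![y, a, b]) ?_ ?_ ?_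
  · rw [Fin.sum_univ_three] at this
    exact this
  · intro i _
    fin_cases i
    · exact h4 _ (by linarith)
    · exact h4 _ (by linarith)
    · exact h4 _ (by linarith)
  · rw [Fin.sum_univ_three]
    show (1 - s2)⁻¹ * (1 - (r₁ + s0) - (r₂ + s1) - s2) + (1 - s2)⁻¹ * (r₁ + s0) +
      (1 - s2)⁻¹ * (r₂ + s1) = 1
    field_simp
    ring
  · intro i _
    fin_cases i
    · exact hy
    · exact ha
    · exact hb

/-! ### polytopes -/

/-- a finitely generated convex set is locally conical -/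
theorem conical {E : Set V} (hE : E.Finite) {y : V} (hy : y ∈ convexHull ℝ E) {l : ℝ}
    (hl : 0 ≤ l) : ∀ᶠ z in 𝓝 y, z ∈ convexHull ℝ E → y + l • (z - y) ∈ convexHull ℝ E := by
  classical
  have : Fintype E := hE.fintype
  obtain ⟨T, s, h1, h2, h3, h4⟩ := Pool.Agent.Q19.DB.weyl' (fun e : E => (e : V) - y)
  have h5 : Tendsto (fun z : V => ∑ j, s (l • (z - y)) j) (𝓝 y) (𝓝 0) := by
    have h6 : Continuous fun z : V => ∑ j, s (l • (z - y)) j := by
      refine continuous_finsetSum _ fun j _ => ?_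
      have h0 : Continuous fun z : V => l • (z - y) := by fun_prop
      exact (continuous_apply j).comp (h1.comp h0)
    have h7 := h6.tendsto y
    have h8 : ∑ j, s (l • (y - y)) j = 0 := by
      have h9 := h3 0 le_rfl 0
      rw [zero_smul, zero_smul] at h9
      rw [sub_self, smul_zero, h9]
      simp
    rw [h8] at h7
    exact h7
  filter_upwards [h5.eventually_lt_const zero_lt_one] with z hz1 hz
  have hcone : ∀ ψ ∈ T, 0 ≤ ψ (l • (z - y)) := by
    intro ψ hψ
    rw [map_smul, smul_eq_mul]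
    refine mul_nonneg hl ?_
    have hsub : convexHull ℝ E ⊆ {x : V | 0 ≤ ψ (x - y)} := by
      refine convexHull_min (fun e he => h4 ⟨e, he⟩ ψ hψ) ?_
      intro a ha b hb u v hu hv huv
      show 0 ≤ ψ (u • a + v • b - y)
      have e : u • a + v • b - y = u • (a - y) + v • (b - y) := by
        have : y = (u + v) • y := by rw [huv, one_smul]
        conv_lhs => rw [this]
        module
      rw [e, map_add, map_smul, map_smul, smul_eq_mul, smul_eq_mul]
      exact add_nonneg (mul_nonneg hu ha) (mul_nonneg hv hb)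
    exact hsub hz
  obtain ⟨h6, h7⟩ := h2 _ hcone
  rw [← h7]
  have h8 : y + ∑ j, s (l • (z - y)) j • ((j : V) - y) =
      (1 - ∑ j, s (l • (z - y)) j) • y + ∑ j, s (l • (z - y)) j • (j : V) := by
    simp only [smul_sub, Finset.sum_sub_distrib, ← Finset.sum_smul, sub_smul, one_smul]
    abel
  rw [h8]
  set S := ∑ j, s (l • (z - y)) j with hS
  have hS0 : 0 ≤ S := Finset.sum_nonneg fun j _ => h6 j
  have hcv := convex_convexHull ℝ E
  rcases hS0.eq_or_lt with h0 | h0
  · have h9 : ∀ j ∈ Finset.univ, s (l • (z - y)) j = 0 :=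
      (Finset.sum_eq_zero_iff_of_nonneg fun j _ => h6 j).1 h0.symm
    rw [← h0, sub_zero, one_smul, Finset.sum_eq_zero fun j hj => by rw [h9 j hj, zero_smul],
      add_zero]
    exact hy
  · have e : ∑ j, s (l • (z - y)) j • (j : V) = S • ∑ j, (S⁻¹ * s (l • (z - y)) j) • (j : V) := by
      rw [Finset.smul_sum]
      refine Finset.sum_congr rfl fun j _ => ?_
      rw [smul_smul, ← mul_assoc, mul_inv_cancel₀ h0.ne', one_mul]
    rw [e]
    refine hcv hy (hcv.sum_mem (fun j _ => mul_nonneg (inv_nonneg.2 h0.le) (h6 j)) ?_ fun j _ =>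
      subset_convexHull ℝ E j.2) (by linarith) h0.le (by ring)
    rw [← Finset.mul_sum, ← hS, inv_mul_cancel₀ h0.ne']

theorem TT_of_closed {A : Set V} {y x : V} (h : ∀ᶠ z in 𝓝 y, z ∈ A → x + (z - y) ∈ A) :
    TT A y x := by
  obtain ⟨U, hU, hUo, hyU⟩ := eventually_nhds_iff.1 h
  refine eventually_nhds_iff.2 ⟨U, fun z hz hzA => ?_, hUo, hyU⟩
  have ho : IsOpen ((fun z => x + (z - y)) '' (U ∩ interior A)) := by
    have e : (fun z : V => x + (z - y)) = (Homeomorph.addLeft (x - y)) := by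
      funext z
      show x + (z - y) = x - y + z
      abel
    rw [e]
    exact (Homeomorph.addLeft (x - y)).isOpenMap _ (hUo.inter isOpen_interior)
  refine interior_maximal ?_ ho ⟨z, ⟨hz, hzA⟩, rfl⟩
  rintro _ ⟨z', ⟨h1, h2⟩, rfl⟩
  exact hU z' h1 (interior_subset h2)

theorem TT_poly {E : Set V} (hE : E.Finite) {y z : V} (hy : y ∈ convexHull ℝ E)
    (hz : z ∈ convexHull ℝ E) {r : ℝ} (hr0 : 0 < r) (hr1 : r < 1) :
    TT (convexHull ℝ E) y ((1 - r) • y + r • z) := by
  refine TT_of_closed ?_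
  have h1 : 0 < 1 - r := by linarith
  filter_upwards [conical hE hy (inv_nonneg.2 h1.le)] with x hx hxE
  have e : (1 - r) • y + r • z + (x - y) = (1 - r) • (y + (1 - r)⁻¹ • (x - y)) + r • z := by
    rw [smul_add, smul_smul, mul_inv_cancel₀ h1.ne', one_smul]
    abel
  rw [e]
  exact (convex_convexHull ℝ E) (hx hxE) hz h1.le hr0.le (by ring)

end Pool.Agent.J4.H72.PK
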