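import Pool.Agent.J4.H72.PK.Smooth

/-! The directions with inner balls on both sides form a meagre set. -/

set_option autoImplicit false

namespace Pool.Agent.J4.H72.PK

open MeasureTheory Set Filter Topology
open scoped Pointwise ENNReal
open Pool.Agent.TH219.DL Pool.Agent.H349R2.Tet

theorem exists_perp (e : V) : ∃ d : V, ell d d = 1 ∧ ell d e = 0 := by
  obtain ⟨d, hd, hd'⟩ : ∃ d : V, d ≠ 0 ∧ ell d e = 0 := by
    by_cases h : e 0 = 0 ∧ e 1 = 0
    · refine ⟨![1, 0, 0], fun h0 => ?_, ?_⟩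
      · have := congrFun h0 0
        simp at this
      · simp [ell, Fin.sum_univ_three, h.1]
    · refine ⟨![-e 1, e 0, 0], fun h0 => h ⟨?_, ?_⟩, ?_⟩
      · have := congrFun h0 1
        simpa using this
      · have := congrFun h0 0
        simpa using this
      · simp [ell, Fin.sum_univ_three]
        ring
  refine ⟨(nm d)⁻¹ • d, (unit_smul hd).1, ?_⟩
  rw [ell_smul_left, hd', mul_zero]

theorem no_region {δ : Set V → ℝ≥0∞} (hδ : Good δ) {K : Set V} (hK : LocMin δ K) {r : ℝ}
    (hr : 0 < r) {U : Set V} (hU : IsOpen U) (hne : U.Nonempty) :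
    ¬ ∀ u ∈ U, TB K r u ∧ TB K r (-u) := by
  intro h
  have bK := body_bd hK.1
  have cK := bK.cc
  obtain ⟨e₀, he₀, he₀'⟩ : ∃ e₀ ∈ U, e₀ ≠ 0 := by
    obtain ⟨x, hx, hx'⟩ := (dense_compl_singleton (0 : V)).inter_open_nonempty U hU hne
    exact ⟨x, hx, hx'⟩
  obtain ⟨e, he, c₀, hc0, hc0', hreg⟩ := region cK hU he₀ he₀' h
  set c := (1 + c₀) / 2 with hc
  have hc1 : c < 1 := by rw [hc]; linarith
  have hc2 : c₀ < c := by rw [hc]; linarith
  obtain ⟨κ, hκ0, hκ⟩ := gap cK hr hc2 hreg
  set ε := min (r / 6) κ with hε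
  have hε0 : 0 < ε := lt_min (by positivity) hκ0
  have hε1 : 6 * |ε| ≤ r := by
    rw [abs_of_pos hε0]
    have := min_le_left (r / 6) κ
    linarith
  have hε2 : |ε| ≤ κ := by
    rw [abs_of_pos hε0]
    exact min_le_right _ _
  have hom : ∀ (ε : ℝ) (a : ℝ) (v : V), 0 ≤ a →
      (fun v => hs K v + ε * gb e c v) (a • v) = a * (fun v => hs K v + ε * gb e c v) v := by
    intro ε a v ha
    simp only
    rw [hs_hom cK ha, gb_smul ha]
    ring
  have sp := fun u (hu : ell u u = 1) => supp_pt cK he hc0 hc2 hc1 hreg hκ hε1 hε2 hu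
  have sm := fun u (hu : ell u u = 1) => supp_pt cK he hc0 hc2 hc1 hreg hκ (ε := -ε)
    (by rwa [abs_neg]) (by rwa [abs_neg]) hu
  have np : (wf fun v => hs K v + ε * gb e c v).Nonempty := by
    obtain ⟨x, hx, -⟩ := sp e he
    exact ⟨x, hx⟩
  have nn : (wf fun v => hs K v + -ε * gb e c v).Nonempty := by
    obtain ⟨x, hx, -⟩ := sm e he
    exact ⟨x, hx⟩
  have C₁ := wf_cc np
  have C₂ := wf_cc nn
  have h1 := hs_wf (hom ε) sp np
  have h2 := hs_wf (hom (-ε)) sm nn
  have e1 : (wf fun v => hs K v + ε * gb e c v) + (wf fun v => hs K v + -ε * gb e c v) =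
      (2 : ℝ) • K := by
    refine eq_of_hs (C₁.add C₂) (cK.smul 2) fun w => ?_
    rw [hs_add C₁ C₂, hs_smul cK (by norm_num), h1, h2]
    ring
  have e2 : (wf fun v => hs K v + ε * gb e c v) - (wf fun v => hs K v + ε * gb e c v) =
      (wf fun v => hs K v + -ε * gb e c v) - (wf fun v => hs K v + -ε * gb e c v) := by
    refine eq_of_hs (C₁.sub C₁) (C₂.sub C₂) fun w => ?_
    rw [hs_sub C₁ C₁, hs_sub C₂ C₂, h1, h2, h1, h2, gb_neg]
    ring
  obtain ⟨a, ha, -⟩ := extremal hδ hK C₁.cpt C₁.cvx C₂.cpt C₂.cvx e1 e2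
  have key : ∀ v, ε * gb e c v = ell v a := by
    intro v
    have h3 := h1 v
    rw [ha, hs_add cK (cc_singleton a), hs_singleton] at h3
    linarith
  obtain ⟨d, hd, hde⟩ := exists_perp e
  have hcc : 0 ≤ c := by linarith
  have hv : ∀ s : ℝ, s * s = 1 → ell (c • e + s • d) a = 0 := by
    intro s hs1
    have h3 : ell (c • e + s • d) (c • e + s • d) = c * c + 1 := by
      rw [ell_add, ell_add_left, ell_add_left, ell_smul, ell_smul, ell_smul_left, ell_smul_left,
        ell_smul, ell_smul, ell_smul_left, ell_smul_left, he, hd, hde, ell_comm e d, hde]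
      linear_combination hs1
    have h4 : 1 ≤ nm (c • e + s • d) := by
      have h5 := nm_sq (c • e + s • d)
      have h6 := nm_nonneg (c • e + s • d)
      rw [h3] at h5
      by_contra h7
      push Not at h7
      nlinarith [mul_nonneg hcc hcc]
    have h5 : ell (c • e + s • d) e = c := by
      rw [ell_add_left, ell_smul_left, ell_smul_left, he, hde]
      ring
    rw [← key, gb_zero_of, mul_zero]
    rw [h5, abs_of_nonneg hcc]
    nlinarith
  have h3 := hv 1 (by norm_num)
  have h4 := hv (-1) (by norm_num)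
  have h5 : 2 * c * ell e a = 0 := by
    rw [ell_add_left, ell_smul_left, ell_smul_left] at h3 h4
    linarith
  have h6 := key e
  have h7 := gb_self he hcc hc1
  have h8 : 0 < ε * gb e c e := mul_pos hε0 h7
  rw [h6] at h8
  have h9 : 0 < c := hc0.trans hc2
  have : 0 < 2 * c * ell e a := by positivity
  linarith

/-! ### the meagre set -/

variable {n : ℕ} {K : Set (Fin n → ℝ)}

theorem TB.mono {r s : ℝ} (h0 : 0 ≤ s) (hsr : s ≤ r) {u : Fin n → ℝ} (h : TB K r u)
    (hK : Cc K) : TB K s u := by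
  obtain ⟨z, h1, h2⟩ := h
  by_cases hu : u = 0
  · subst hu
    refine ⟨z, fun v => ?_, ?_⟩
    · have := h1 v
      have := nm_nonneg v
      nlinarith
    · rw [hs_zero hK, nm_zero]
      simp [ell]
  · obtain ⟨h3, h4⟩ := unit_smul hu
    set e := (nm u)⁻¹ • u with he
    refine ⟨z + (r - s) • e, fun v => ?_, ?_⟩
    · have h5 := h1 v
      have h6 := cs e v
      rw [nm_one h3, one_mul, ell_comm] at h6
      have h7 : (r - s) * ell v e ≤ (r - s) * nm v := mul_le_mul_of_nonneg_left h6 (by linarith)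
      rw [ell_add, ell_smul]
      linarith
    · rw [ell_add, ell_smul, h2]
      have h5 : ell u e = nm u := by
        conv_lhs => rw [h4]
        rw [ell_smul_left, h3, mul_one]
      rw [h5]
      ring

theorem TB_closed (hK : Cc K) (r : ℝ) : IsClosed {u | TB K r u} := by
  rcases (wf fun v => hs K v - r * nm v).eq_empty_or_nonempty with h | h
  · have : {u | TB K r u} = ∅ := by
      rw [← not_nonempty_iff_eq_empty]
      rintro ⟨u, z, hz, -⟩
      have : z ∈ wf fun v => hs K v - r * nm v := fun v => by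
        have := hz v
        show ell v z ≤ hs K v - r * nm v
        linarith
      rw [h] at this
      exact this
    rw [this]
    exact isClosed_empty
  · have hc := wf_cc h
    have : {u | TB K r u} = {u | hs K u = hs (wf fun v => hs K v - r * nm v) u + r * nm u} := by
      ext u
      simp only [mem_ofPred_eq]
      constructor
      · rintro ⟨z, h1, h2⟩
        have hz : z ∈ wf fun v => hs K v - r * nm v := fun v => by
          have := h1 v
          show ell v z ≤ hs K v - r * nm v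
          linarith
        have h3 := le_hs hc.cpt u hz
        obtain ⟨y, hy, hy'⟩ := exists_hs hc u
        have h4 : ell u y ≤ hs K u - r * nm u := hy u
        linarith
      · intro h1
        obtain ⟨y, hy, hy'⟩ := exists_hs hc u
        refine ⟨y, fun v => ?_, by rw [hy']; exact h1⟩
        have h4 : ell v y ≤ hs K v - r * nm v := hy v
        linarith
    rw [this]
    exact isClosed_eq (continuous_hs hK.cpt)
      ((continuous_hs hc.cpt).add (continuous_const.mul continuous_nm))

theorem meagre {δ : Set V → ℝ≥0∞} (hδ : Good δ) {K : Set V} (hK : LocMin δ K) :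
    IsMeagre {u : V | (∃ r > 0, TB K r u) ∧ ∃ r > 0, TB K r (-u)} := by
  have cK := (body_bd hK.1).cc
  have hsub : {u : V | (∃ r > 0, TB K r u) ∧ ∃ r > 0, TB K r (-u)} ⊆
      ⋃ k : ℕ, {u : V | TB K (1 / ((k : ℝ) + 1)) u ∧ TB K (1 / ((k : ℝ) + 1)) (-u)} := by
    rintro u ⟨⟨r, hr, h1⟩, s, hs, h2⟩
    obtain ⟨k, hk⟩ := exists_nat_one_div_lt (lt_min hr hs)
    have hk0 : (0 : ℝ) ≤ 1 / ((k : ℝ) + 1) := by positivity
    exact mem_iUnion.2 ⟨k, h1.mono hk0 (hk.le.trans (min_le_left _ _)) cK,
      h2.mono hk0 (hk.le.trans (min_le_right _ _)) cK⟩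
  refine IsMeagre.mono hsub (isMeagre_iUnion fun k => ?_)
  apply IsNowhereDense.isMeagre
  have hcl : IsClosed {u : V | TB K (1 / ((k : ℝ) + 1)) u ∧ TB K (1 / ((k : ℝ) + 1)) (-u)} :=
    (TB_closed cK _).inter ((TB_closed cK _).preimage continuous_neg)
  rw [hcl.isNowhereDense_iff]
  by_contra hne
  have hk : (0 : ℝ) < 1 / ((k : ℝ) + 1) := by positivity
  refine no_region hδ hK hk isOpen_interior (nonempty_iff_ne_empty.2 hne) fun u hu => ?_
  have h1 : u ∈ {u : V | TB K (1 / ((k : ℝ) + 1)) u ∧ TB K (1 / ((k : ℝ) + 1)) (-u)} :=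
    interior_subset hu
  exact h1

end Pool.Agent.J4.H72.PK
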