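import Pool.Agent.J4.H72.PK.Sym

/-! Lattices in space with bounded determinant and without short vectors have bounded bases. -/

set_option autoImplicit false

namespace Pool.Agent.J4.H72.PK

open Set
open Pool.Agent.H349R2.Tet

/-! ### the inequality -/

theorem bd1 {a b c X Y Z x y z : ℝ} (ha : 0 < a) (hab : a ≤ b) (hbc : b ≤ c) (hX : 0 ≤ X)
    (hY : 0 ≤ Y) (hZ : 0 ≤ Z) (hXx : X ≤ x * b) (hYy : Y ≤ y * a) (hZz : Z ≤ z * a)
    (hx : 0 ≤ x) (hy : 0 ≤ y) (hz : 0 ≤ z) :
    2 * (X * Y * Z) + a * X ^ 2 + b * Y ^ 2 + c * Z ^ 2 ≤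
      (2 * (x * y * z) + x ^ 2 + y ^ 2 + z ^ 2) * (a * b * c) := by
  have hb : 0 < b := ha.trans_le hab
  have hc : 0 < c := hb.trans_le hbc
  have h1 : X * Y ≤ (x * b) * (y * a) := mul_le_mul hXx hYy hY (by positivity)
  have h2 : X * Y * Z ≤ (x * b) * (y * a) * (z * a) :=
    mul_le_mul h1 hZz hZ (by positivity)
  have h3 : a * b * a ≤ a * b * c := mul_le_mul_of_nonneg_left (hab.trans hbc) (by positivity)
  have h4 : a * b * b ≤ a * b * c := mul_le_mul_of_nonneg_left hbc (by positivity)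
  have h5 : a * c * a ≤ a * b * c := by
    have := mul_le_mul_of_nonneg_left hab (by positivity : 0 ≤ a * c)
    linarith
  have h6 : X ^ 2 ≤ (x * b) ^ 2 := pow_le_pow_left₀ hX hXx 2
  have h7 : Y ^ 2 ≤ (y * a) ^ 2 := pow_le_pow_left₀ hY hYy 2
  have h8 : Z ^ 2 ≤ (z * a) ^ 2 := pow_le_pow_left₀ hZ hZz 2
  have e1 : (x * b) * (y * a) * (z * a) ≤ x * y * z * (a * b * c) := by
    have := mul_le_mul_of_nonneg_left h3 (by positivity : 0 ≤ x * y * z)
    nlinarith
  have e2 : a * X ^ 2 ≤ x ^ 2 * (a * b * c) := by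
    have h9 := mul_le_mul_of_nonneg_left h6 ha.le
    have := mul_le_mul_of_nonneg_left h4 (by positivity : 0 ≤ x ^ 2)
    nlinarith
  have e3 : b * Y ^ 2 ≤ y ^ 2 * (a * b * c) := by
    have h9 := mul_le_mul_of_nonneg_left h7 hb.le
    have := mul_le_mul_of_nonneg_left h3 (by positivity : 0 ≤ y ^ 2)
    nlinarith
  have e4 : c * Z ^ 2 ≤ z ^ 2 * (a * b * c) := by
    have h9 := mul_le_mul_of_nonneg_left h8 hc.le
    have := mul_le_mul_of_nonneg_left h5 (by positivity : 0 ≤ z ^ 2)
    nlinarith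
  linarith

theorem bd2 {a b c X Y Z x y z : ℝ} (ha : 0 < a) (hab : 2 * a ≤ b) (hbc : b ≤ c) (hX : 0 ≤ X)
    (hY : 0 ≤ Y) (hZ : 0 ≤ Z) (hXx : X ≤ x * b) (hYy : Y ≤ y * a) (hZz : Z ≤ z * a)
    (hx : 0 ≤ x) (hy : 0 ≤ y) (hz : 0 ≤ z) :
    2 * (X * Y * Z) + a * X ^ 2 + b * Y ^ 2 + c * Z ^ 2 ≤
      (x * y * z + x ^ 2 + y ^ 2 / 2 + z ^ 2 / 2) * (a * b * c) := by
  have hb : 0 < b := by linarith
  have hc : 0 < c := hb.trans_le hbc
  have h1 : X * Y ≤ (x * b) * (y * a) := mul_le_mul hXx hYy hY (by positivity)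
  have h2 : X * Y * Z ≤ (x * b) * (y * a) * (z * a) :=
    mul_le_mul h1 hZz hZ (by positivity)
  have h3 : a * b * (2 * a) ≤ a * b * c := mul_le_mul_of_nonneg_left (hab.trans hbc) (by positivity)
  have h4 : a * b * b ≤ a * b * c := mul_le_mul_of_nonneg_left hbc (by positivity)
  have h5 : a * c * (2 * a) ≤ a * b * c := by
    have := mul_le_mul_of_nonneg_left hab (by positivity : 0 ≤ a * c)
    linarith
  have h6 : X ^ 2 ≤ (x * b) ^ 2 := pow_le_pow_left₀ hX hXx 2
  have h7 : Y ^ 2 ≤ (y * a) ^ 2 := pow_le_pow_left₀ hY hYy 2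
  have h8 : Z ^ 2 ≤ (z * a) ^ 2 := pow_le_pow_left₀ hZ hZz 2
  have e1 : (x * b) * (y * a) * (z * a) ≤ x * y * z / 2 * (a * b * c) := by
    have := mul_le_mul_of_nonneg_left h3 (by positivity : 0 ≤ x * y * z)
    nlinarith
  have e2 : a * X ^ 2 ≤ x ^ 2 * (a * b * c) := by
    have h9 := mul_le_mul_of_nonneg_left h6 ha.le
    have := mul_le_mul_of_nonneg_left h4 (by positivity : 0 ≤ x ^ 2)
    nlinarith
  have e3 : b * Y ^ 2 ≤ y ^ 2 / 2 * (a * b * c) := by
    have h9 := mul_le_mul_of_nonneg_left h7 hb.le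
    have := mul_le_mul_of_nonneg_left h3 (by positivity : 0 ≤ y ^ 2)
    nlinarith
  have e4 : c * Z ^ 2 ≤ z ^ 2 / 2 * (a * b * c) := by
    have h9 := mul_le_mul_of_nonneg_left h8 hc.le
    have := mul_le_mul_of_nonneg_left h5 (by positivity : 0 ≤ z ^ 2)
    nlinarith
  linarith

theorem gram {a b c p q r ε : ℝ} (ha : 0 < a) (hab : a ≤ b) (hbc : b ≤ c) (hε : ε ≤ a / 100)
    (hp : |p| ≤ (b + ε) / 2) (hq : |q| ≤ (a + ε) / 2) (hr : |r| ≤ (a + ε) / 2)
    (h1 : -ε ≤ a + b + 2 * q + 2 * p + 2 * r) (h2 : -ε ≤ a + b - 2 * q + 2 * p - 2 * r)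
    (h3 : -ε ≤ a + b + 2 * q - 2 * p - 2 * r) (h4 : -ε ≤ a + b - 2 * q - 2 * p + 2 * r) :
    9 / 100 * (a * b * c) ≤ a * b * c + 2 * (p * q * r) - a * p ^ 2 - b * q ^ 2 - c * r ^ 2 := by
  have hb : 0 < b := ha.trans_le hab
  have hc : 0 < c := hb.trans_le hbc
  have habc : 0 < a * b * c := by positivity
  have hp' : |p| ≤ 505 / 1000 * b := by linarith
  have hq' : |q| ≤ 505 / 1000 * a := by linarith
  have hr' : |r| ≤ 505 / 1000 * a := by linarith
  have hP := abs_nonneg p
  have hQ := abs_nonneg q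
  have hR := abs_nonneg r
  have key : 2 * (|p| * |q| * |r|) + a * |p| ^ 2 + b * |q| ^ 2 + c * |r| ^ 2 ≤
      91 / 100 * (a * b * c) ∨ 0 ≤ p * q * r := by
    rcases le_or_gt 0 (p * q * r) with h | h
    · exact Or.inr h
    left
    have hsum : |p| + |q| + |r| ≤ 505 / 1000 * a + b / 2 := by
      rcases le_or_gt 0 p with hp0 | hp0 <;> rcases le_or_gt 0 q with hq0 | hq0 <;>
        rcases le_or_gt 0 r with hr0 | hr0
      · exact absurd h (not_lt.2 (by positivity))
      · rw [abs_of_nonneg hp0, abs_of_nonneg hq0, abs_of_neg hr0]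
        linarith
      · rw [abs_of_nonneg hp0, abs_of_neg hq0, abs_of_nonneg hr0]
        linarith
      · have : 0 ≤ p * q * r := by
          have := mul_nonneg hp0 (mul_pos_of_neg_of_neg hq0 hr0).le
          linarith
        exact absurd h (not_lt.2 this)
      · rw [abs_of_neg hp0, abs_of_nonneg hq0, abs_of_nonneg hr0]
        linarith
      · have : 0 ≤ p * q * r := by
          have := mul_nonneg hq0 (mul_pos_of_neg_of_neg hp0 hr0).le
          linarith
        exact absurd h (not_lt.2 this)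
      · have : 0 ≤ p * q * r := mul_nonneg (mul_pos_of_neg_of_neg hp0 hq0).le hr0
        exact absurd h (not_lt.2 this)
      · rw [abs_of_neg hp0, abs_of_neg hq0, abs_of_neg hr0]
        linarith
    rcases le_or_gt (2 * a) b with h5 | h5
    · have := bd2 ha h5 hbc hP hQ hR hp' hq' hr' (by norm_num) (by norm_num) (by norm_num)
      refine this.trans ?_
      exact mul_le_mul_of_nonneg_right (by norm_num) habc.le
    · by_cases c1 : |p| ≤ 421 / 1000 * b
      · refine (bd1 ha hab hbc hP hQ hR c1 hq' hr' (by norm_num) (by norm_num)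
          (by norm_num)).trans ?_
        exact mul_le_mul_of_nonneg_right (by norm_num) habc.le
      · by_cases c2 : |q| ≤ 337 / 1000 * a
        · refine (bd1 ha hab hbc hP hQ hR hp' c2 hr' (by norm_num) (by norm_num)
            (by norm_num)).trans ?_
          exact mul_le_mul_of_nonneg_right (by norm_num) habc.le
        · have c3 : |r| ≤ 337 / 1000 * a := by
            push Not at c1 c2
            linarith
          refine (bd1 ha hab hbc hP hQ hR hp' hq' c3 (by norm_num) (by norm_num)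
            (by norm_num)).trans ?_
          exact mul_le_mul_of_nonneg_right (by norm_num) habc.le
  have e1 : |p| ^ 2 = p ^ 2 := sq_abs p
  have e2 : |q| ^ 2 = q ^ 2 := sq_abs q
  have e3 : |r| ^ 2 = r ^ 2 := sq_abs r
  rcases key with h | h
  · have h5 : -(|p| * |q| * |r|) ≤ p * q * r := by
      rw [← abs_mul, ← abs_mul]
      exact neg_abs_le _
    rw [e1, e2, e3] at h
    linarith
  · have h5 := bd1 (X := |p|) (Y := |q|) (Z := |r|) ha hab hbc hP hQ hR hp' hq' hr'
      (by norm_num) (by norm_num) (by norm_num)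
    have h6 : a * |p| ^ 2 + b * |q| ^ 2 + c * |r| ^ 2 ≤ 91 / 100 * (a * b * c) := by
      have e4 : |p| ^ 2 ≤ (505 / 1000 * b) ^ 2 := pow_le_pow_left₀ hP hp' 2
      have e5 : |q| ^ 2 ≤ (505 / 1000 * a) ^ 2 := pow_le_pow_left₀ hQ hq' 2
      have e6 : |r| ^ 2 ≤ (505 / 1000 * a) ^ 2 := pow_le_pow_left₀ hR hr' 2
      have f1 : a * b * b ≤ a * b * c := mul_le_mul_of_nonneg_left hbc (by positivity)
      have f2 : a * b * a ≤ a * b * c :=
        mul_le_mul_of_nonneg_left (hab.trans hbc) (by positivity)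
      have f3 : a * c * a ≤ a * b * c := by
        have := mul_le_mul_of_nonneg_left hab (by positivity : 0 ≤ a * c)
        linarith
      have g1 := mul_le_mul_of_nonneg_left e4 ha.le
      have g2 := mul_le_mul_of_nonneg_left e5 hb.le
      have g3 := mul_le_mul_of_nonneg_left e6 hc.le
      nlinarith
    rw [e1, e2, e3] at h6
    linarith

/-! ### change of basis -/

theorem lat_eq (b : Fin 3 → V) : lat b = (AddSubgroup.closure (range b) : Set V) := by
  ext x
  constructor
  · rintro ⟨z, rfl⟩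
    refine AddSubgroup.sum_mem _ fun i _ => ?_
    rw [Int.cast_smul_eq_zsmul]
    exact AddSubgroup.zsmul_mem _ (AddSubgroup.subset_closure (mem_range_self i)) _
  · intro hx
    refine AddSubgroup.closure_induction ?_ ?_ ?_ ?_ hx
    · rintro _ ⟨i, rfl⟩
      refine ⟨Pi.single i 1, ?_⟩
      rw [Finset.sum_eq_single i]
      · simp
      · intro j _ hj
        simp [Pi.single_eq_of_ne hj]
      · simp
    · exact ⟨0, by simp⟩
    · rintro _ _ _ _ ⟨z, rfl⟩ ⟨z', rfl⟩
      refine ⟨z + z', ?_⟩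
      rw [← Finset.sum_add_distrib]
      exact Finset.sum_congr rfl fun i _ => by rw [Pi.add_apply, Int.cast_add, add_smul]
    · rintro _ _ ⟨z, rfl⟩
      refine ⟨-z, ?_⟩
      rw [← Finset.sum_neg_distrib]
      exact Finset.sum_congr rfl fun i _ => by rw [Pi.neg_apply, Int.cast_neg, neg_smul]

/-- adding a multiple of a basis vector to another one -/
def st (b : Fin 3 → V) (i j : Fin 3) (s : ℤ) : Fin 3 → V :=
  Function.update b i (b i + (s : ℝ) • b j)

theorem lat_st (b : Fin 3 → V) {i j : Fin 3} (hij : i ≠ j) (s : ℤ) : lat (st b i j s) = lat b := by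
  rw [lat_eq, lat_eq]
  congr 1
  apply le_antisymm
  · rw [AddSubgroup.closure_le]
    rintro _ ⟨l, rfl⟩
    by_cases hl : l = i
    · subst hl
      rw [st, Function.update_self, Int.cast_smul_eq_zsmul]
      exact AddSubgroup.add_mem _ (AddSubgroup.subset_closure (mem_range_self l))
        (AddSubgroup.zsmul_mem _ (AddSubgroup.subset_closure (mem_range_self j)) _)
    · rw [st, Function.update_of_ne hl]
      exact AddSubgroup.subset_closure (mem_range_self l)
  · rw [AddSubgroup.closure_le]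
    rintro _ ⟨l, rfl⟩
    by_cases hl : l = i
    · subst hl
      have e1 : b l = st b l j s l - s • st b l j s j := by
        rw [st, Function.update_self, Function.update_of_ne hij.symm, Int.cast_smul_eq_zsmul]
        abel
      rw [e1]
      exact AddSubgroup.sub_mem _ (AddSubgroup.subset_closure (mem_range_self l))
        (AddSubgroup.zsmul_mem _ (AddSubgroup.subset_closure (mem_range_self j)) _)
    · have e1 : b l = st b i j s l := by rw [st, Function.update_of_ne hl]
      rw [e1]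
      exact AddSubgroup.subset_closure (mem_range_self l)

theorem dt_st (b : Fin 3 → V) {i j : Fin 3} (hij : i ≠ j) (s : ℤ) : dt (st b i j s) = dt b := by
  unfold dt
  exact Matrix.det_updateRow_add_smul_self (Matrix.of b) hij (s : ℝ)

/-- the sum of the squares of the lengths -/
noncomputable def QQ (b : Fin 3 → V) : ℝ := ∑ i, ell (b i) (b i)

theorem QQ_nonneg (b : Fin 3 → V) : 0 ≤ QQ b := Finset.sum_nonneg fun _ _ => ell_self_nonneg _

theorem QQ_update (b : Fin 3 → V) (i : Fin 3) (x : V) :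
    QQ (Function.update b i x) = QQ b - ell (b i) (b i) + ell x x := by
  unfold QQ
  fin_cases i <;> simp [Fin.sum_univ_three, Function.update] <;> ring

theorem gram_dt (b : Fin 3 → V) (i j k : Fin 3) (hij : i ≠ j) (hjk : j ≠ k) (hik : i ≠ k) :
    ell (b i) (b i) * ell (b j) (b j) * ell (b k) (b k) +
      2 * (ell (b j) (b k) * ell (b i) (b k) * ell (b i) (b j)) -
      ell (b i) (b i) * ell (b j) (b k) ^ 2 - ell (b j) (b j) * ell (b i) (b k) ^ 2 -
      ell (b k) (b k) * ell (b i) (b j) ^ 2 = dt b ^ 2 := by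
  fin_cases i <;> fin_cases j <;> fin_cases k <;> first
    | exact absurd rfl hij
    | exact absurd rfl hjk
    | exact absurd rfl hik
    | (simp only [ell, dt, Fin.sum_univ_three, Matrix.det_fin_three, Matrix.of_apply,
        Fin.zero_eta, Fin.mk_one, Fin.reduceFinMk]
       ring)

/-- bases of bounded length -/
theorem reduce {b : Fin 3 → V} (hdt : dt b ≠ 0) {ρ D : ℝ} (hρ : 0 < ρ)
    (hmin : ∀ u ∈ lat b, u ≠ 0 → ρ ^ 2 ≤ ell u u) (hD : |dt b| ≤ D) :
    ∃ b' : Fin 3 → V, lat b' = lat b ∧ |dt b'| = |dt b| ∧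
      ∀ i, ell (b' i) (b' i) ≤ D ^ 2 / (9 / 100 * ρ ^ 4) := by
  set S : Set ℝ := {x | ∃ b' : Fin 3 → V, lat b' = lat b ∧ dt b' = dt b ∧ x = QQ b'} with hS
  have hSne : S.Nonempty := ⟨QQ b, b, rfl, rfl, rfl⟩
  have hSbd : BddBelow S := ⟨0, by rintro _ ⟨b', -, -, rfl⟩; exact QQ_nonneg b'⟩
  set ε := ρ ^ 2 / 100 with hε
  have hε0 : 0 < ε := by positivity
  obtain ⟨_, ⟨c, hc1, hc2, rfl⟩, hc3⟩ := exists_lt_of_csInf_lt hSne
    (show sInf S < sInf S + ε by linarith)
  have hq : ∀ b' : Fin 3 → V, lat b' = lat b → dt b' = dt b → QQ c - ε ≤ QQ b' := by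
    intro b' h1 h2
    have := csInf_le hSbd ⟨b', h1, h2, rfl⟩
    linarith
  have hdc : dt c ≠ 0 := by rw [hc2]; exact hdt
  -- lengths
  have hmem : ∀ i, c i ∈ lat b := by
    intro i
    rw [← hc1, lat_eq]
    exact AddSubgroup.subset_closure (mem_range_self i)
  have hne : ∀ i, c i ≠ 0 := by
    intro i h0
    apply hdc
    unfold dt
    exact Matrix.det_eq_zero_of_row_eq_zero i fun j => by
      show c i j = 0
      rw [h0]; rfl
  have hlen : ∀ i, ρ ^ 2 ≤ ell (c i) (c i) := fun i => hmin _ (hmem i) (hne i)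
  have C1 : ∀ i j, i ≠ j → 2 * |ell (c i) (c j)| ≤ ell (c j) (c j) + ε := by
    intro i j hij
    have h1 : ∀ s : ℤ, QQ (st c i j s) = QQ c + 2 * s * ell (c i) (c j) +
        s ^ 2 * ell (c j) (c j) := by
      intro s
      rw [st, QQ_update, ell_add, ell_add_left, ell_add_left, ell_smul, ell_smul, ell_smul_left,
        ell_smul_left, ell_comm (c j) (c i)]
      ring
    have h2 := hq (st c i j 1) ((lat_st c hij 1).trans hc1) ((dt_st c hij 1).trans hc2)
    have h3 := hq (st c i j (-1)) ((lat_st c hij (-1)).trans hc1) ((dt_st c hij (-1)).trans hc2)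
    rw [h1] at h2 h3
    push_cast at h2 h3
    have : |ell (c i) (c j)| ≤ (ell (c j) (c j) + ε) / 2 := by
      rw [abs_le]
      constructor <;> linarith
    linarith
  have C2 : ∀ i j k, i ≠ j → i ≠ k → j ≠ k → ∀ s t : ℤ,
      -ε ≤ s ^ 2 * ell (c j) (c j) + t ^ 2 * ell (c k) (c k) + 2 * s * ell (c i) (c j) +
        2 * t * ell (c i) (c k) + 2 * (s * t) * ell (c j) (c k) := by
    intro i j k hij hik hjk s t
    have e1 : st (st c i j s) i k t =
        Function.update c i (c i + (s : ℝ) • c j + (t : ℝ) • c k) := by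
      unfold st
      rw [Function.update_self, Function.update_of_ne hik.symm, Function.update_idem]
    have h2 := hq (st (st c i j s) i k t)
      ((lat_st _ hik t).trans ((lat_st c hij s).trans hc1))
      ((dt_st _ hik t).trans ((dt_st c hij s).trans hc2))
    rw [e1, QQ_update] at h2
    simp only [ell_add, ell_add_left, ell_smul, ell_smul_left] at h2
    rw [ell_comm (c j) (c i), ell_comm (c k) (c i), ell_comm (c k) (c j)] at h2
    linarith
  have main : ∀ i j k, i ≠ j → j ≠ k → i ≠ k → ell (c i) (c i) ≤ ell (c j) (c j) →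
      ell (c j) (c j) ≤ ell (c k) (c k) → ∀ l, (l = i ∨ l = j ∨ l = k) →
      ell (c l) (c l) ≤ D ^ 2 / (9 / 100 * ρ ^ 4) := by
    intro i j k hij hjk hik h1 h2 l hl
    have hi := hlen i
    have hi0 : 0 < ell (c i) (c i) := lt_of_lt_of_le (by positivity) hi
    have h3 := C2 k i j hik.symm hjk.symm hij 1 1
    have h4 := C2 k i j hik.symm hjk.symm hij (-1) 1
    have h5 := C2 k i j hik.symm hjk.symm hij 1 (-1)
    have h6 := C2 k i j hik.symm hjk.symm hij (-1) (-1)
    rw [ell_comm (c k) (c i), ell_comm (c k) (c j)] at h3 h4 h5 h6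
    push_cast at h3 h4 h5 h6
    have g := gram (a := ell (c i) (c i)) (b := ell (c j) (c j)) (c := ell (c k) (c k))
      (p := ell (c j) (c k)) (q := ell (c i) (c k)) (r := ell (c i) (c j)) (ε := ε) hi0 h1 h2
      (by linarith) (by rw [ell_comm]; linarith [C1 k j hjk.symm])
      (by rw [ell_comm]; linarith [C1 k i hik.symm]) (by rw [ell_comm]; linarith [C1 j i hij.symm])
      (by linarith) (by linarith) (by linarith) (by linarith)
    rw [gram_dt c i j k hij hjk hik] at g
    have hle : ell (c l) (c l) ≤ ell (c k) (c k) := by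
      rcases hl with rfl | rfl | rfl
      · exact h1.trans h2
      · exact h2
      · exact le_rfl
    refine hle.trans ?_
    rw [le_div_iff₀ (by positivity)]
    have h7 : dt c ^ 2 ≤ D ^ 2 := by
      rw [hc2, ← sq_abs]
      exact pow_le_pow_left₀ (abs_nonneg _) hD 2
    have h8 : ρ ^ 2 * ρ ^ 2 ≤ ell (c i) (c i) * ell (c j) (c j) :=
      mul_le_mul hi (hi.trans h1) (by positivity) hi0.le
    have hk0 : 0 ≤ ell (c k) (c k) := ell_self_nonneg _
    have h9 : ρ ^ 2 * ρ ^ 2 * ell (c k) (c k) ≤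
        ell (c i) (c i) * ell (c j) (c j) * ell (c k) (c k) := mul_le_mul_of_nonneg_right h8 hk0
    nlinarith
  refine ⟨c, hc1, by rw [hc2], fun l => ?_⟩
  have h01 : (0 : Fin 3) ≠ 1 := by decide
  have h02 : (0 : Fin 3) ≠ 2 := by decide
  have h12 : (1 : Fin 3) ≠ 2 := by decide
  rcases le_total (ell (c 0) (c 0)) (ell (c 1) (c 1)) with a1 | a1 <;>
    rcases le_total (ell (c 1) (c 1)) (ell (c 2) (c 2)) with a2 | a2 <;>
    rcases le_total (ell (c 0) (c 0)) (ell (c 2) (c 2)) with a3 | a3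
  · exact main 0 1 2 h01 h12 h02 a1 a2 l (by fin_cases l <;> simp)
  · exact main 0 1 2 h01 h12 h02 a1 a2 l (by fin_cases l <;> simp)
  · exact main 0 2 1 h02 h12.symm h01 a3 a2 l (by fin_cases l <;> simp)
  · exact main 2 0 1 h02.symm h01 h12.symm a3 a1 l (by fin_cases l <;> simp)
  · exact main 1 0 2 h01.symm h02 h12 a1 a3 l (by fin_cases l <;> simp)
  · exact main 1 2 0 h12 h02.symm h01.symm a2 a3 l (by fin_cases l <;> simp)
  · exact main 2 1 0 h12.symm h01.symm h02.symm a2 a1 l (by fin_cases l <;> simp)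
  · exact main 2 1 0 h12.symm h01.symm h02.symm a2 a1 l (by fin_cases l <;> simp)

end Pool.Agent.J4.H72.PK
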