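import Pool.Agent.J4.H72.PK.Gen

/-! Slices at extreme points. -/

set_option autoImplicit false

namespace Pool.Agent.J4.H72.PK

open MeasureTheory Set Filter Topology
open scoped Pointwise ENNReal
open Pool.Agent.TH219.DL Pool.Agent.H349R2.Tet

attribute [local irreducible] dt

/-- the convex hull of a compact set is compact (Carathéodory) -/
theorem compact_hull {S : Set V} (hS : IsCompact S) : IsCompact (convexHull ℝ S) := by
  classical
  rcases S.eq_empty_or_nonempty with h | ⟨s₀, hs₀⟩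
  · subst h
    rw [convexHull_empty]
    exact isCompact_empty
  have hP : IsCompact ((stdSimplex ℝ (Fin 4)) ×ˢ (Set.univ.pi fun _ : Fin 4 => S)) :=
    (isCompact_stdSimplex ℝ (Fin 4)).prod (isCompact_univ_pi fun _ => hS)
  have hcont : Continuous (fun p : (Fin 4 → ℝ) × (Fin 4 → V) => ∑ i, p.1 i • p.2 i) := by
    fun_prop
  have himg := hP.image hcont
  have heq : convexHull ℝ S = (fun p : (Fin 4 → ℝ) × (Fin 4 → V) => ∑ i, p.1 i • p.2 i) ''
      ((stdSimplex ℝ (Fin 4)) ×ˢ (Set.univ.pi fun _ : Fin 4 => S)) := by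
    apply Set.Subset.antisymm
    · intro x hx
      obtain ⟨ι, hι, z, w, hz, hai, hw, hw1, hx⟩ := eq_pos_convex_span_of_mem_convexHull hx
      have hcard : Fintype.card ι ≤ 4 := by
        have h3 : Module.finrank ℝ V = 3 := by simp [V]
        have h2 := Submodule.finrank_le (vectorSpan ℝ (Set.range z))
        rw [h3] at h2
        exact hai.card_le_finrank_succ.trans (Nat.succ_le_succ h2)
      obtain ⟨e⟩ : Nonempty (ι ↪ Fin 4) := by
        apply Function.Embedding.nonempty_of_card_le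
        simpa using hcard
      have key : ∀ (M : Type) [AddCommMonoid M] (h : ι → M),
          ∑ i, Function.extend e h 0 i = ∑ i, h i := by
        intro M _ h
        have h1 : ∑ i, h i = ∑ i ∈ Finset.univ.map e, Function.extend e h 0 i := by
          rw [Finset.sum_map]
          apply Finset.sum_congr rfl
          intro i _
          rw [e.injective.extend_apply]
        rw [h1]
        symm
        apply Finset.sum_subset (Finset.subset_univ _)
        intro i _ hi
        rw [Function.extend_apply' _ _ _ (by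
          rintro ⟨a, ha⟩
          exact hi (by simp only [Finset.mem_map, Finset.mem_univ, true_and]; exact ⟨a, ha⟩))]
        rfl
      refine ⟨(Function.extend e w 0, Function.extend e z (fun _ => s₀)), ⟨⟨?_, ?_⟩, ?_⟩, ?_⟩
      · intro i
        by_cases hi : ∃ a, e a = i
        · obtain ⟨a, rfl⟩ := hi
          simp only [e.injective.extend_apply]
          exact (hw a).le
        · simp only [Function.extend_apply' _ _ _ hi]
          exact le_rfl
      · show ∑ i, Function.extend e w 0 i = 1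
        rw [key ℝ w, hw1]
      · intro i _
        by_cases hi : ∃ a, e a = i
        · obtain ⟨a, rfl⟩ := hi
          show Function.extend e z (fun _ => s₀) (e a) ∈ S
          rw [e.injective.extend_apply]
          exact hz ⟨a, rfl⟩
        · show Function.extend e z (fun _ => s₀) i ∈ S
          rw [Function.extend_apply' _ _ _ hi]
          exact hs₀
      · show ∑ i, Function.extend e w 0 i • Function.extend e z (fun _ => s₀) i = x
        rw [← hx, ← key V (fun i => w i • z i)]
        apply Finset.sum_congr rfl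
        intro i _
        by_cases hi : ∃ a, e a = i
        · obtain ⟨a, rfl⟩ := hi
          simp only [e.injective.extend_apply]
        · simp only [Function.extend_apply' _ _ _ hi]
          simp
    · rintro x ⟨⟨w, z⟩, ⟨⟨hw0, hw1⟩, hz⟩, rfl⟩
      exact (convex_convexHull ℝ S).sum_mem (fun i _ => hw0 i) hw1
        (fun i _ => subset_convexHull ℝ S (hz i (Set.mem_univ i)))
  rw [heq]
  exact himg

theorem ext_not_int {K : Set V} {p : V} (hp : p ∈ K.extremePoints ℝ) : p ∉ interior K := by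
  intro h
  have h1 : Tendsto (fun ε : ℝ => p + ε • (fun _ => 1 : V)) (𝓝[>] 0) (𝓝 p) := by
    have : Tendsto (fun ε : ℝ => p + ε • (fun _ => 1 : V)) (𝓝 0)
        (𝓝 (p + (0 : ℝ) • (fun _ => 1 : V))) :=
      (continuous_const.add (continuous_id.smul continuous_const)).tendsto 0
    rw [zero_smul, add_zero] at this
    exact this.mono_left nhdsWithin_le_nhds
  have h2 : Tendsto (fun ε : ℝ => p - ε • (fun _ => 1 : V)) (𝓝[>] 0) (𝓝 p) := by
    have : Tendsto (fun ε : ℝ => p - ε • (fun _ => 1 : V)) (𝓝 0)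
        (𝓝 (p - (0 : ℝ) • (fun _ => 1 : V))) :=
      (continuous_const.sub (continuous_id.smul continuous_const)).tendsto 0
    rw [zero_smul, sub_zero] at this
    exact this.mono_left nhdsWithin_le_nhds
  obtain ⟨ε, ⟨h3, h4⟩, hε⟩ := (((h1.eventually (mem_interior_iff_mem_nhds.1 h)).and
    (h2.eventually (mem_interior_iff_mem_nhds.1 h))).and self_mem_nhdsWithin).exists
  have hε : 0 < ε := hε
  have h5 := hp.2 h3 h4 ⟨1 / 2, 1 / 2, by norm_num, by norm_num, by norm_num, by module⟩
  have h6 : ε • (fun _ => 1 : V) = 0 := by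
    have h7 := sub_eq_zero.2 h5
    rw [← h7]
    abel
  rcases smul_eq_zero.1 h6 with h7 | h7
  · exact hε.ne' h7
  · have := congrFun h7 0
    simp at this

theorem exists_cut {K : Set V} (bK : Bd K) {p : V} (hp : p ∈ K.extremePoints ℝ) :
    ∃ (Kn : ℕ → Set V) (r : ℕ → ℝ), Cut K p Kn r := by
  have hpi := ext_not_int hp
  obtain ⟨x₀, hx₀⟩ := bK.int
  have hne : x₀ - p ≠ 0 := fun h => hpi (by rw [← sub_eq_zero.1 h]; exact hx₀)
  set d := ‖x₀ - p‖ with hd
  have hd0 : 0 < d := norm_pos_iff.2 hne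
  obtain ⟨ρ₁, hρ₁, hb₁⟩ := Metric.isOpen_iff.1 isOpen_interior x₀ hx₀
  set ρ := min ρ₁ (d / 4) with hρ
  have hρ0 : 0 < ρ := lt_min hρ₁ (by positivity)
  set r : ℕ → ℝ := fun n => d / 4 / ((n : ℝ) + 1) with hr
  have hrp : ∀ n, 0 < r n := fun n => by rw [hr]; positivity
  have hrl : ∀ n, r n ≤ d / 4 := fun n => by
    rw [hr]
    simp only
    rw [div_le_iff₀ (by positivity)]
    have : (0 : ℝ) ≤ n := Nat.cast_nonneg n
    nlinarith
  have hrt : Tendsto r atTop (𝓝 0) := by
    have h1 := tendsto_one_div_add_atTop_nhds_zero_nat (𝕜 := ℝ)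
    have h2 := h1.const_mul (d / 4)
    rw [mul_zero] at h2
    refine h2.congr fun n => ?_
    rw [hr]
    simp only
    ring
  have hball : ∀ n, ∀ z ∈ Metric.ball x₀ ρ, z ∈ interior K ∧ r n < ‖z - p‖ := by
    intro n z hz
    rw [Metric.mem_ball, dist_eq_norm] at hz
    refine ⟨hb₁ (by rw [Metric.mem_ball, dist_eq_norm]; exact hz.trans_le (min_le_left _ _)), ?_⟩
    have h1 : ‖z - x₀‖ < d / 4 := hz.trans_le (min_le_right _ _)
    have h2 : d ≤ ‖z - x₀‖ + ‖z - p‖ := by
      have := norm_sub_le (z - p) (z - x₀)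
      rw [sub_sub_sub_cancel_left] at this
      linarith
    have := hrl n
    linarith
  set C : ℕ → Set V := fun n => convexHull ℝ (K \ Metric.ball p (r n)) with hC
  have hmC : ∀ n z, z ∈ K → r n ≤ ‖z - p‖ → z ∈ C n := fun n z hz h =>
    subset_convexHull ℝ _ ⟨hz, fun h1 => by
      rw [Metric.mem_ball, dist_eq_norm] at h1
      linarith⟩
  have hCc : ∀ n, IsCompact (C n) := fun n => compact_hull (bK.cpt.diff Metric.isOpen_ball)
  have hpC : ∀ n, p ∉ C n := by
    intro n h
    have h1 := ((bK.cvx.mem_extremePoints_iff_convex_sdiff).1 hp).2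
    have h2 : C n ⊆ K \ {p} := convexHull_min (fun z hz => ⟨hz.1, fun h3 => by
      rw [mem_singleton_iff] at h3
      rw [h3] at hz
      exact hz.2 (Metric.mem_ball_self (hrp n))⟩) h1
    exact (h2 h).2 rfl
  have hbC : ∀ n, Metric.ball x₀ ρ ⊆ C n := fun n z hz =>
    hmC n z (interior_subset (hball n z hz).1) (hball n z hz).2.le
  have hxC : ∀ n, x₀ ∈ interior (C n) := fun n =>
    interior_maximal (hbC n) Metric.isOpen_ball (Metric.mem_ball_self hρ0)
  have hBd : ∀ n, Bd (C n) := fun n => ⟨hCc n, convex_convexHull ℝ _, ⟨x₀, hxC n⟩⟩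
  have hsep : ∀ n, ∃ w, hs (C n) w < ell w p := fun n => sep (hBd n).cc (hpC n)
  choose w hw using hsep
  have hw0 : ∀ n, w n ≠ 0 := by
    intro n h
    have := hw n
    rw [h, hs_zero (hBd n).cc] at this
    simp [ell] at this
  set Kn : ℕ → Set V := fun n => lo K (w n) (hs (C n) (w n)) with hKn
  have hnear : ∀ n z, z ∈ K → r n ≤ ‖z - p‖ → z ∈ Kn n := fun n z hz h =>
    ⟨hz, le_hs (hCc n) _ (hmC n z hz h)⟩
  have hnear' : ∀ n z, z ∈ interior K → r n < ‖z - p‖ → z ∈ interior (Kn n) := by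
    intro n z hz h
    have ho : IsOpen (interior K ∩ {z | r n < ‖z - p‖}) :=
      isOpen_interior.inter (isOpen_lt continuous_const (by fun_prop))
    refine interior_maximal ?_ ho ⟨hz, h⟩
    rintro y ⟨hy1, hy2⟩
    have hy2 : r n < ‖y - p‖ := hy2
    exact hnear n y (interior_subset hy1) hy2.le
  refine ⟨Kn, r, ?_⟩
  exact
    { bd := fun n => lo_bd bK hx₀ (int_lt (hBd n) (hw0 n) (hxC n))
      sub := fun n z hz => hz.1
      vol := fun n => lo_vol bK ((hw n).trans_le (le_hs bK.cpt _ hp.1))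
      dist := by
        intro η hη
        have h1 := hrt.eventually_lt_const (show (0 : ℝ) < η / 2 by positivity)
        obtain ⟨N, hN⟩ := eventually_atTop.1 h1
        refine ⟨N, fun n hn => ?_⟩
        have h2 := hN n hn
        refine Metric.hausdorffDist_le_of_mem_dist hη.le (fun x hx => ?_) fun x hx =>
          ⟨x, hx.1, by rw [dist_self]; exact hη.le⟩
        by_cases h3 : r n ≤ ‖x - p‖
        · exact ⟨x, hnear n x hx h3, by rw [dist_self]; exact hη.le⟩
        · push Not at h3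
          have h4 : r n / d ≤ 1 := by
            rw [div_le_one hd0]
            linarith [hrl n]
          have h5 : 0 ≤ r n / d := div_nonneg (hrp n).le hd0.le
          have e : (1 - r n / d) • p + (r n / d) • x₀ - p = (r n / d) • (x₀ - p) := by module
          have h6 : ‖(1 - r n / d) • p + (r n / d) • x₀ - p‖ = r n := by
            rw [e, norm_smul, Real.norm_eq_abs, abs_of_nonneg h5, ← hd,
              div_mul_cancel₀ _ hd0.ne']
          refine ⟨(1 - r n / d) • p + (r n / d) • x₀, hnear n _ (bK.cvx hp.1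
            (interior_subset hx₀) (by linarith) h5 (by ring)) h6.ge, ?_⟩
          rw [dist_eq_norm]
          have h7 := norm_sub_le (x - p) ((1 - r n / d) • p + (r n / d) • x₀ - p)
          rw [sub_sub_sub_cancel_right, h6] at h7
          linarith
      rad := hrt
      near := hnear'
      inner := ⟨x₀, ρ, hρ0, fun n z hz => hnear' n z (hball n z hz).1 (hball n z hz).2⟩ }

/-- At every extreme point of a local minimiser there is a contact with a small contact set. -/
theorem thinE {s : Bool} {K : Set V} (hK : LocMin (dS s) K) {p : V}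
    (hp : p ∈ K.extremePoints ℝ) :
    ∃ S, Dst s K S ∧ ∃ q ∈ S, q ≠ (false, 0) ∧ p ∈ mem K q ∧
      ∀ a ∈ K ∩ mem K q, ∀ b ∈ K ∩ mem K q, ¬ LinearIndependent ℝ ![a - p, b - p] := by
  have bK := body_bd hK.1
  obtain ⟨Kn, r, hcut⟩ := exists_cut bK hp
  obtain ⟨v, b', h1, h2, h3, σ, c, hq, hq0, hy, hyq, Ln, t, yn, cn, ht, hyn, hcn, hn, hev⟩ :=
    contactG hK (ext_not_int hp) hcut
  refine ⟨_, ⟨v, b', h1, rfl, h2, h3⟩, (σ, c), hq, hq0, hyq, fun a ha b hb hli => ?_⟩
  have hcM := mem_cvx bK.cvx (σ, c)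
  have hdisj := isPack_fam.1 h2 (σ, c) hq hq0
  obtain ⟨f, κ, hf1, hf2⟩ := geometric_hahn_banach_open_open bK.cvx.interior isOpen_interior
    hcM.interior isOpen_interior hdisj
  have hM := mem_int_ne bK (σ, c)
  have g1 : ∀ z ∈ K, f z ≤ κ := fun z hz => cl_le bK.cvx bK.int hf1 hz
  have g2 : ∀ z ∈ mem K (σ, c), κ ≤ f z := fun z hz => by
    have h4 : ∀ z ∈ interior (mem K (σ, c)), (-f) z < -κ := fun z hz => by
      have := hf2 z hz
      show -f z < -κ
      linarith
    have h5 := cl_le hcM hM h4 hz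
    have h6 : -f z ≤ -κ := h5
    linarith
  have fy := le_antisymm (g1 p hy) (g2 p hyq)
  have fa := le_antisymm (g1 a ha.1) (g2 a ha.2)
  have fb := le_antisymm (g1 b hb.1) (g2 b hb.2)
  obtain ⟨k, hk⟩ := bK.int
  obtain ⟨m, hm⟩ := hM
  have l1 := li3 fy fa fb (hf1 k hk).ne hli
  have l2 := li3 fy fa fb (hf2 m hm).ne' hli
  have T1 : ∀ r₁ r₂ : ℝ, 0 < r₁ → 0 < r₂ → r₁ + r₂ < 1 →
      TT K p (p + r₁ • (a - p) + r₂ • (b - p)) := fun r₁ r₂ h4 h5 h6 =>
    TT_flat (f := (f : V →ₗ[ℝ] ℝ)) bK.cvx hk hf1 hy ha.1 hb.1 fy fa fb l1 h4 h5 h6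
  have T2 : ∀ r₁ r₂ : ℝ, 0 < r₁ → 0 < r₂ → r₁ + r₂ < 1 →
      TT (mem K (σ, c)) p (p + r₁ • (a - p) + r₂ • (b - p)) := fun r₁ r₂ h4 h5 h6 =>
    TT_flat (f := -(f : V →ₗ[ℝ] ℝ)) (κ := -κ) hcM hm
      (fun z hz => by
        have := hf2 z hz
        show -f z < -κ
        linarith) hyq ha.2 hb.2 (by show -f p = -κ; rw [fy]) (by show -f a = -κ; rw [fa])
      (by show -f b = -κ; rw [fb]) l2 h4 h5 h6
  have hne : ∀ r₁ r₂ : ℝ, r₁ • (a - p) + r₂ • (b - p) = 0 → r₁ = 0 ∧ r₂ = 0 := fun r₁ r₂ h =>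
    LinearIndependent.pair_iff.1 hli r₁ r₂ h
  have hpn : ∀ r₁ : ℝ, r₁ ≠ 0 → p + r₁ • (a - p) + r₁ • (b - p) ≠ p := by
    intro r₁ hr₁ h
    rw [add_assoc, add_eq_left] at h
    exact hr₁ (hne _ _ h).1
  have k1 := keyG ht hyn hcn hn hev (T1 (1 / 3) (1 / 3) (by norm_num) (by norm_num) (by norm_num))
    (T2 (1 / 3) (1 / 3) (by norm_num) (by norm_num) (by norm_num))
  have k2 := keyG ht hyn hcn hn hev (T1 (1 / 4) (1 / 4) (by norm_num) (by norm_num) (by norm_num))
    (T2 (1 / 4) (1 / 4) (by norm_num) (by norm_num) (by norm_num))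
  have k1 := k1.resolve_left (hpn _ (by norm_num))
  have k2 := k2.resolve_left (hpn _ (by norm_num))
  have h4 : (1 / 12 : ℝ) • (a - p) + (1 / 12 : ℝ) • (b - p) = 0 := by
    have h5 := sub_eq_zero.2 (k1.trans k2.symm)
    rw [← h5]
    module
  have := (hne _ _ h4).1
  norm_num at this

end Pool.Agent.J4.H72.PK
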