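import Mathlib
import Pool.Agent.Helper392.Mey.PL

/-! Volumes of the parts of a convex body in half spaces. -/

set_option autoImplicit false

namespace Pool.Agent.J4.H72.PK

open MeasureTheory Set Filter Topology
open scoped Pointwise

variable {n : ℕ}

/-- the linear form -/
def ell (w x : Fin n → ℝ) : ℝ := ∑ i, w i * x i

theorem ell_add (w x y : Fin n → ℝ) : ell w (x + y) = ell w x + ell w y := by
  unfold ell
  rw [← Finset.sum_add_distrib]
  exact Finset.sum_congr rfl fun i _ => by simp [mul_add]

theorem ell_smul (w : Fin n → ℝ) (a : ℝ) (x : Fin n → ℝ) : ell w (a • x) = a * ell w x := by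
  unfold ell
  rw [Finset.mul_sum]
  exact Finset.sum_congr rfl fun i _ => by simp; ring

theorem ell_sub (w x y : Fin n → ℝ) : ell w (x - y) = ell w x - ell w y := by
  unfold ell
  rw [← Finset.sum_sub_distrib]
  exact Finset.sum_congr rfl fun i _ => by simp [mul_sub]

theorem ell_neg (w x : Fin n → ℝ) : ell w (-x) = - ell w x := by
  unfold ell
  rw [← Finset.sum_neg_distrib]
  exact Finset.sum_congr rfl fun i _ => by simp

theorem continuous_ell (w : Fin n → ℝ) : Continuous (ell w) := by
  unfold ell
  fun_prop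

/-- the linear form as a linear map -/
def ellL (w : Fin n → ℝ) : (Fin n → ℝ) →ₗ[ℝ] ℝ where
  toFun := ell w
  map_add' := ell_add w
  map_smul' a x := by simp [ell_smul]

theorem exists_ell_eq {w : Fin n → ℝ} (hw : w ≠ 0) (t : ℝ) : ∃ x, ell w x = t := by
  have h : 0 < ell w w := by
    have h1 : ∃ i, w i ≠ 0 := by
      by_contra h
      push Not at h
      exact hw (funext h)
    obtain ⟨i, hi⟩ := h1
    unfold ell
    exact Finset.sum_pos' (fun i _ => mul_self_nonneg _) ⟨i, Finset.mem_univ _, mul_self_pos.2 hi⟩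
  exact ⟨(t / ell w w) • w, by rw [ell_smul]; field_simp⟩

theorem hyper_null {w : Fin n → ℝ} (hw : w ≠ 0) (t : ℝ) :
    volume {x : Fin n → ℝ | ell w x = t} = 0 := by
  obtain ⟨x0, hx0⟩ := exists_ell_eq hw t
  have h1 : (volume : Measure (Fin n → ℝ)) (LinearMap.ker (ellL w) : Set (Fin n → ℝ)) = 0 := by
    apply Measure.addHaar_submodule
    intro h
    obtain ⟨x, hx⟩ := exists_ell_eq hw 1
    have : x ∈ LinearMap.ker (ellL w) := by rw [h]; trivial
    rw [LinearMap.mem_ker] at this
    have h2 : ell w x = 0 := this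
    linarith
  have h2 : {x : Fin n → ℝ | ell w x = t} =
      (fun x => x + x0) '' (LinearMap.ker (ellL w) : Set (Fin n → ℝ)) := by
    ext x
    simp only [mem_ofPred_eq, mem_image, SetLike.mem_coe, LinearMap.mem_ker]
    constructor
    · intro h
      refine ⟨x - x0, ?_, by simp⟩
      show ell w (x - x0) = 0
      rw [ell_sub, h, hx0, sub_self]
    · rintro ⟨y, hy, rfl⟩
      have hy' : ell w y = 0 := hy
      rw [ell_add, hy', hx0, zero_add]
  rw [h2, image_add_right, measure_preimage_add_right, h1]

/-- convex body -/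
structure Bd (K : Set (Fin n → ℝ)) : Prop where
  cpt : IsCompact K
  cvx : Convex ℝ K
  int : (interior K).Nonempty

/-- the part of `K` where the form is at most `t` -/
def lo (K : Set (Fin n → ℝ)) (w : Fin n → ℝ) (t : ℝ) : Set (Fin n → ℝ) := K ∩ {x | ell w x ≤ t}

/-- its volume -/
noncomputable def cd (K : Set (Fin n → ℝ)) (w : Fin n → ℝ) (t : ℝ) : ℝ := volume.real (lo K w t)

section
variable {K : Set (Fin n → ℝ)} {w : Fin n → ℝ}

theorem Bd.ms (hK : Bd K) : MeasurableSet K := hK.cpt.measurableSet

theorem lo_ms (hK : Bd K) (t : ℝ) : MeasurableSet (lo K w t) :=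
  hK.ms.inter (measurableSet_le (continuous_ell w).measurable measurable_const)

theorem Bd.fin (hK : Bd K) : volume K ≠ ⊤ := hK.cpt.measure_lt_top.ne

theorem Bd.pos (hK : Bd K) : 0 < volume K :=
  (isOpen_interior.measure_pos _ hK.int).trans_le (measure_mono interior_subset)

theorem Bd.rpos (hK : Bd K) : 0 < volume.real K := ENNReal.toReal_pos hK.pos.ne' hK.fin

theorem cd_nonneg (s : ℝ) : 0 ≤ cd K w s := measureReal_nonneg

theorem cd_mono (hK : Bd K) : Monotone (cd K w) := fun s t h =>
  measureReal_mono (inter_subset_inter_right _ fun _ (hx : _ ≤ s) => hx.trans h)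
    (measure_ne_top_of_subset inter_subset_left hK.fin)

theorem cd_le (hK : Bd K) (t : ℝ) : cd K w t ≤ volume.real K :=
  measureReal_mono inter_subset_left hK.fin

/-- the complement -/
theorem hi_eq (hK : Bd K) (t : ℝ) :
    volume.real (K ∩ {x | t < ell w x}) = volume.real K - cd K w t := by
  have h1 : K ∩ {x | t < ell w x} = K \ lo K w t := by
    ext x
    simp only [lo, mem_inter_iff, mem_ofPred_eq, Set.mem_sdiff]
    constructor
    · rintro ⟨h1, h2⟩
      exact ⟨h1, fun h => absurd h.2 (not_le.2 h2)⟩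
    · rintro ⟨h1, h2⟩
      exact ⟨h1, by by_contra h; exact h2 ⟨h1, not_lt.1 h⟩⟩
  rw [h1, measureReal_sdiff (show lo K w t ⊆ K from inter_subset_left) (lo_ms hK t) hK.fin]
  rfl

theorem int_sub_pos (hK : Bd K) {a b : ℝ} {x y : Fin n → ℝ} (hx : x ∈ interior K)
    (hy : y ∈ interior K) (h1 : ell w x ≤ a) (h2 : b < ell w y) (hab : a < b) :
    0 < volume (K ∩ {x | a < ell w x ∧ ell w x ≤ b}) := by
  have hc := hK.cvx.interior
  obtain ⟨z, hz, hz1⟩ : ∃ z ∈ interior K, ell w z = (a + b) / 2 := by
    set τ := ((a + b) / 2 - ell w x) / (ell w y - ell w x) with hτ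
    have h3 : 0 < ell w y - ell w x := by linarith
    have h4 : 0 ≤ τ := div_nonneg (by linarith) h3.le
    have h5 : τ ≤ 1 := (div_le_one h3).2 (by linarith)
    refine ⟨(1 - τ) • x + τ • y, hc hx hy (by linarith) h4 (by ring), ?_⟩
    rw [ell_add, ell_smul, ell_smul]
    have h6 : τ * (ell w y - ell w x) = (a + b) / 2 - ell w x := by
      rw [hτ]; field_simp
    linarith
  have ho : IsOpen (interior K ∩ {x | a < ell w x ∧ ell w x < b}) :=
    isOpen_interior.inter ((isOpen_lt continuous_const (continuous_ell w)).inter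
      (isOpen_lt (continuous_ell w) continuous_const))
  refine (ho.measure_pos _ ⟨z, hz, ?_, ?_⟩).trans_le (measure_mono ?_)
  · show a < ell w z
    rw [hz1]; linarith
  · show ell w z < b
    rw [hz1]; linarith
  · rintro x ⟨hx1, hx2, hx3⟩
    exact ⟨interior_subset hx1, hx2, hx3.le⟩

theorem int_full (hK : Bd K) {s : Set (Fin n → ℝ)} (hs : 0 < volume (K ∩ s)) :
    (interior K ∩ s).Nonempty := by
  by_contra h
  rw [not_nonempty_iff_eq_empty] at h
  have h1 : volume (frontier K) = 0 := hK.cvx.addHaar_frontier _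
  have h2 : K ∩ s ⊆ frontier K := by
    rintro x ⟨hx1, hx2⟩
    rw [frontier]
    refine ⟨subset_closure hx1, fun h3 => ?_⟩
    have : x ∈ interior K ∩ s := ⟨h3, hx2⟩
    rw [h] at this
    exact this
  exact hs.ne' (measure_mono_null h2 h1)

/-- strictness -/
theorem cd_strict (hK : Bd K) {s t : ℝ} (hst : s < t) (h : cd K w s = cd K w t) :
    cd K w s = 0 ∨ cd K w t = volume.real K := by
  by_contra hcon
  push Not at hcon
  obtain ⟨h1, h2⟩ := hcon
  have h3 : 0 < volume (K ∩ {x | ell w x ≤ s}) := by
    rw [pos_iff_ne_zero]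
    intro h4
    apply h1
    unfold cd lo
    rw [measureReal_def, h4, ENNReal.toReal_zero]
  obtain ⟨x, hx, hx1⟩ := int_full hK h3
  have h4 : 0 < volume (K ∩ {x | t < ell w x}) := by
    rw [pos_iff_ne_zero]
    intro h5
    apply h2
    have h6 := hi_eq (w := w) hK t
    rw [measureReal_def, h5, ENNReal.toReal_zero] at h6
    linarith
  obtain ⟨y, hy, hy1⟩ := int_full hK h4
  have h5 := int_sub_pos (w := w) hK hx hy hx1 hy1 hst
  have h6 : volume.real (lo K w t) = volume.real (lo K w s) +
      volume.real (K ∩ {x | s < ell w x ∧ ell w x ≤ t}) := by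
    rw [← measureReal_union (μ := (volume : Measure (Fin n → ℝ))) (s₁ := lo K w s) ?_ ?_
      (measure_ne_top_of_subset inter_subset_left hK.fin)
      (measure_ne_top_of_subset inter_subset_left hK.fin)]
    · congr 1
      ext z
      simp only [lo, mem_inter_iff, mem_ofPred_eq, mem_union]
      constructor
      · rintro ⟨hz1, hz2⟩
        rcases le_or_gt (ell w z) s with h7 | h7
        · exact Or.inl ⟨hz1, h7⟩
        · exact Or.inr ⟨hz1, h7, hz2⟩
      · rintro (⟨hz1, hz2⟩ | ⟨hz1, hz2, hz3⟩)
        · exact ⟨hz1, hz2.trans hst.le⟩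
        · exact ⟨hz1, hz3⟩
    · rw [Set.disjoint_left]
      rintro z ⟨_, hz⟩ ⟨_, hz2, _⟩
      exact absurd hz2 (not_lt.2 hz)
    · exact hK.ms.inter ((measurableSet_lt measurable_const (continuous_ell w).measurable).inter
        (measurableSet_le (continuous_ell w).measurable measurable_const))
  have h7 : 0 < volume.real (K ∩ {x | s < ell w x ∧ ell w x ≤ t}) :=
    ENNReal.toReal_pos h5.ne' (measure_ne_top_of_subset inter_subset_left hK.fin)
  unfold cd at h
  linarith

theorem cd_cont (hK : Bd K) (hw : w ≠ 0) : Continuous (cd K w) := by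
  have h0 : ∀ t, cd K w t = ∫ x in K, (Iic t).indicator (fun _ => (1 : ℝ)) (ell w x) := by
    intro t
    have h1 : (fun x => (Iic t).indicator (fun _ => (1 : ℝ)) (ell w x)) =
        {x | ell w x ≤ t}.indicator (fun _ => (1 : ℝ)) := by
      ext x
      by_cases h : ell w x ≤ t
      · rw [indicator_of_mem (show ell w x ∈ Iic t from h),
          indicator_of_mem (show x ∈ {x | ell w x ≤ t} from h)]
      · rw [indicator_of_notMem (show ell w x ∉ Iic t from h),
          indicator_of_notMem (show x ∉ {x | ell w x ≤ t} from h)]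
    have hm : MeasurableSet {x : Fin n → ℝ | ell w x ≤ t} :=
      measurableSet_le (continuous_ell w).measurable measurable_const
    rw [h1, integral_indicator hm, Measure.restrict_restrict hm]
    simp only [cd, lo, integral_const, smul_eq_mul, mul_one, measureReal_restrict_apply_univ]
    rw [inter_comm]
  have hfin : IsFiniteMeasure (volume.restrict K) := ⟨by
    rw [Measure.restrict_apply_univ]; exact hK.cpt.measure_lt_top⟩
  rw [continuous_iff_continuousAt]
  intro t0
  rw [show cd K w = fun t => ∫ x in K, (Iic t).indicator (fun _ => (1 : ℝ)) (ell w x) from funext h0]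
  refine continuousAt_of_dominated (bound := fun _ => 1) ?_ ?_ (integrable_const _) ?_
  · refine Eventually.of_forall fun t => ?_
    exact ((measurable_const.indicator measurableSet_Iic).comp
      (continuous_ell w).measurable).aestronglyMeasurable
  · refine Eventually.of_forall fun t => Eventually.of_forall fun x => ?_
    by_cases h : ell w x ∈ Iic t
    · rw [indicator_of_mem h]; simp
    · rw [indicator_of_notMem h]; simp
  · have h1 : ∀ᵐ x ∂(volume.restrict K), ell w x ≠ t0 := by
      refine ae_restrict_of_ae ?_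
      rw [ae_iff]
      simpa using hyper_null hw t0
    filter_upwards [h1] with x hx
    rcases lt_or_gt_of_ne hx with h | h
    · have h2 : (fun t => (Iic t).indicator (fun _ => (1 : ℝ)) (ell w x)) =ᶠ[𝓝 t0] fun _ => 1 := by
        filter_upwards [lt_mem_nhds h] with t ht
        rw [indicator_of_mem (show ell w x ∈ Iic t from le_of_lt ht)]
      exact (continuousAt_congr h2).2 continuousAt_const
    · have h2 : (fun t => (Iic t).indicator (fun _ => (1 : ℝ)) (ell w x)) =ᶠ[𝓝 t0] fun _ => 0 := by
        filter_upwards [gt_mem_nhds h] with t ht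
        rw [indicator_of_notMem (show ell w x ∉ Iic t from not_le.2 ht)]
      exact (continuousAt_congr h2).2 continuousAt_const

theorem exists_cd (hK : Bd K) (hw : w ≠ 0) {a : ℝ} (h0 : 0 < a) (h1 : a < volume.real K) :
    ∃ t, cd K w t = a := by
  obtain ⟨R, hR⟩ : ∃ R : ℝ, ∀ x ∈ K, |ell w x| ≤ R := by
    obtain ⟨R, hR⟩ := hK.cpt.exists_bound_of_continuousOn (continuous_ell w).continuousOn
    exact ⟨R, fun x hx => by simpa using hR x hx⟩
  have h2 : cd K w (-R - 1) = 0 := by
    unfold cd
    have : lo K w (-R - 1) = ∅ := by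
      rw [← not_nonempty_iff_eq_empty]
      rintro ⟨x, hx1, hx2⟩
      have h3 := (abs_le.1 (hR x hx1)).1
      have h4 : ell w x ≤ -R - 1 := hx2
      linarith
    rw [this]; simp
  have h3 : cd K w R = volume.real K := by
    unfold cd
    congr 1
    ext x
    simp only [lo, mem_inter_iff, mem_ofPred_eq, and_iff_left_iff_imp]
    exact fun hx => (abs_le.1 (hR x hx)).2
  obtain ⟨t, ht⟩ := mem_range_of_exists_le_of_exists_ge (c := a) (cd_cont hK hw)
    ⟨-R - 1, h2.le.trans h0.le⟩ ⟨R, h1.le.trans h3.ge⟩
  exact ⟨t, ht⟩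

end

end Pool.Agent.J4.H72.PK
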