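import Pool.Agent.J4.H72.PK.Bump

/-! A local minimiser has no open set of directions in which inner balls of a fixed radius touch
the two supporting planes. -/

set_option autoImplicit false

namespace Pool.Agent.J4.H72.PK

open MeasureTheory Set Filter Topology
open scoped Pointwise ENNReal
open Pool.Agent.TH219.DL Pool.Agent.H349R2.Tet

variable {n : ℕ}

/-- a ball of radius `r` in `K` touches the supporting plane with outer normal `u` -/
def TB (K : Set (Fin n → ℝ)) (r : ℝ) (u : Fin n → ℝ) : Prop :=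
  ∃ z, (∀ v, ell v z + r * nm v ≤ hs K v) ∧ hs K u = ell u z + r * nm u

variable {K : Set (Fin n → ℝ)}

theorem TB.of_smul (hK : Cc K) {r a : ℝ} (ha : 0 < a) {u : Fin n → ℝ} (h : TB K r (a • u)) :
    TB K r u := by
  obtain ⟨z, h1, h2⟩ := h
  refine ⟨z, h1, ?_⟩
  rw [hs_hom hK ha.le, ell_smul_left, nm_smul ha.le] at h2
  have : a * hs K u = a * (ell u z + r * nm u) := by linarith
  exact mul_left_cancel₀ ha.ne' this

/-- the directions close to `e` or `-e` -/
theorem region (hK : Cc K) {r : ℝ} {U : Set (Fin n → ℝ)} (hU : IsOpen U) {e₀ : Fin n → ℝ}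
    (he₀ : e₀ ∈ U) (h0 : e₀ ≠ 0) (h : ∀ u ∈ U, TB K r u ∧ TB K r (-u)) :
    ∃ e : Fin n → ℝ, ell e e = 1 ∧ ∃ c : ℝ, 0 < c ∧ c < 1 ∧
      ∀ u, ell u u = 1 → c < |ell u e| → TB K r u := by
  obtain ⟨h1, h2⟩ := unit_smul h0
  set e := (nm e₀)⁻¹ • e₀ with he
  have hm := nm_pos h0
  refine ⟨e, h1, ?_⟩
  have ho : IsOpen {u : Fin n → ℝ | nm e₀ • u ∈ U} := hU.preimage (continuous_const_smul _)
  have hmem : e ∈ {u : Fin n → ℝ | nm e₀ • u ∈ U} := by
    show nm e₀ • e ∈ U
    rw [← h2]; exact he₀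
  obtain ⟨ρ, hρ, hb⟩ := Metric.isOpen_iff.1 ho e hmem
  set c := 1 - min (ρ ^ 2 / 8) (1 / 2) with hc
  have hmin0 : 0 < min (ρ ^ 2 / 8) (1 / 2) := lt_min (by positivity) (by norm_num)
  have hmin1 : min (ρ ^ 2 / 8) (1 / 2) ≤ 1 / 2 := min_le_right _ _
  have hmin2 : min (ρ ^ 2 / 8) (1 / 2) ≤ ρ ^ 2 / 8 := min_le_left _ _
  have hcone : ∀ u : Fin n → ℝ, ell u u = 1 → c < ell u e → nm e₀ • u ∈ U := by
    intro u hu hce
    refine hb (?_ : u ∈ Metric.ball e ρ)
    rw [Metric.mem_ball, dist_eq_norm, pi_norm_lt_iff hρ]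
    intro i
    have h3 : (u - e) i * (u - e) i ≤ ell (u - e) (u - e) :=
      Finset.single_le_sum (f := fun i => (u - e) i * (u - e) i)
        (fun j _ => mul_self_nonneg _) (Finset.mem_univ i)
    have h4 : ell (u - e) (u - e) = 2 - 2 * ell u e := by
      rw [ell_sub, ell_comm (u - e) u, ell_comm (u - e) e, ell_sub, ell_sub, hu, h1, ell_comm e u]
      ring
    rw [Real.norm_eq_abs, ← abs_of_pos hρ]
    apply sq_lt_sq.1
    nlinarith
  refine ⟨c, by linarith, by linarith, fun u hu hce => ?_⟩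
  rcases le_total 0 (ell u e) with h3 | h3
  · rw [abs_of_nonneg h3] at hce
    exact TB.of_smul hK hm (h _ (hcone u hu hce)).1
  · rw [abs_of_nonpos h3, ← ell_neg_left] at hce
    have h4 := (h _ (hcone (-u) (by rw [ell_neg, ell_neg_left, neg_neg, hu]) hce)).2
    rw [← smul_neg, neg_neg] at h4
    exact TB.of_smul hK hm h4

/-- two unit vectors are equal if their product is one -/
theorem ell_lt_one {u v : Fin n → ℝ} (hu : ell u u = 1) (hv : ell v v = 1) (h : u ≠ v) :
    ell u v < 1 := by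
  have h1 := cs u v
  rw [nm_one hu, nm_one hv, one_mul] at h1
  refine h1.lt_of_ne fun h2 => h ?_
  have h3 : ell (u - v) (u - v) = 0 := by
    rw [ell_sub, ell_comm (u - v) u, ell_comm (u - v) v, ell_sub, ell_sub, hu, hv, ell_comm v u, h2]
    ring
  exact sub_eq_zero.1 (ell_self_eq_zero h3)

theorem sphere_cpt : IsCompact {u : Fin n → ℝ | ell u u = 1} := by
  have hcl : IsClosed {u : Fin n → ℝ | ell u u = 1} := by
    refine isClosed_eq ?_ continuous_const
    unfold ell
    fun_prop
  refine (isCompact_closedBall (0 : Fin n → ℝ) 1).of_isClosed_subset hcl fun u hu => ?_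
  rw [mem_closedBall_zero_iff, pi_norm_le_iff_of_nonneg zero_le_one]
  intro i
  have h3 : u i * u i ≤ ell u u :=
    Finset.single_le_sum (f := fun i => u i * u i) (fun j _ => mul_self_nonneg _)
      (Finset.mem_univ i)
  have hu : ell u u = 1 := hu
  rw [hu] at h3
  rw [Real.norm_eq_abs, ← abs_one]
  exact abs_le_abs_of_sq_le_sq (by nlinarith)
where
  abs_le_abs_of_sq_le_sq {a b : ℝ} (h : a ^ 2 ≤ b ^ 2) : |a| ≤ |b| := sq_le_sq.1 h

/-- off the region the support points stay away from the planes in the region -/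
theorem gap (hK : Cc K) {r : ℝ} (hr : 0 < r) {e : Fin n → ℝ} {c₀ c : ℝ} (hc : c₀ < c) (h : ∀ u, ell u u = 1 → c₀ < |ell u e| → TB K r u) :
    ∃ κ > 0, ∀ u v x, ell u u = 1 → ell v v = 1 → x ∈ K → |ell u e| ≤ c₀ → c ≤ |ell v e| →
      ell u x = hs K u → κ ≤ hs K v - ell v x := by
  set Z : Set ((Fin n → ℝ) × (Fin n → ℝ) × (Fin n → ℝ)) :=
    ({u | ell u u = 1} ×ˢ ({v | ell v v = 1} ×ˢ K)) ∩
      {p | |ell p.1 e| ≤ c₀ ∧ c ≤ |ell p.2.1 e| ∧ ell p.1 p.2.2 = hs K p.1} with hZ
  have hcont : ∀ (f g : (Fin n → ℝ) × (Fin n → ℝ) × (Fin n → ℝ) → Fin n → ℝ),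
      Continuous f → Continuous g → Continuous fun p => ell (f p) (g p) := by
    intro f g hf hg
    unfold ell
    exact continuous_finsetSum _ fun i _ =>
      ((continuous_apply i).comp hf).mul ((continuous_apply i).comp hg)
  have hZc : IsCompact Z := by
    refine (sphere_cpt.prod (sphere_cpt.prod hK.cpt)).inter_right ?_
    refine IsClosed.inter ?_ (IsClosed.inter ?_ ?_)
    · exact isClosed_le ((hcont _ _ continuous_fst continuous_const).abs) continuous_const
    · exact isClosed_le continuous_const ((hcont _ _ (continuous_fst.comp continuous_snd)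
        continuous_const).abs)
    · exact isClosed_eq (hcont _ _ continuous_fst (continuous_snd.comp continuous_snd))
        ((continuous_hs hK.cpt).comp continuous_fst)
  have hφ : Continuous fun p : (Fin n → ℝ) × (Fin n → ℝ) × (Fin n → ℝ) =>
      hs K p.2.1 - ell p.2.1 p.2.2 :=
    ((continuous_hs hK.cpt).comp (continuous_fst.comp continuous_snd)).sub
      (hcont _ _ (continuous_fst.comp continuous_snd) (continuous_snd.comp continuous_snd))
  have hpos : ∀ p ∈ Z, 0 < hs K p.2.1 - ell p.2.1 p.2.2 := by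
    rintro ⟨u, v, x⟩ ⟨⟨hu, hv, hx⟩, hue, hve, hux⟩
    simp only at hu hv hx hue hve hux ⊢
    have hu : ell u u = 1 := hu
    have hv : ell v v = 1 := hv
    rcases (sub_nonneg.2 (le_hs hK.cpt v hx)).lt_or_eq with h1 | h1
    · exact h1
    exfalso
    have hvx : ell v x = hs K v := by linarith
    have huv : u ≠ v := fun h2 => by rw [h2] at hue; linarith
    have hlt := ell_lt_one hu hv huv
    -- directions between `v` and `u`
    have hev : ∀ᶠ τ : ℝ in 𝓝 0,
        c₀ * nm ((1 - τ) • v + τ • u) < |ell ((1 - τ) • v + τ • u) e| := by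
      have hcw : Continuous fun τ : ℝ => (1 - τ) • v + τ • u := by fun_prop
      have hl : Continuous fun τ : ℝ => c₀ * nm ((1 - τ) • v + τ • u) :=
        continuous_const.mul (continuous_nm.comp hcw)
      have hr : Continuous fun τ : ℝ => |ell ((1 - τ) • v + τ • u) e| := by
        have : Continuous fun τ : ℝ => ell ((1 - τ) • v + τ • u) e := by
          simp only [ell_add_left, ell_smul_left]
          fun_prop
        exact this.abs
      refine hl.continuousAt.eventually_lt hr.continuousAt ?_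
      simp only [sub_zero, one_smul, zero_smul, add_zero]
      rw [nm_one hv, mul_one]
      exact hc.trans_le hve
    obtain ⟨τ, hτ, hτ0, hτ1⟩ : ∃ τ : ℝ,
        c₀ * nm ((1 - τ) • v + τ • u) < |ell ((1 - τ) • v + τ • u) e| ∧ 0 < τ ∧ τ < 1 := by
      have h2 : ∀ᶠ τ : ℝ in 𝓝[>] 0,
          c₀ * nm ((1 - τ) • v + τ • u) < |ell ((1 - τ) • v + τ • u) e| :=
        hev.filter_mono nhdsWithin_le_nhds
      have h3 : ∀ᶠ τ : ℝ in 𝓝[>] 0, 0 < τ := self_mem_nhdsWithin
      have h4 : ∀ᶠ τ : ℝ in 𝓝[>] 0, τ < 1 :=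
        (Iio_mem_nhds (by norm_num : (0 : ℝ) < 1)) |> fun h => nhdsWithin_le_nhds h
      exact (h2.and (h3.and h4)).exists
    set w := (1 - τ) • v + τ • u with hw
    have hww : ell w w < 1 := by
      have : ell w w = 1 - 2 * (τ * (1 - τ)) * (1 - ell u v) := by
        rw [hw, ell_add, ell_add_left, ell_add_left, ell_smul, ell_smul, ell_smul_left,
          ell_smul_left, ell_smul, ell_smul, ell_smul_left, ell_smul_left, hu, hv, ell_comm v u]
        ring
      rw [this]
      have h2 : 0 < τ * (1 - τ) := mul_pos hτ0 (by linarith)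
      nlinarith
    have hw0 : w ≠ 0 := by
      intro h2
      rw [h2, nm_zero] at hτ
      have : ell (0 : Fin n → ℝ) e = 0 := by simp [ell]
      rw [this] at hτ
      simp at hτ
    have hwn := nm_pos hw0
    have hw1 : nm w < 1 := by
      have := nm_sq w
      nlinarith
    obtain ⟨h2, h3⟩ := unit_smul hw0
    have hT : TB K r w := by
      have h4 : TB K r ((nm w)⁻¹ • w) := by
        refine h _ h2 ?_
        rw [ell_smul_left, abs_mul, abs_of_pos (inv_pos.2 hwn)]
        rw [← div_eq_inv_mul, lt_div_iff₀ hwn]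
        exact hτ
      exact TB.of_smul hK (inv_pos.2 hwn) h4
    obtain ⟨z, hz1, hz2⟩ := hT
    have h4 := hz1 v
    have h5 := hz1 u
    rw [nm_one hv] at h4
    rw [nm_one hu] at h5
    have h6 := le_hs hK.cpt w hx
    have h7 : ell w x = (1 - τ) * hs K v + τ * hs K u := by
      rw [hw, ell_add_left, ell_smul_left, ell_smul_left, hvx, hux]
    have h8 : ell w z = (1 - τ) * ell v z + τ * ell u z := by
      rw [hw, ell_add_left, ell_smul_left, ell_smul_left]
    have h9 : (1 - τ) * (ell v z + r * 1) ≤ (1 - τ) * hs K v :=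
      mul_le_mul_of_nonneg_left h4 (by linarith)
    have h10 : τ * (ell u z + r * 1) ≤ τ * hs K u := mul_le_mul_of_nonneg_left h5 hτ0.le
    have h11 : ell w z + r ≤ ell w z + r * nm w := by
      calc ell w z + r = (1 - τ) * (ell v z + r * 1) + τ * (ell u z + r * 1) := by rw [h8]; ring
        _ ≤ ell w x := by rw [h7]; linarith
        _ ≤ ell w z + r * nm w := by rw [← hz2]; exact h6
    nlinarith
  rcases Z.eq_empty_or_nonempty with hZe | hZn
  · refine ⟨1, one_pos, fun u v x hu hv hx hue hve hux => ?_⟩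
    have : (u, v, x) ∈ Z := ⟨⟨hu, hv, hx⟩, hue, hve, hux⟩
    rw [hZe] at this
    exact this.elim
  · obtain ⟨p, hp, hmin⟩ := hZc.exists_isMinOn hZn hφ.continuousOn
    refine ⟨_, hpos p hp, fun u v x hu hv hx hue hve hux => ?_⟩
    have h1 : (u, v, x) ∈ Z := ⟨⟨hu, hv, hx⟩, hue, hve, hux⟩
    exact hmin h1

/-- the supporting points of the perturbed function -/
theorem supp_pt (hK : Cc K) {r : ℝ} {e : Fin n → ℝ} (he : ell e e = 1) {c₀ c κ : ℝ}
    (hc0 : 0 < c₀) (hc : c₀ < c) (hc1 : c < 1)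
    (h : ∀ u, ell u u = 1 → c₀ < |ell u e| → TB K r u)
    (hκ : ∀ u v x, ell u u = 1 → ell v v = 1 → x ∈ K → |ell u e| ≤ c₀ → c ≤ |ell v e| →
      ell u x = hs K u → κ ≤ hs K v - ell v x) {ε : ℝ} (hε1 : 6 * |ε| ≤ r) (hε2 : |ε| ≤ κ)
    {u : Fin n → ℝ} (hu : ell u u = 1) :
    ∃ x ∈ wf (fun v => hs K v + ε * gb e c v), ell u x = hs K u + ε * gb e c u := by
  have hcc : 0 ≤ c := by linarith
  rcases lt_or_ge c₀ |ell u e| with h1 | h1
  · obtain ⟨z, hz1, hz2⟩ := h u hu h1
    rw [nm_one hu, mul_one] at hz2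
    have hin : ∀ v, |ε * gb e c v - ε * ell v (gq e c u + gq e c (-u))| ≤
        6 * |ε| * (nm v - ell u v) := by
      intro v
      have := gb_ineq he hcc hc1.le hu v
      rw [← mul_sub, abs_mul]
      calc |ε| * |gb e c v - ell v (gq e c u + gq e c (-u))| ≤
          |ε| * (6 * (nm v - ell u v)) := mul_le_mul_of_nonneg_left this (abs_nonneg _)
        _ = _ := by ring
    refine ⟨z + r • u + ε • (gq e c u + gq e c (-u)), fun v => ?_, ?_⟩
    · have h2 := hz1 v
      have h3 := (abs_le.1 (hin v)).1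
      have h4 : 0 ≤ nm v - ell u v := by
        have := cs u v
        rw [nm_one hu, one_mul] at this
        linarith
      have h5 : 6 * |ε| * (nm v - ell u v) ≤ r * (nm v - ell u v) :=
        mul_le_mul_of_nonneg_right hε1 h4
      rw [ell_add, ell_add, ell_smul, ell_smul, ell_comm v u]
      linarith
    · have h3 := hin u
      rw [nm_one hu, hu, sub_self, mul_zero] at h3
      have h4 := abs_eq_zero.1 (le_antisymm h3 (abs_nonneg _))
      rw [ell_add, ell_add, ell_smul, ell_smul, hu, hz2]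
      linarith
  · obtain ⟨x, hx, hx'⟩ := exists_hs hK u
    refine ⟨x, fun v => ?_, ?_⟩
    · by_cases hv0 : v = 0
      · subst hv0
        have e1 : ell (0 : Fin n → ℝ) x = 0 := by simp [ell]
        have e2 : gb e c (0 : Fin n → ℝ) = 0 := gb_zero_of (by rw [nm_zero]; simp [ell])
        show ell (0 : Fin n → ℝ) x ≤ hs K 0 + ε * gb e c 0
        rw [e1, hs_zero hK, e2]
        simp
      obtain ⟨h2, h3⟩ := unit_smul hv0
      set v' := (nm v)⁻¹ • v with hv'
      have key : ell v' x ≤ hs K v' + ε * gb e c v' := by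
        rcases lt_or_ge |ell v' e| c with h4 | h4
        · rw [gb_zero_of (by rw [nm_one h2, mul_one]; exact h4.le), mul_zero, add_zero]
          exact le_hs hK.cpt v' hx
        · have h5 := hκ u v' x hu h2 hx h1 h4 hx'
          have h6 := gb_bound he hcc v'
          rw [nm_one h2] at h6
          have h7 : |ε * gb e c v'| ≤ κ := by
            rw [abs_mul]
            nlinarith [abs_nonneg ε, abs_nonneg (gb e c v')]
          have := (abs_le.1 h7).1
          linarith
      have hN := nm_nonneg v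
      calc ell v x = nm v * ell v' x := by rw [← ell_smul_left, ← h3]
        _ ≤ nm v * (hs K v' + ε * gb e c v') := mul_le_mul_of_nonneg_left key hN
        _ = hs K (nm v • v') + ε * gb e c (nm v • v') := by
          rw [hs_hom hK hN, gb_smul hN]; ring
        _ = _ := by rw [← h3]
    · rw [gb_zero_of (by rw [nm_one hu, mul_one]; exact h1.trans hc.le), mul_zero, add_zero]
      exact hx'

end Pool.Agent.J4.H72.PK
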