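import Pool.Agent.J4.H72.PK.Contact

/-! Consequences for the body: it is the hull of its contact points; strictly convex bodies. -/

set_option autoImplicit false

namespace Pool.Agent.J4.H72.PK

open MeasureTheory Set Filter Topology
open scoped Pointwise ENNReal
open Pool.Agent.TH219.DL Pool.Agent.H349R2.Tet

attribute [local irreducible] dt

/-- the index sets of the densest lattice packings or double lattice packings -/
def Dst (s : Bool) (K : Set V) (S : Set (Bool × V)) : Prop :=
  ∃ (v : V) (b : Fin 3 → V), dt b ≠ 0 ∧ S = fam s v b ∧ IsPack K S ∧ den K S = dS s K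

/-- the contact points -/
def Ct (s : Bool) (K : Set V) (y : V) : Prop :=
  y ∈ K ∧ ∃ S, Dst s K S ∧ ∃ q ∈ S, q ≠ (false, 0) ∧ y ∈ mem K q

variable {s : Bool} {K : Set V}

theorem exists_ct (hK : LocMin (dS s) K) {w : V} (hw : w ≠ 0) :
    ∃ y, Ct s K y ∧ ell w y = hs K w := by
  obtain ⟨v, b, h1, h2, h3, q, hq, hq0, y, hy, hyw, hyq⟩ := contact hK hw
  exact ⟨y, ⟨hy, _, ⟨v, b, h1, rfl, h2, h3⟩, q, hq, hq0, hyq⟩, hyw⟩

theorem hull (hK : LocMin (dS s) K) : K = closure (convexHull ℝ {y | Ct s K y}) := by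
  have bK := body_bd hK.1
  have hsub : closure (convexHull ℝ {y | Ct s K y}) ⊆ K :=
    closure_minimal (convexHull_min (fun y hy => hy.1) bK.cvx) bK.cpt.isClosed
  refine Subset.antisymm ?_ hsub
  have hne : (closure (convexHull ℝ {y | Ct s K y})).Nonempty := by
    have h1 : (Pi.single 0 1 : V) ≠ 0 := by
      intro h
      have := congrFun h 0
      simp at this
    obtain ⟨y, hy, -⟩ := exists_ct hK h1
    exact ⟨y, subset_closure (subset_convexHull ℝ _ hy)⟩
  have hc : Cc (closure (convexHull ℝ {y | Ct s K y})) :=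
    ⟨bK.cpt.of_isClosed_subset isClosed_closure hsub, (convex_convexHull ℝ _).closure, hne⟩
  intro x hx
  by_contra hx'
  obtain ⟨w, hw⟩ := sep hc hx'
  have hw0 : w ≠ 0 := by
    intro h
    subst h
    rw [hs_zero hc] at hw
    have : ell (0 : V) x = 0 := by simp [ell]
    linarith
  obtain ⟨y, hy, hyw⟩ := exists_ct hK hw0
  have h1 := le_hs hc.cpt w (subset_closure (subset_convexHull ℝ _ hy))
  have h2 := le_hs bK.cpt w hx
  linarith

/-- supporting planes -/
theorem supp_plane (bK : Bd K) {y : V} (hy : y ∈ frontier K) :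
    y ∈ K ∧ ∃ w : V, w ≠ 0 ∧ ell w y = hs K w := by
  have hyK : y ∈ K := bK.cpt.isClosed.frontier_subset hy
  have hyi : y ∉ interior K := hy.2
  obtain ⟨f, hf⟩ := geometric_hahn_banach_open_point bK.cvx.interior isOpen_interior hyi
  set w : V := fun i => f (Pi.single i 1) with hw
  have hfw : ∀ y, f y = ell w y := by
    intro y
    have : y = ∑ i, y i • (Pi.single i (1 : ℝ) : V) := by
      rw [← pi_eq_sum_univ' y]
    conv_lhs => rw [this]
    rw [map_sum]
    unfold ell
    refine Finset.sum_congr rfl fun i _ => ?_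
    rw [map_smul, smul_eq_mul, hw, mul_comm]
  obtain ⟨x, hx⟩ := bK.int
  refine ⟨hyK, w, fun h0 => ?_, le_antisymm (le_hs bK.cpt w hyK) (hs_le bK.cc.ne fun z hz => ?_)⟩
  · have h1 := hf x hx
    rw [hfw, hfw, h0] at h1
    simp [ell] at h1
  · have h5 : z ∈ closure (interior K) := by
      rw [bK.cvx.closure_interior_eq_closure_of_nonempty_interior bK.int]
      exact subset_closure hz
    have hcl : IsClosed {z : V | ell w z ≤ ell w y} := isClosed_le (continuous_ell w) continuous_const
    refine closure_minimal (fun a ha => ?_) hcl h5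
    have h1 := hf a ha
    rw [hfw, hfw] at h1
    exact h1.le

theorem strict_ct (hK : LocMin (dS s) K) (hs' : StrictConvex ℝ K) {y : V} (hy : y ∈ frontier K) :
    Ct s K y := by
  have bK := body_bd hK.1
  obtain ⟨hyK, w, hw, hyw⟩ := supp_plane bK hy
  obtain ⟨z, hz, hzw⟩ := exists_ct hK hw
  by_cases h : y = z
  · rw [h]; exact hz
  exfalso
  have h1 := hs' hyK hz.1 h (by norm_num : (0 : ℝ) < 1 / 2) (by norm_num : (0 : ℝ) < 1 / 2)
    (by norm_num)
  have h2 := int_lt bK hw h1
  rw [ell_add, ell_smul, ell_smul, hyw, hzw] at h2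
  linarith

theorem fam_countable (s : Bool) (v : V) (b : Fin 3 → V) : (fam s v b).Countable := by
  have hl : (lat b).Countable := lat_countable b
  have h1 : fam s v b ⊆ ((fun u => ((false, u) : Bool × V)) '' lat b) ∪
      ((fun u => ((true, v + u) : Bool × V)) '' lat b) := by
    rintro ⟨σ, c⟩ (⟨h, hc⟩ | ⟨-, h, u, hu, hc⟩)
    · have h : σ = false := h
      subst h
      exact Or.inl ⟨c, hc, rfl⟩
    · have h : σ = true := h
      have hc : c = v + u := hc
      subst h hc
      exact Or.inr ⟨u, hu, rfl⟩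
  exact ((hl.image _).union (hl.image _)).mono h1

theorem one_point (hs' : StrictConvex ℝ K) {q : Bool × V}
    (hd : Disjoint (interior K) (interior (mem K q))) : (K ∩ mem K q).Subsingleton := by
  rintro x ⟨hx, hx'⟩ y ⟨hy, hy'⟩
  by_contra hne
  have h1 := hs' hx hy hne (by norm_num : (0 : ℝ) < 1 / 2) (by norm_num : (0 : ℝ) < 1 / 2)
    (by norm_num)
  rw [interior_mem, Set.disjoint_left] at hd
  refine hd h1 ?_
  obtain ⟨σ, c⟩ := q
  cases σ
  · rw [mem_iff_false] at hx' hy' ⊢
    have h2 := hs' hx' hy' (fun h => hne (sub_left_injective h))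
      (by norm_num : (0 : ℝ) < 1 / 2) (by norm_num : (0 : ℝ) < 1 / 2) (by norm_num)
    convert h2 using 1
    module
  · rw [mem_iff_true] at hx' hy' ⊢
    have h2 := hs' hx' hy' (fun h => hne (sub_right_injective h))
      (by norm_num : (0 : ℝ) < 1 / 2) (by norm_num : (0 : ℝ) < 1 / 2) (by norm_num)
    convert h2 using 1
    module

theorem frontier_unc (bK : Bd K) : ¬ (frontier K).Countable := by
  intro h
  have hr : 1 < Module.rank ℝ V := by
    rw [rank_fun']
    norm_num
  have h1 := h.isConnected_compl_of_one_lt_rank hr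
  have h2 := h1.isPreconnected (interior K) Kᶜ isOpen_interior bK.cpt.isClosed.isOpen_compl
    (by
      intro x hx
      by_cases hxK : x ∈ K
      · left
        by_contra hxi
        exact hx ⟨subset_closure hxK, hxi⟩
      · exact Or.inr hxK)
    (by
      obtain ⟨x, hx⟩ := bK.int
      exact ⟨x, fun h => h.2 hx, hx⟩)
    (by
      obtain ⟨R, hR⟩ := bK.cpt.isBounded.exists_norm_le
      refine ⟨fun _ => |R| + 1, ?_⟩
      have h3 : (fun _ => |R| + 1 : V) ∉ K := by
        intro h
        have h4 := hR _ h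
        have h5 := norm_le_pi_norm (fun _ => |R| + 1 : V) 0
        rw [Real.norm_eq_abs, abs_of_pos (by positivity)] at h5
        have := le_abs_self R
        linarith
      exact ⟨fun h => h3 (bK.cpt.isClosed.frontier_subset h), h3⟩)
  obtain ⟨x, -, hx1, hx2⟩ := h2
  exact hx2 (interior_subset hx1)

theorem strict_unc (hK : LocMin (dS s) K) (hs' : StrictConvex ℝ K) :
    ¬ {S | Dst s K S}.Countable := by
  intro h
  have bK := body_bd hK.1
  apply frontier_unc bK
  have hsub : frontier K ⊆ ⋃ S ∈ {S | Dst s K S}, ⋃ q ∈ S \ {(false, 0)}, (K ∩ mem K q) := by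
    intro y hy
    obtain ⟨hyK, S, hS, q, hq, hq0, hyq⟩ := strict_ct hK hs' hy
    simp only [mem_iUnion]
    exact ⟨S, hS, q, ⟨hq, hq0⟩, hyK, hyq⟩
  refine Countable.mono hsub (h.biUnion fun S hS => ?_)
  obtain ⟨v, b, -, rfl, hpk, -⟩ := hS
  refine ((fam_countable s v b).mono sdiff_subset).biUnion fun q hq => ?_
  exact (one_point hs' (isPack_fam.1 hpk q hq.1 hq.2)).countable

end Pool.Agent.J4.H72.PK
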