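import Pool.Agent.J4.H72.PK.Dens

/-! Support functions; a body at a local minimum is extremal among the bodies with its difference
body. -/

set_option autoImplicit false

namespace Pool.Agent.J4.H72.PK

open MeasureTheory Set Filter Topology
open scoped Pointwise ENNReal
open Pool.Agent.TH219.DL Pool.Agent.H349R2.Tet

section
variable {n : ℕ}

/-- the support function -/
noncomputable def hs (K : Set (Fin n → ℝ)) (w : Fin n → ℝ) : ℝ := sSup (ell w '' K)

/-- nonempty compact convex sets -/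
structure Cc (K : Set (Fin n → ℝ)) : Prop where
  cpt : IsCompact K
  cvx : Convex ℝ K
  ne : K.Nonempty

variable {A B C K : Set (Fin n → ℝ)}

theorem Bd.cc (h : Bd K) : Cc K := ⟨h.cpt, h.cvx, h.int.mono interior_subset⟩

theorem bddAbove_ell (h : IsCompact K) (w : Fin n → ℝ) : BddAbove (ell w '' K) :=
  (h.image (continuous_ell w)).bddAbove

theorem le_hs (h : IsCompact K) (w : Fin n → ℝ) {x : Fin n → ℝ} (hx : x ∈ K) :
    ell w x ≤ hs K w := le_csSup (bddAbove_ell h w) (mem_image_of_mem _ hx)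

theorem exists_hs (h : Cc K) (w : Fin n → ℝ) : ∃ x ∈ K, ell w x = hs K w := by
  obtain ⟨x, hx, hx'⟩ := (h.cpt.image (continuous_ell w)).sSup_mem (h.ne.image _)
  exact ⟨x, hx, hx'⟩

theorem hs_le (h : K.Nonempty) {w : Fin n → ℝ} {c : ℝ} (hc : ∀ x ∈ K, ell w x ≤ c) :
    hs K w ≤ c := csSup_le (h.image _) (by rintro _ ⟨x, hx, rfl⟩; exact hc x hx)

theorem Cc.add (hA : Cc A) (hB : Cc B) : Cc (A + B) :=
  ⟨hA.cpt.add hB.cpt, hA.cvx.add hB.cvx, hA.ne.add hB.ne⟩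

theorem Cc.neg (hA : Cc A) : Cc (-A) := ⟨hA.cpt.neg, hA.cvx.neg, hA.ne.neg⟩

theorem Cc.smul (hA : Cc A) (c : ℝ) : Cc (c • A) := ⟨hA.cpt.smul c, hA.cvx.smul c, hA.ne.smul_set⟩

theorem Cc.sub (hA : Cc A) (hB : Cc B) : Cc (A - B) := by
  rw [sub_eq_add_neg]
  exact hA.add hB.neg

theorem cc_singleton (a : Fin n → ℝ) : Cc ({a} : Set (Fin n → ℝ)) :=
  ⟨isCompact_singleton, convex_singleton a, singleton_nonempty a⟩

theorem hs_singleton (a w : Fin n → ℝ) : hs {a} w = ell w a := by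
  unfold hs
  rw [image_singleton, csSup_singleton]

theorem hs_add (hA : Cc A) (hB : Cc B) (w : Fin n → ℝ) : hs (A + B) w = hs A w + hs B w := by
  apply le_antisymm
  · refine hs_le (hA.ne.add hB.ne) ?_
    rintro _ ⟨x, hx, y, hy, rfl⟩
    simp only
    rw [ell_add]
    exact add_le_add (le_hs hA.cpt w hx) (le_hs hB.cpt w hy)
  · obtain ⟨x, hx, hx'⟩ := exists_hs hA w
    obtain ⟨y, hy, hy'⟩ := exists_hs hB w
    rw [← hx', ← hy', ← ell_add]
    exact le_hs (hA.add hB).cpt w (add_mem_add hx hy)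

theorem hs_neg (w : Fin n → ℝ) : hs (-A) w = hs A (-w) := by
  unfold hs
  congr 1
  ext r
  have e : ∀ x, ell (-w) x = ell w (-x) := by
    intro x
    unfold ell
    exact Finset.sum_congr rfl fun i _ => by simp
  constructor
  · rintro ⟨x, hx, rfl⟩
    exact ⟨-x, hx, by rw [e, neg_neg]⟩
  · rintro ⟨x, hx, rfl⟩
    exact ⟨-x, by simpa using hx, by rw [e]⟩

theorem hs_sub (hA : Cc A) (hB : Cc B) (w : Fin n → ℝ) : hs (A - B) w = hs A w + hs B (-w) := by
  rw [sub_eq_add_neg, hs_add hA hB.neg, hs_neg]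

theorem hs_smul (hA : Cc A) {c : ℝ} (hc : 0 ≤ c) (w : Fin n → ℝ) :
    hs (c • A) w = c * hs A w := by
  apply le_antisymm
  · refine hs_le hA.ne.smul_set ?_
    rintro _ ⟨x, hx, rfl⟩
    simp only
    rw [ell_smul]
    exact mul_le_mul_of_nonneg_left (le_hs hA.cpt w hx) hc
  · obtain ⟨x, hx, hx'⟩ := exists_hs hA w
    rw [← hx', ← ell_smul]
    exact le_hs (hA.smul c).cpt w (smul_mem_smul_set hx)

theorem sep (hB : Cc B) {x : Fin n → ℝ} (hx : x ∉ B) : ∃ w, hs B w < ell w x := by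
  obtain ⟨f, u, hf, hu⟩ := geometric_hahn_banach_closed_point hB.cvx hB.cpt.isClosed hx
  set w : Fin n → ℝ := fun i => f (Pi.single i 1) with hw
  have hfw : ∀ y, f y = ell w y := by
    intro y
    have : y = ∑ i, y i • (Pi.single i (1 : ℝ) : Fin n → ℝ) := by
      rw [← pi_eq_sum_univ' y]
    conv_lhs => rw [this]
    rw [map_sum]
    unfold ell
    refine Finset.sum_congr rfl fun i _ => ?_
    rw [map_smul, smul_eq_mul, hw, mul_comm]
  refine ⟨w, ?_⟩
  obtain ⟨y, hy, hy'⟩ := exists_hs hB w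
  rw [← hy', ← hfw, ← hfw]
  exact (hf y hy).trans hu

theorem sub_of_hs (hA : IsCompact A) (hB : Cc B) (h : ∀ w, hs A w ≤ hs B w) : A ⊆ B := by
  intro x hx
  by_contra hx'
  obtain ⟨w, hw⟩ := sep hB hx'
  exact absurd ((le_hs hA w hx).trans (h w)) (not_le.2 hw)

theorem eq_of_hs (hA : Cc A) (hB : Cc B) (h : ∀ w, hs A w = hs B w) : A = B :=
  (sub_of_hs hA.cpt hB fun w => (h w).le).antisymm (sub_of_hs hB.cpt hA fun w => (h w).ge)

theorem hs_zero (h : Cc K) : hs K 0 = 0 := by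
  obtain ⟨x, -, hx⟩ := exists_hs h 0
  rw [← hx]
  simp [ell]

end

variable {K K₁ K₂ : Set V} {δ : Set V → ℝ≥0∞}

/-- the interpolating bodies -/
def kt (K L : Set V) (t : ℝ) : Set V := (1 - t) • K + t • L

theorem kt_body (hK : Bd K) {L : Set V} (hL : Cc L) {t : ℝ} (_ : 0 ≤ t) (h1 : t < 1) :
    Bd (kt K L t) := by
  have hc := (hK.cc.smul (1 - t)).add (hL.smul t)
  refine ⟨hc.cpt, hc.cvx, ?_⟩
  have h2 : (interior ((1 - t) • K)).Nonempty := by
    rw [interior_smul₀ (by linarith)]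
    exact hK.int.smul_set
  have h3 : interior ((1 - t) • K) + t • L ⊆ interior (kt K L t) := subset_interior_add_left
  exact (h2.add hL.ne.smul_set).mono h3

theorem hs_kt (hK : Cc K) {L : Set V} (hL : Cc L) {t : ℝ} (h0 : 0 ≤ t) (h1 : t ≤ 1) (w : V) :
    hs (kt K L t) w = (1 - t) * hs K w + t * hs L w := by
  unfold kt
  rw [hs_add (hK.smul _) (hL.smul _), hs_smul hK (by linarith), hs_smul hL h0]

theorem kt_dist (hK : K.Nonempty) {L : Set V} (hL : L.Nonempty) {t M : ℝ} (h0 : 0 ≤ t)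
    (hM : ∀ x ∈ K, ∀ y ∈ L, ‖x - y‖ ≤ M) : Metric.hausdorffDist K (kt K L t) ≤ t * M := by
  obtain ⟨x0, hx0⟩ := hK
  obtain ⟨y0, hy0⟩ := hL
  have hM0 : 0 ≤ M := (norm_nonneg _).trans (hM x0 hx0 y0 hy0)
  have key : ∀ x ∈ K, ∀ y ∈ L, dist x ((1 - t) • x + t • y) ≤ t * M := by
    intro x hx y hy
    rw [dist_eq_norm]
    have e : x - ((1 - t) • x + t • y) = t • (x - y) := by
      rw [sub_smul, one_smul, smul_sub]; abel
    rw [e, norm_smul, Real.norm_eq_abs, abs_of_nonneg h0]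
    exact mul_le_mul_of_nonneg_left (hM x hx y hy) h0
  refine Metric.hausdorffDist_le_of_mem_dist (by positivity) (fun x hx => ?_) ?_
  · exact ⟨_, add_mem_add (smul_mem_smul_set hx) (smul_mem_smul_set hy0), key x hx y0 hy0⟩
  · rintro _ ⟨_, ⟨x, hx, rfl⟩, _, ⟨y, hy, rfl⟩, rfl⟩
    refine ⟨x, hx, ?_⟩
    rw [dist_comm]
    exact key x hx y hy

/-- the density function `δ` has a local minimum at `K` -/
def LocMin (δ : Set V → ℝ≥0∞) (K : Set V) : Prop :=
  Body K ∧ ∃ η > 0, ∀ K' : Set V, Body K' → Metric.hausdorffDist K K' ≤ η → δ K ≤ δ K'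

theorem extremal (hδ : Good δ) (hK : LocMin δ K) (c₁ : IsCompact K₁) (v₁ : Convex ℝ K₁)
    (c₂ : IsCompact K₂) (v₂ : Convex ℝ K₂) (hsum : K₁ + K₂ = (2 : ℝ) • K)
    (hdif : K₁ - K₁ = K₂ - K₂) : ∃ a : V, K₁ = K + {a} ∧ K₂ = K + {-a} := by
  obtain ⟨hKb, η, hη, hmin⟩ := hK
  have bK := body_bd hKb
  have cK := bK.cc
  have hne : (K₁ + K₂).Nonempty := by rw [hsum]; exact cK.ne.smul_set
  have n₁ : K₁.Nonempty := by
    obtain ⟨_, ⟨x, hx, y, hy, rfl⟩⟩ := hne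
    exact ⟨x, hx⟩
  have n₂ : K₂.Nonempty := by
    obtain ⟨_, ⟨x, hx, y, hy, rfl⟩⟩ := hne
    exact ⟨y, hy⟩
  have C₁ : Cc K₁ := ⟨c₁, v₁, n₁⟩
  have C₂ : Cc K₂ := ⟨c₂, v₂, n₂⟩
  have e1 : ∀ w, hs K₁ w + hs K₂ w = 2 * hs K w := fun w => by
    rw [← hs_add C₁ C₂, hsum, hs_smul cK (by norm_num)]
  have e2 : ∀ w, hs K₁ w + hs K₁ (-w) = hs K₂ w + hs K₂ (-w) := fun w => by
    rw [← hs_sub C₁ C₁, hdif, hs_sub C₂ C₂]
  obtain ⟨M, hM0, hM₁, hM₂⟩ : ∃ M : ℝ, 0 < M ∧ (∀ x ∈ K, ∀ y ∈ K₁, ‖x - y‖ ≤ M) ∧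
      ∀ x ∈ K, ∀ y ∈ K₂, ‖x - y‖ ≤ M := by
    obtain ⟨R₁, h1⟩ := (cK.sub C₁).cpt.isBounded.exists_norm_le
    obtain ⟨R₂, h2⟩ := (cK.sub C₂).cpt.isBounded.exists_norm_le
    refine ⟨max 1 (max R₁ R₂), by positivity, fun x hx y hy => ?_, fun x hx y hy => ?_⟩
    · exact (h1 _ (sub_mem_sub hx hy)).trans ((le_max_left _ _).trans (le_max_right _ _))
    · exact (h2 _ (sub_mem_sub hx hy)).trans ((le_max_right _ _).trans (le_max_right _ _))
  set t : ℝ := min (1 / 2) (η / M) with ht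
  have ht0 : 0 < t := lt_min (by norm_num) (div_pos hη hM0)
  have ht1 : t < 1 := (min_le_left _ _).trans_lt (by norm_num)
  have htM : t * M ≤ η := by
    calc t * M ≤ η / M * M := mul_le_mul_of_nonneg_right (min_le_right _ _) hM0.le
      _ = η := by field_simp
  have b₁ := kt_body bK C₁ ht0.le ht1
  have b₂ := kt_body bK C₂ ht0.le ht1
  have d₁ : K - K = kt K K₁ t - kt K K₁ t := by
    refine eq_of_hs (cK.sub cK) (b₁.cc.sub b₁.cc) fun w => ?_
    rw [hs_sub cK cK, hs_sub b₁.cc b₁.cc, hs_kt cK C₁ ht0.le ht1.le, hs_kt cK C₁ ht0.le ht1.le]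
    have := e1 w
    have := e1 (-w)
    have := e2 w
    have e3 : hs K w + hs K (-w) = hs K₁ w + hs K₁ (-w) := by linarith
    have : (1 - t) * hs K w + t * hs K₁ w + ((1 - t) * hs K (-w) + t * hs K₁ (-w)) =
      (1 - t) * (hs K w + hs K (-w)) + t * (hs K₁ w + hs K₁ (-w)) := by ring
    rw [this, ← e3]
    ring
  have d₂ : K - K = kt K K₂ t - kt K K₂ t := by
    refine eq_of_hs (cK.sub cK) (b₂.cc.sub b₂.cc) fun w => ?_
    rw [hs_sub cK cK, hs_sub b₂.cc b₂.cc, hs_kt cK C₂ ht0.le ht1.le, hs_kt cK C₂ ht0.le ht1.le]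
    have := e1 w
    have := e1 (-w)
    have := e2 w
    have e3 : hs K w + hs K (-w) = hs K₂ w + hs K₂ (-w) := by linarith
    have : (1 - t) * hs K w + t * hs K₂ w + ((1 - t) * hs K (-w) + t * hs K₂ (-w)) =
      (1 - t) * (hs K w + hs K (-w)) + t * (hs K₂ w + hs K₂ (-w)) := by ring
    rw [this, ← e3]
    ring
  have l₁ := hδ.vol_le hKb b₁.body d₁
    (hmin _ b₁.body ((kt_dist cK.ne n₁ ht0.le hM₁).trans htM))
  have l₂ := hδ.vol_le hKb b₂.body d₂
    (hmin _ b₂.body ((kt_dist cK.ne n₂ ht0.le hM₂).trans htM))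
  -- midpoints
  have hsumt : kt K K₁ t + kt K K₂ t = (2 : ℝ) • K := by
    refine eq_of_hs (b₁.cc.add b₂.cc) (cK.smul 2) fun w => ?_
    rw [hs_add b₁.cc b₂.cc, hs_kt cK C₁ ht0.le ht1.le, hs_kt cK C₂ ht0.le ht1.le,
      hs_smul cK (by norm_num)]
    have := e1 w
    linear_combination t * this
  have hm : ∀ x ∈ kt K K₁ t, ∀ y ∈ kt K K₂ t, (fun i => (x i + y i) / 2) ∈ K := by
    intro x hx y hy
    have h1 : x + y ∈ (2 : ℝ) • K := by rw [← hsumt]; exact add_mem_add hx hy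
    obtain ⟨z, hz, hz'⟩ := h1
    have : (fun i => (x i + y i) / 2) = z := by
      funext i
      have := congrFun hz' i
      simp only [Pi.smul_apply, smul_eq_mul, Pi.add_apply] at this
      linarith
    rw [this]
    exact hz
  have hbm := real_mul_le bK.fin (Pool.Agent.Helper392.Mey.PL.bm_pi b₁.ms b₂.ms bK.ms hm)
  have p0 := bK.rpos
  have q₁ : volume.real (kt K K₁ t) = volume.real K := by nlinarith
  have q₂ : volume.real (kt K K₂ t) = volume.real K := by nlinarith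
  obtain ⟨p, hp⟩ := eq_bm b₁ b₂ bK (q₁.trans q₂.symm) q₂.ge hm
  have hp' : kt K K₁ t = kt K K₂ t + {p} := by
    ext x
    rw [hp, Set.add_singleton, image_add_right, mem_preimage, sub_eq_add_neg]
  have e4 : ∀ w, hs K₁ w = hs K w + ell w ((1 / (2 * t)) • p) := by
    intro w
    have h1 : hs (kt K K₁ t) w = hs (kt K K₂ t) w + ell w p := by
      conv_lhs => rw [hp']
      rw [hs_add b₂.cc (cc_singleton p), hs_singleton]
    rw [hs_kt cK C₁ ht0.le ht1.le, hs_kt cK C₂ ht0.le ht1.le] at h1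
    have h2 := e1 w
    rw [ell_smul]
    have h3 : t * (hs K₁ w - hs K₂ w) = ell w p := by linarith
    have h4 : hs K₁ w - hs K₂ w = 1 / t * ell w p := by
      rw [← h3]; field_simp
    have h5 : 1 / (2 * t) * ell w p = 1 / 2 * (1 / t * ell w p) := by
      field_simp
    rw [h5, ← h4]
    linarith
  refine ⟨(1 / (2 * t)) • p, ?_, ?_⟩
  · refine eq_of_hs C₁ (cK.add (cc_singleton _)) fun w => ?_
    rw [e4, hs_add cK (cc_singleton _), hs_singleton]
  · refine eq_of_hs C₂ (cK.add (cc_singleton _)) fun w => ?_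
    rw [hs_add cK (cc_singleton _), hs_singleton, ell_neg]
    have := e1 w
    have := e4 w
    linarith

/-- no summand of the form `T - T` with `T` not centrally symmetric -/
theorem no_summand (hδ : Good δ) (hK : LocMin δ K) {A T : Set V} (hA : Cc A) (hT : Cc T)
    (h : K = A + (T - T)) : ∃ a : V, T = {a} - T := by
  have cK := (body_bd hK.1).cc
  have hT2 := hT.smul 2
  have hsub := hT.sub hT
  have C₁ : Cc (A + (2 : ℝ) • T) := hA.add hT2
  have C₂ : Cc (A - (2 : ℝ) • T) := hA.sub hT2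
  have e1 : (A + (2 : ℝ) • T) + (A - (2 : ℝ) • T) = (2 : ℝ) • K := by
    refine eq_of_hs (C₁.add C₂) (cK.smul 2) fun w => ?_
    rw [hs_add C₁ C₂, hs_smul cK (by norm_num), h, hs_add hA hT2, hs_sub hA hT2,
      hs_add hA hsub, hs_sub hT hT, hs_smul hT (by norm_num), hs_smul hT (by norm_num)]
    ring
  have e2 : (A + (2 : ℝ) • T) - (A + (2 : ℝ) • T) = (A - (2 : ℝ) • T) - (A - (2 : ℝ) • T) := by
    refine eq_of_hs (C₁.sub C₁) (C₂.sub C₂) fun w => ?_
    have e3 : ∀ w, hs ((2 : ℝ) • T) w = 2 * hs T w := fun w => hs_smul hT (by norm_num) w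
    simp only [hs_sub C₁ C₁, hs_sub C₂ C₂, hs_add hA hT2, hs_sub hA hT2, e3, neg_neg]
    ring
  obtain ⟨a, ha, -⟩ := extremal hδ hK C₁.cpt C₁.cvx C₂.cpt C₂.cvx e1 e2
  refine ⟨a, eq_of_hs hT ((cc_singleton a).sub hT) fun w => ?_⟩
  have h1 : hs (A + (2 : ℝ) • T) w = hs K w + ell w a := by
    rw [ha, hs_add cK (cc_singleton a), hs_singleton]
  rw [h, hs_add hA hT2, hs_add hA hsub, hs_sub hT hT, hs_smul hT (by norm_num)] at h1
  rw [hs_sub (cc_singleton a) hT, hs_singleton]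
  linarith

end Pool.Agent.J4.H72.PK
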