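import Pool.Agent.J4.H72.PK.Meagre

/-! Centrally symmetric bodies; balls and supporting planes; global minimisers. -/

set_option autoImplicit false

namespace Pool.Agent.J4.H72.PK

open MeasureTheory Set Filter Topology
open scoped Pointwise ENNReal
open Pool.Agent.TH219.DL Pool.Agent.H349R2.Tet

/-- the index of the same member among the translates -/
def phi (a : V) (p : Bool × V) : Bool × V := if p.1 = true then (false, p.2 - a) else p

theorem mem_phi {K : Set V} {a : V} (ha : K = {a} - K) (p : Bool × V) :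
    mem K (phi a p) = mem K p := by
  obtain ⟨s, w⟩ := p
  cases s
  · rfl
  · show mem K (false, w - a) = mem K (true, w)
    have hx : ∀ x ∈ K, a - x ∈ K := by
      intro x hx
      have : a - x ∈ ({a} : Set V) - K := sub_mem_sub (mem_singleton a) hx
      rwa [← ha] at this
    ext z
    constructor
    · rintro ⟨x, hxK, rfl⟩
      refine ⟨a - x, hx x hxK, ?_⟩
      simp only [Bool.false_eq_true, if_false, if_true]
      abel
    · rintro ⟨x, hxK, rfl⟩
      refine ⟨a - x, hx x hxK, ?_⟩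
      simp only [Bool.false_eq_true, if_false, if_true]
      abel

theorem phi_false (a : V) (p : Bool × V) : (phi a p).1 = false := by
  obtain ⟨s, w⟩ := p
  cases s <;> rfl

theorem dTs_le_dT {K : Set V} (hK : Bd K) {a : V} (ha : K = {a} - K) : dTs K ≤ dT K := by
  unfold dTs
  refine iSup₂_le fun S hS => ?_
  have hinj : InjOn (phi a) S := by
    intro p hp q hq hpq
    by_contra hne
    have h1 := hS p hp q hq hne
    rw [← mem_phi ha p, hpq, mem_phi ha q, disjoint_self] at h1
    have h2 : (interior (mem K q)).Nonempty := by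
      rw [interior_mem]
      exact hK.int.image _
    rw [bot_eq_empty] at h1
    rw [h1] at h2
    exact not_nonempty_empty h2
  have hden : den K S = den K (phi a '' S) := by
    unfold den
    congr 1
    funext r
    congr 1
    rw [tsum_image (fun p => volume (mem K p ∩ Bl r)) hinj]
    exact tsum_congr fun p => by rw [mem_phi ha]
  rw [hden]
  refine le_iSup₂_of_le (phi a '' S) ⟨?_, ?_⟩ le_rfl
  · rintro _ ⟨p, -, rfl⟩
    exact phi_false a p
  · rintro _ ⟨p, hp, rfl⟩ _ ⟨q, hq, rfl⟩ hpq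
    rw [mem_phi ha, mem_phi ha]
    exact hS p hp q hq fun h => hpq (by rw [h])

theorem not_symm {K : Set V} (hK : Body K) (h : dT K = mn dT) : ¬ ∃ a : V, K = {a} - K := by
  rintro ⟨a, ha⟩
  have h1 : ENNReal.ofReal 0.412 ≤ ENNReal.ofReal (2 / 5) :=
    (dLs_low hK).trans ((dLs_le_dTs K).trans ((dTs_le_dT (body_bd hK) ha).trans
      (h.le.trans ((iInf₂_le T T_body).trans dT_T))))
  rw [ENNReal.ofReal_le_ofReal_iff (by norm_num)] at h1
  norm_num at h1

/-- a ball of radius `r` contained in `K` touches the supporting plane of `K` with the outer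
normal `u` -/
def Touches (K : Set V) (r : ℝ) (u : V) : Prop :=
  ∃ z : V, (∀ y : V, ∑ i, (y i - z i) ^ 2 ≤ r ^ 2 → y ∈ K) ∧
    ∃ x : V, ∑ i, (x i - z i) ^ 2 ≤ r ^ 2 ∧ ∀ y ∈ K, ∑ i, u i * y i ≤ ∑ i, u i * x i

theorem sum_sq (x z : V) : ∑ i, (x i - z i) ^ 2 = ell (x - z) (x - z) :=
  Finset.sum_congr rfl fun i _ => pow_two _

theorem Touches.tb {K : Set V} (hK : Cc K) {r : ℝ} (hr : 0 < r) {u : V} (h : Touches K r u) :
    TB K r u := by
  obtain ⟨z, hz, x, hx, hmax⟩ := h
  rw [sum_sq] at hx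
  have h1 : ∀ v, ell v z + r * nm v ≤ hs K v := by
    intro v
    by_cases hv : v = 0
    · subst hv
      rw [hs_zero hK, nm_zero]
      simp [ell]
    · obtain ⟨h3, h4⟩ := unit_smul hv
      set e := (nm v)⁻¹ • v with he
      have h5 : z + r • e ∈ K := by
        apply hz
        rw [sum_sq, add_sub_cancel_left, ell_smul, ell_smul_left, h3]
        apply le_of_eq; ring
      have h6 := le_hs hK.cpt v h5
      have h7 : ell v e = nm v := by
        conv_lhs => rw [h4]
        rw [ell_smul_left, h3, mul_one]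
      rwa [ell_add, ell_smul, h7] at h6
  refine ⟨z, h1, le_antisymm ?_ (h1 u)⟩
  have h2 : hs K u ≤ ell u x := hs_le hK.ne hmax
  have h3 : ell u x = ell u z + ell u (x - z) := by rw [ell_sub]; ring
  have h4 := cs u (x - z)
  have h5 : nm (x - z) ≤ r := by
    have := nm_sq (x - z)
    have := nm_nonneg (x - z)
    by_contra h6
    push Not at h6
    nlinarith
  have h6 : nm u * nm (x - z) ≤ nm u * r := mul_le_mul_of_nonneg_left h5 (nm_nonneg u)
  linarith

theorem meagre' {δ : Set V → ℝ≥0∞} (hδ : Good δ) {K : Set V} (hK : LocMin δ K) :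
    IsMeagre {u : V | (∃ r > 0, Touches K r u) ∧ ∃ r > 0, Touches K r (-u)} := by
  have cK := (body_bd hK.1).cc
  refine IsMeagre.mono ?_ (meagre hδ hK)
  rintro u ⟨⟨r, hr, h1⟩, s, hs, h2⟩
  exact ⟨⟨r, hr, h1.tb cK hr⟩, s, hs, h2.tb cK hs⟩

theorem no_ball {δ : Set V → ℝ≥0∞} (hδ : Good δ) {K : Set V} (hK : LocMin δ K) (A : Set V)
    {r : ℝ} (hr : 0 < r) : K ≠ A + {x : V | ∑ i, x i ^ 2 ≤ r ^ 2} := by
  intro h
  have cK := (body_bd hK.1).cc
  have ht : ∀ u : V, Touches K r u := by
    intro u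
    obtain ⟨x, hx, hx'⟩ := exists_hs cK u
    have h1 := hx
    rw [h] at h1
    obtain ⟨a, ha, b, hb, hab⟩ := h1
    refine ⟨a, fun y hy => ?_, x, ?_, fun y hy => ?_⟩
    · rw [h]
      exact ⟨a, ha, y - a, hy, by simp⟩
    · rw [← hab]
      simpa using hb
    · have := le_hs cK.cpt u hy
      rw [← hx'] at this
      exact this
  have hm := meagre' hδ hK
  have hu : {u : V | (∃ r > 0, Touches K r u) ∧ ∃ r > 0, Touches K r (-u)} = univ :=
    eq_univ_of_forall fun u => ⟨⟨r, hr, ht u⟩, r, hr, ht (-u)⟩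
  rw [hu] at hm
  exact not_isMeagre_of_isOpen isOpen_univ univ_nonempty hm

theorem global {δ : Set V → ℝ≥0∞} {K : Set V} (hK : Body K) (h : δ K = mn δ) : LocMin δ K :=
  ⟨hK, 1, one_pos, fun K' hK' _ => h.le.trans (iInf₂_le K' hK')⟩

end Pool.Agent.J4.H72.PK
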