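import Pool.Agent.J4.H72.PK.Loc
import Pool.Agent.J4.H72.PK.Exp

/-! Contact sets at the exposed points of local minimisers. -/

set_option autoImplicit false

namespace Pool.Agent.J4.H72.PK

open MeasureTheory Set Filter Topology
open scoped Pointwise ENNReal
open Pool.Agent.TH219.DL Pool.Agent.H349R2.Tet

attribute [local irreducible] dt

theorem alt_eq {K : Set V} (bK : Bd K) {w p : V} (hp : Ex K w p) {σ : Bool} {c x : V}
    (hxK : x ∈ K) (hxM : x ∈ mem K (σ, c)) (hne : x ≠ p)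
    (h : hs K w ≤ ell w x ∨ (σ = false ∧ hs K w ≤ ell w (x - c)) ∨
      (σ = true ∧ hs K w ≤ ell w (c - x))) : x = if σ = true then c - p else p + c := by
  rcases h with h | ⟨rfl, h⟩ | ⟨rfl, h⟩
  · exact absurd (hp.2.2.2 x hxK (le_antisymm (le_hs bK.cpt w hxK) h)) hne
  · rw [mem_iff_false] at hxM
    have := hp.2.2.2 _ hxM (le_antisymm (le_hs bK.cpt w hxM) h)
    rw [if_neg (by decide), ← this, sub_add_cancel]
  · rw [mem_iff_true] at hxM
    have := hp.2.2.2 _ hxM (le_antisymm (le_hs bK.cpt w hxM) h)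
    rw [if_pos rfl, ← this, sub_sub_cancel]

theorem cl_le {A : Set V} (hA : Convex ℝ A) (hi : (interior A).Nonempty) {f : V →L[ℝ] ℝ} {κ : ℝ}
    (h : ∀ z ∈ interior A, f z < κ) {z : V} (hz : z ∈ A) : f z ≤ κ := by
  have h5 : z ∈ closure (interior A) := by
    rw [hA.closure_interior_eq_closure_of_nonempty_interior hi]
    exact subset_closure hz
  have hcl : IsClosed {z : V | f z ≤ κ} := isClosed_le f.continuous continuous_const
  exact closure_minimal (fun a ha => (h a ha).le) hcl h5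

theorem li3 {f : V →L[ℝ] ℝ} {κ : ℝ} {p a b k : V} (hp : f p = κ) (ha : f a = κ) (hb : f b = κ)
    (hk : f k ≠ κ) (hli : LinearIndependent ℝ ![a - p, b - p]) :
    LinearIndependent ℝ ![k - p, a - p, b - p] := by
  refine (linearIndependent_finCons (v := ![a - p, b - p]) (x := k - p)).2 ⟨hli, fun h => ?_⟩
  have h1 : Submodule.span ℝ (range ![a - p, b - p]) ≤ LinearMap.ker (f : V →ₗ[ℝ] ℝ) := by
    rw [Submodule.span_le]
    rintro _ ⟨i, rfl⟩
    fin_cases i
    · show f (a - p) = 0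
      rw [map_sub, ha, hp, sub_self]
    · show f (b - p) = 0
      rw [map_sub, hb, hp, sub_self]
  have h2 : f (k - p) = 0 := h1 h
  rw [map_sub, hp] at h2
  exact hk (by linarith)

theorem mem_int_ne {K : Set V} (bK : Bd K) (q : Bool × V) : (interior (mem K q)).Nonempty := by
  obtain ⟨k, hk⟩ := bK.int
  obtain ⟨σ, c⟩ := q
  rw [interior_mem]
  cases σ
  · exact ⟨k + c, mem_iff_false.2 (by rwa [add_sub_cancel_right])⟩
  · exact ⟨c - k, mem_iff_true.2 (by rwa [sub_sub_cancel])⟩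

/-- two points of the contact set -/
theorem no_two {K : Set V} (bK : Bd K) {w p : V} (hp : Ex K w p) {σ : Bool} {c : V}
    {t : ℕ → ℝ} {yn cn : ℕ → V} (ht : Tendsto t atTop (𝓝 0)) (hy : Tendsto yn atTop (𝓝 p))
    (hc : Tendsto cn atTop (𝓝 c))
    (h : ∀ᶠ n in atTop, yn n ∈ interior K ∧ yn n ∈ interior (mem K (σ, cn n)) ∧
      Disjoint (interior (lo K w (hs K w - t n)))
        (interior (mem (lo K w (hs K w - t n)) (σ, cn n)))) {x₁ x₂ : V}
    (k₁ : x₁ ∈ K) (m₁ : x₁ ∈ mem K (σ, c)) (k₂ : x₂ ∈ K) (m₂ : x₂ ∈ mem K (σ, c))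
    (n₁ : x₁ ≠ p) (n₂ : x₂ ≠ p) (n₁₂ : x₁ ≠ x₂) (a₁ : TT K p x₁) (b₁ : TT (mem K (σ, c)) p x₁)
    (a₂ : TT K p x₂) (b₂ : TT (mem K (σ, c)) p x₂) : False := by
  have h1 := alt_eq bK hp k₁ m₁ n₁ (key ht hy hc h a₁ b₁)
  have h2 := alt_eq bK hp k₂ m₂ n₂ (key ht hy hc h a₂ b₂)
  exact n₁₂ (h1.trans h2.symm)

/-- At every exposed point of a local minimiser there is a contact with a small contact set. -/
theorem thin {s : Bool} {K : Set V} (hK : LocMin (dS s) K) {w p : V} (hp : Ex K w p) :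
    ∃ S, Dst s K S ∧ ∃ q ∈ S, q ≠ (false, 0) ∧ p ∈ mem K q ∧
      ∀ a ∈ K ∩ mem K q, ∀ b ∈ K ∩ mem K q, ¬ LinearIndependent ℝ ![a - p, b - p] := by
  have bK := body_bd hK.1
  obtain ⟨v, b', h1, h2, h3, σ, c, hq, hq0, y, hy, hyw, hyq, t, yn, cn, ht, hyn, hcn, hev⟩ :=
    contact2 hK hp.1
  obtain rfl := hp.2.2.2 y hy hyw
  refine ⟨_, ⟨v, b', h1, rfl, h2, h3⟩, (σ, c), hq, hq0, hyq, fun a ha b hb hli => ?_⟩
  have hcM := mem_cvx bK.cvx (σ, c)
  have hdisj := isPack_fam.1 h2 (σ, c) hq hq0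
  obtain ⟨f, κ, hf1, hf2⟩ := geometric_hahn_banach_open_open bK.cvx.interior isOpen_interior
    hcM.interior isOpen_interior hdisj
  have hM := mem_int_ne bK (σ, c)
  have g1 : ∀ z ∈ K, f z ≤ κ := fun z hz => cl_le bK.cvx bK.int hf1 hz
  have g2 : ∀ z ∈ mem K (σ, c), κ ≤ f z := fun z hz => by
    have h4 : ∀ z ∈ interior (mem K (σ, c)), (-f) z < -κ := fun z hz => by
      have := hf2 z hz
      show -f z < -κ
      linarith
    have h5 := cl_le hcM hM h4 hz
    have h6 : -f z ≤ -κ := h5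
    linarith
  have fy := le_antisymm (g1 y hy) (g2 y hyq)
  have fa := le_antisymm (g1 a ha.1) (g2 a ha.2)
  have fb := le_antisymm (g1 b hb.1) (g2 b hb.2)
  obtain ⟨k, hk⟩ := bK.int
  obtain ⟨m, hm⟩ := hM
  have l1 := li3 fy fa fb (hf1 k hk).ne hli
  have l2 := li3 fy fa fb (hf2 m hm).ne' hli
  have T1 : ∀ r₁ r₂ : ℝ, 0 < r₁ → 0 < r₂ → r₁ + r₂ < 1 →
      TT K y (y + r₁ • (a - y) + r₂ • (b - y)) := fun r₁ r₂ h4 h5 h6 =>
    TT_flat (f := (f : V →ₗ[ℝ] ℝ)) bK.cvx hk hf1 hy ha.1 hb.1 fy fa fb l1 h4 h5 h6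
  have T2 : ∀ r₁ r₂ : ℝ, 0 < r₁ → 0 < r₂ → r₁ + r₂ < 1 →
      TT (mem K (σ, c)) y (y + r₁ • (a - y) + r₂ • (b - y)) := fun r₁ r₂ h4 h5 h6 =>
    TT_flat (f := -(f : V →ₗ[ℝ] ℝ)) (κ := -κ) hcM hm
      (fun z hz => by
        have := hf2 z hz
        show -f z < -κ
        linarith) hyq ha.2 hb.2 (by show -f y = -κ; rw [fy]) (by show -f a = -κ; rw [fa])
      (by show -f b = -κ; rw [fb]) l2 h4 h5 h6
  have hmem : ∀ {A : Set V}, Convex ℝ A → y ∈ A → a ∈ A → b ∈ A → ∀ r₁ r₂ : ℝ, 0 < r₁ →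
      0 < r₂ → r₁ + r₂ < 1 → y + r₁ • (a - y) + r₂ • (b - y) ∈ A := by
    intro A hA h4 h5 h6 r₁ r₂ h7 h8 h9
    have := hA.sum_mem (t := Finset.univ) (w := ![1 - r₁ - r₂, r₁, r₂]) (z := ![y, a, b]) ?_ ?_ ?_
    · rw [Fin.sum_univ_three] at this
      have e : y + r₁ • (a - y) + r₂ • (b - y) = (1 - r₁ - r₂) • y + r₁ • a + r₂ • b := by
        module
      rw [e]
      exact this
    · intro i _
      fin_cases i
      · show 0 ≤ 1 - r₁ - r₂
        linarith
      · exact h7.le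
      · exact h8.le
    · rw [Fin.sum_univ_three]
      show 1 - r₁ - r₂ + r₁ + r₂ = 1
      ring
    · intro i _
      fin_cases i
      · exact h4
      · exact h5
      · exact h6
  have hne : ∀ r₁ r₂ : ℝ, r₁ • (a - y) + r₂ • (b - y) = 0 → r₁ = 0 ∧ r₂ = 0 := fun r₁ r₂ h =>
    LinearIndependent.pair_iff.1 hli r₁ r₂ h
  refine no_two bK hp ht hyn hcn hev (x₁ := y + (1 / 3 : ℝ) • (a - y) + (1 / 3 : ℝ) • (b - y))
    (x₂ := y + (1 / 4 : ℝ) • (a - y) + (1 / 4 : ℝ) • (b - y))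
    (hmem bK.cvx hy ha.1 hb.1 _ _ (by norm_num) (by norm_num) (by norm_num))
    (hmem hcM hyq ha.2 hb.2 _ _ (by norm_num) (by norm_num) (by norm_num))
    (hmem bK.cvx hy ha.1 hb.1 _ _ (by norm_num) (by norm_num) (by norm_num))
    (hmem hcM hyq ha.2 hb.2 _ _ (by norm_num) (by norm_num) (by norm_num)) ?_ ?_ ?_
    (T1 _ _ (by norm_num) (by norm_num) (by norm_num))
    (T2 _ _ (by norm_num) (by norm_num) (by norm_num))
    (T1 _ _ (by norm_num) (by norm_num) (by norm_num))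
    (T2 _ _ (by norm_num) (by norm_num) (by norm_num))
  · intro h
    rw [add_assoc, add_eq_left] at h
    have := (hne _ _ h).1
    norm_num at this
  · intro h
    rw [add_assoc, add_eq_left] at h
    have := (hne _ _ h).1
    norm_num at this
  · intro h
    have h4 : (1 / 12 : ℝ) • (a - y) + (1 / 12 : ℝ) • (b - y) = 0 := by
      have h5 := sub_eq_zero.2 h
      rw [← h5]
      module
    have := (hne _ _ h4).1
    norm_num at this

/-- At the vertices of a polytope which is a local minimiser there is a contact in exactly this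
point. -/
theorem vert {s : Bool} {K : Set V} (hK : LocMin (dS s) K) (hfin : (K.extremePoints ℝ).Finite)
    {p : V} (hp' : p ∈ K.extremePoints ℝ) :
    ∃ S, Dst s K S ∧ ∃ q ∈ S, q ≠ (false, 0) ∧ K ∩ mem K q = {p} := by
  have bK := body_bd hK.1
  obtain ⟨w, hp⟩ := ext_exposed bK hfin hp'
  have hfin' : {p | ∃ w, Ex K w p}.Finite := hfin.subset fun y hy => by
    obtain ⟨w, hw⟩ := hy
    exact exposed_extreme bK hw
  have hKE := poly_of_exposed bK hfin'
  set E := {p | ∃ w, Ex K w p} with hE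
  obtain ⟨v, b', h1, h2, h3, σ, c, hq, hq0, y, hy, hyw, hyq, t, yn, cn, ht, hyn, hcn, hev⟩ :=
    contact2 hK hp.1
  obtain rfl := hp.2.2.2 y hy hyw
  refine ⟨_, ⟨v, b', h1, rfl, h2, h3⟩, (σ, c), hq, hq0, ?_⟩
  refine Subset.antisymm ?_ (singleton_subset_iff.2 ⟨hy, hyq⟩)
  rintro z ⟨hz1, hz2⟩
  by_contra hzy
  rw [mem_singleton_iff] at hzy
  -- the other member is a polytope, too
  obtain ⟨F, hF, hMF⟩ : ∃ F : Set V, F.Finite ∧ mem K (σ, c) = convexHull ℝ F := by
    cases σ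
    · refine ⟨(fun x => x + c) '' E, hfin'.image _, ?_⟩
      have e : mem K (false, c) = (fun x => x + c) '' K := by
        rw [mem_false]
        rfl
      rw [e]
      conv_lhs => rw [hKE]
      have := (AffineMap.id ℝ V + AffineMap.const ℝ V c).image_convexHull E
      exact this
    · refine ⟨(fun x => c - x) '' E, hfin'.image _, ?_⟩
      have e : mem K (true, c) = (fun x => c - x) '' K := by
        ext x
        rw [mem_iff_true]
        constructor
        · intro h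
          exact ⟨c - x, h, by simp⟩
        · rintro ⟨x', hx', rfl⟩
          simpa using hx'
      rw [e]
      conv_lhs => rw [hKE]
      have := (AffineMap.const ℝ V c - AffineMap.id ℝ V).image_convexHull E
      exact this
  have T1 : ∀ r : ℝ, 0 < r → r < 1 → TT K y ((1 - r) • y + r • z) := fun r hr0 hr1 => by
    have := TT_poly hfin' (y := y) (z := z) (by rw [← hKE]; exact hy) (by rw [← hKE]; exact hz1)
      hr0 hr1
    rwa [← hKE] at this
  have T2 : ∀ r : ℝ, 0 < r → r < 1 → TT (mem K (σ, c)) y ((1 - r) • y + r • z) :=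
    fun r hr0 hr1 => by
    have := TT_poly hF (y := y) (z := z) (by rw [← hMF]; exact hyq) (by rw [← hMF]; exact hz2)
      hr0 hr1
    rwa [← hMF] at this
  have hcM := mem_cvx bK.cvx (σ, c)
  have hm1 : ∀ r : ℝ, 0 < r → r < 1 → (1 - r) • y + r • z ∈ K := fun r hr0 hr1 =>
    bK.cvx hy hz1 (by linarith) hr0.le (by ring)
  have hm2 : ∀ r : ℝ, 0 < r → r < 1 → (1 - r) • y + r • z ∈ mem K (σ, c) := fun r hr0 hr1 =>
    hcM hyq hz2 (by linarith) hr0.le (by ring)
  have hzy' : z - y ≠ 0 := sub_ne_zero.2 hzy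
  have hne : ∀ r : ℝ, r ≠ 0 → (1 - r) • y + r • z ≠ y := by
    intro r hr h
    have h4 : r • (z - y) = 0 := by
      rw [← sub_eq_zero.2 h]
      module
    rcases smul_eq_zero.1 h4 with h5 | h5
    · exact hr h5
    · exact hzy' h5
  refine no_two bK hp ht hyn hcn hev (x₁ := (1 - (1 / 2 : ℝ)) • y + (1 / 2 : ℝ) • z)
    (x₂ := (1 - (1 / 3 : ℝ)) • y + (1 / 3 : ℝ) • z) (hm1 _ (by norm_num) (by norm_num))
    (hm2 _ (by norm_num) (by norm_num)) (hm1 _ (by norm_num) (by norm_num))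
    (hm2 _ (by norm_num) (by norm_num)) (hne _ (by norm_num)) (hne _ (by norm_num)) ?_
    (T1 _ (by norm_num) (by norm_num)) (T2 _ (by norm_num) (by norm_num))
    (T1 _ (by norm_num) (by norm_num)) (T2 _ (by norm_num) (by norm_num))
  intro h
  have h4 : (1 / 6 : ℝ) • (z - y) = 0 := by
    rw [← sub_eq_zero.2 h]
    module
  rcases smul_eq_zero.1 h4 with h5 | h5
  · norm_num at h5
  · exact hzy' h5

end Pool.Agent.J4.H72.PK
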