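import Pool.Agent.J4.H72.PK.Sl

/-! Countably many densest packings. -/

set_option autoImplicit false

namespace Pool.Agent.J4.H72.PK

open MeasureTheory Set Filter Topology
open scoped Pointwise ENNReal
open Pool.Agent.TH219.DL Pool.Agent.H349R2.Tet

attribute [local irreducible] dt

theorem coll_of {A : Set V} {p : V} (hp : p ∈ A)
    (h : ∀ a ∈ A, ∀ b ∈ A, ¬ LinearIndependent ℝ ![a - p, b - p]) : Collinear ℝ A := by
  rw [collinear_iff_of_mem hp]
  by_cases h1 : ∃ a ∈ A, a ≠ p
  · obtain ⟨a, ha, hap⟩ := h1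
    refine ⟨a - p, fun b hb => ?_⟩
    have h2 : ∃ τ : ℝ, τ • (a - p) = b - p := by
      by_contra hcon
      push Not at hcon
      exact h a ha b hb ((LinearIndependent.pair_iff' (sub_ne_zero.2 hap)).2 hcon)
    obtain ⟨τ, hτ⟩ := h2
    refine ⟨τ, ?_⟩
    rw [hτ, vadd_eq_add, sub_add_cancel]
  · push Not at h1
    exact ⟨0, fun b hb => ⟨0, by rw [h1 b hb]; simp⟩⟩

/-- a collinear set contains at most two extreme points -/
theorem two_ext {K X : Set V} (hX : Collinear ℝ X) (hE : X ⊆ K.extremePoints ℝ) : X.Finite := by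
  by_cases h1 : X.Subsingleton
  · exact h1.finite
  · rw [Set.not_subsingleton_iff] at h1
    obtain ⟨p, hp, a, ha, hpa⟩ := h1
    refine (Set.toFinite {p, a}).subset fun x hx => ?_
    by_contra hxpa
    rw [mem_insert_iff, mem_singleton_iff, not_or] at hxpa
    rw [collinear_iff_of_mem hp] at hX
    obtain ⟨v, hv⟩ := hX
    obtain ⟨r, hr⟩ := hv a ha
    obtain ⟨r', hr'⟩ := hv x hx
    refine ext_coll (hE hp) (hE ha) (hE hx) hpa.symm hxpa.1 hxpa.2 fun hli => ?_
    have h2 := LinearIndependent.pair_iff.1 hli r' (-r) (by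
      rw [hr, hr', vadd_eq_add, vadd_eq_add]
      module)
    have h3 : r = 0 := by linarith [h2.2]
    rw [h3, zero_smul, zero_vadd] at hr
    exact hpa hr.symm

theorem ext_countable {s : Bool} {K : Set V} (hK : LocMin (dS s) K)
    (hD : {S | Dst s K S}.Countable) : (K.extremePoints ℝ).Countable := by
  have hsub : K.extremePoints ℝ ⊆ ⋃ S ∈ {S | Dst s K S}, ⋃ q ∈ S,
      {p | p ∈ K.extremePoints ℝ ∧ p ∈ mem K q ∧ Collinear ℝ (K ∩ mem K q)} := by
    intro p hp
    obtain ⟨S, hS, q, hq, hq0, hpq, hthin⟩ := thinE hK hp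
    simp only [mem_iUnion]
    exact ⟨S, hS, q, hq, hp, hpq, coll_of ⟨hp.1, hpq⟩ hthin⟩
  refine Countable.mono hsub (hD.biUnion fun S hS => ?_)
  obtain ⟨v, b, -, rfl, hpk, -⟩ := hS
  refine (fam_countable s v b).biUnion fun q hq => ?_
  by_cases h : Collinear ℝ (K ∩ mem K q)
  · have h2 : {p | p ∈ K.extremePoints ℝ ∧ p ∈ mem K q ∧ Collinear ℝ (K ∩ mem K q)} ⊆
        K ∩ mem K q := fun p hp => ⟨hp.1.1, hp.2.1⟩
    exact (two_ext (K := K) (h.subset h2) fun p hp => hp.1).countable
  · have e : {p | p ∈ K.extremePoints ℝ ∧ p ∈ mem K q ∧ Collinear ℝ (K ∩ mem K q)} = ∅ := by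
      ext p
      simp [h]
    rw [e]
    exact countable_empty

/-- the outer normals of `K` at `p` -/
def Nc (K : Set V) (p : V) : Set V := {w | ∀ x ∈ K, ell w x ≤ ell w p}

theorem nc_closed (K : Set V) (p : V) : IsClosed (Nc K p) := by
  have e : Nc K p = ⋂ x ∈ K, {w | ell w x ≤ ell w p} := by
    ext w
    simp [Nc]
  rw [e]
  have hc : ∀ x : V, Continuous fun w : V => ell w x := by
    intro x
    unfold ell
    fun_prop
  exact isClosed_biInter fun x _ => isClosed_le (hc x) (hc p)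

theorem exists_ext {K : Set V} (bK : Bd K) (w : V) : ∃ p ∈ K.extremePoints ℝ, w ∈ Nc K p := by
  obtain ⟨x, hx, hxw⟩ := exists_hs bK.cc w
  set F : Set V := K ∩ {y | hs K w ≤ ell w y} with hF
  have hFc : IsCompact F := bK.cpt.inter_right (isClosed_le continuous_const (continuous_ell w))
  obtain ⟨p, hp⟩ := hFc.extremePoints_nonempty ⟨x, hx, hxw.ge⟩
  have hpw : ell w p = hs K w := le_antisymm (le_hs bK.cpt w hp.1.1) hp.1.2
  refine ⟨p, ⟨hp.1.1, fun a ha b hb hab => ?_⟩, fun y hy => ?_⟩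
  · obtain ⟨α, β, hα, hβ, hαβ, e⟩ := id hab
    have h1 := le_hs bK.cpt w ha
    have h2 := le_hs bK.cpt w hb
    have h3 : α * ell w a + β * ell w b = hs K w := by
      rw [← hpw, ← e, ell_add, ell_smul, ell_smul]
    have h4 : hs K w ≤ ell w a := by
      by_contra hcon
      push Not at hcon
      have h5 : α * ell w a < α * hs K w := mul_lt_mul_of_pos_left hcon hα
      have h6 : β * ell w b ≤ β * hs K w := mul_le_mul_of_nonneg_left h2 hβ.le
      have h7 : α * hs K w + β * hs K w = hs K w := by rw [← add_mul, hαβ, one_mul]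
      linarith
    have h5 : hs K w ≤ ell w b := by
      by_contra hcon
      push Not at hcon
      have h5 : β * ell w b < β * hs K w := mul_lt_mul_of_pos_left hcon hβ
      have h6 : α * ell w a ≤ α * hs K w := mul_le_mul_of_nonneg_left h1 hα.le
      have h7 : α * hs K w + β * hs K w = hs K w := by rw [← add_mul, hαβ, one_mul]
      linarith
    exact hp.2 ⟨ha, h4⟩ ⟨hb, h5⟩ hab
  · rw [hpw]
    exact le_hs bK.cpt w hy

theorem dense_nc {K : Set V} (bK : Bd K) (hE : (K.extremePoints ℝ).Countable) :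
    Dense (⋃ p ∈ K.extremePoints ℝ, interior (Nc K p)) := by
  refine dense_biUnion_interior_of_closed (fun p _ => nc_closed K p) hE ?_
  refine eq_univ_of_forall fun w => ?_
  obtain ⟨p, hp, hw⟩ := exists_ext bK w
  exact mem_biUnion hp hw

theorem hull_vx {K : Set V} (bK : Bd K)
    (hd : Dense (⋃ p ∈ K.extremePoints ℝ, interior (Nc K p))) :
    K = closure (convexHull ℝ {p | p ∈ K ∧ (interior (Nc K p)).Nonempty}) := by
  set C := closure (convexHull ℝ {p | p ∈ K ∧ (interior (Nc K p)).Nonempty}) with hC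
  have hsub : C ⊆ K :=
    closure_minimal (convexHull_min (fun y hy => hy.1) bK.cvx) bK.cpt.isClosed
  refine Subset.antisymm ?_ hsub
  have hne : C.Nonempty := by
    obtain ⟨w, hw⟩ := hd.nonempty
    simp only [mem_iUnion] at hw
    obtain ⟨p, hp, hw⟩ := hw
    exact ⟨p, subset_closure (subset_convexHull ℝ _ ⟨hp.1, w, hw⟩)⟩
  have hc : Cc C :=
    ⟨bK.cpt.of_isClosed_subset isClosed_closure hsub, (convex_convexHull ℝ _).closure, hne⟩
  intro x hx
  by_contra hx'
  obtain ⟨w, hw⟩ := sep hc hx'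
  have hcx : Continuous fun w : V => ell w x := by
    unfold ell
    fun_prop
  have ho : IsOpen {w : V | hs C w < ell w x} := isOpen_lt (continuous_hs hc.cpt) hcx
  obtain ⟨w', hw'1, hw'2⟩ := hd.exists_mem_open ho ⟨w, hw⟩
  simp only [mem_iUnion] at hw'1
  obtain ⟨p, hp, hw'⟩ := hw'1
  have hw'2 : hs C w' < ell w' x := hw'2
  have h1 := interior_subset hw' x hx
  have h2 := le_hs hc.cpt w' (subset_closure (subset_convexHull ℝ _
    (show p ∈ {p | p ∈ K ∧ (interior (Nc K p)).Nonempty} from ⟨hp.1, w', hw'⟩)))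
  linarith

end Pool.Agent.J4.H72.PK
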